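import Pool.Agent.Work.MP_b29d7f_half.Tools

/-!
# The squares: the exponent one half is sharp
-/

namespace Pool.Agent.Work.MP_b29d7f_half

open Finset
open Pool.Agent.Work.MP_b29d7f_nt (IsPOrdering HasSimultaneousOrdering)

namespace Sharp

theorem choose_int (N k : ℕ) : ((N.choose (k + 1) : ℕ) : ℤ) * ((k : ℤ) + 1) =
    (N.choose k : ℤ) * ((N : ℤ) - k) := by
  rcases lt_or_ge N k with h | h
  · rw [Nat.choose_eq_zero_of_lt h, Nat.choose_eq_zero_of_lt (h.trans (Nat.lt_succ_self k))]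
    simp
  · have h1 := Nat.choose_succ_right_eq N k
    have h2 : ((N.choose (k + 1) * (k + 1) : ℕ) : ℤ) = ((N.choose k * (N - k) : ℕ) : ℤ) := by
      rw [h1]
    rw [Nat.cast_mul, Nat.cast_mul, Nat.cast_sub h] at h2
    push_cast at h2
    exact h2

/-- the product is `n (2j+1)! C(n+j, 2j+1)` -/
theorem prod_eq (n j : ℕ) : ∏ i ∈ range (j + 1), ((n : ℤ) ^ 2 - (i : ℤ) ^ 2) =
    (n : ℤ) * ((2 * j + 1).factorial : ℤ) * ((n + j).choose (2 * j + 1) : ℤ) := by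
  induction j with
  | zero => simp; ring
  | succ j ih =>
    rw [Finset.prod_range_succ, ih]
    have h1 : ((2 * (j + 1) + 1).factorial : ℤ) =
        (2 * (j : ℤ) + 3) * ((2 * (j : ℤ) + 2) * ((2 * j + 1).factorial : ℤ)) := by
      rw [show 2 * (j + 1) + 1 = (2 * j + 2) + 1 by ring, Nat.factorial_succ,
        show 2 * j + 2 = (2 * j + 1) + 1 by ring, Nat.factorial_succ]
      push_cast
      ring
    have h2 := choose_int (n + j) (2 * j + 1)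
    have h3 := Nat.add_one_mul_choose_eq (n + j) (2 * j + 2)
    have h4 : (((n + j + 1) * (n + j).choose (2 * j + 2) : ℕ) : ℤ) =
        (((n + j + 1).choose (2 * j + 2 + 1) * (2 * j + 2 + 1) : ℕ) : ℤ) := by
      rw [h3]
    have e1 : 2 * j + 1 + 1 = 2 * j + 2 := by ring
    have e2 : 2 * (j + 1) + 1 = 2 * j + 2 + 1 := by ring
    have e3 : n + (j + 1) = n + j + 1 := by ring
    rw [e1] at h2
    rw [h1, e2, e3]
    push_cast at h2 h4 ⊢
    linear_combination (n : ℤ) * ((2 * j + 1).factorial : ℤ) * (-((n : ℤ) + j + 1) * h2 +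
      (2 * (j : ℤ) + 2) * h4)

theorem self_eq (j : ℕ) : ∏ i ∈ range (j + 1), (((j + 1 : ℕ) : ℤ) ^ 2 - (i : ℤ) ^ 2) =
    ((j : ℤ) + 1) * ((2 * j + 1).factorial : ℤ) := by
  rw [prod_eq, show j + 1 + j = 2 * j + 1 by ring, Nat.choose_self]
  push_cast
  ring

theorem dvd_mul_choose (n j : ℕ) : ((j : ℤ) + 1) ∣ (n : ℤ) * ((n + j).choose (2 * j + 1) : ℤ) := by
  have h3 := Nat.add_one_mul_choose_eq (n + j) (2 * j + 1)
  have h4 : (((n + j + 1) * (n + j).choose (2 * j + 1) : ℕ) : ℤ) =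
      (((n + j + 1).choose (2 * j + 1 + 1) * (2 * j + 1 + 1) : ℕ) : ℤ) := by
    rw [h3]
  push_cast at h4
  refine ⟨2 * ((n + j + 1).choose (2 * j + 1 + 1) : ℤ) - ((n + j).choose (2 * j + 1) : ℤ), ?_⟩
  linear_combination h4

theorem prod_dvd (k : ℕ) (n : ℤ) : ∏ i ∈ range k, ((k : ℤ) ^ 2 - (i : ℤ) ^ 2) ∣
    ∏ i ∈ range k, (n ^ 2 - (i : ℤ) ^ 2) := by
  rcases k with _ | j
  · simp
  · have h1 : n ^ 2 = ((n.natAbs : ℕ) : ℤ) ^ 2 := by
      rw [Int.natCast_natAbs, sq_abs]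
    rw [h1, self_eq, prod_eq]
    obtain ⟨c, hc⟩ := dvd_mul_choose n.natAbs j
    exact ⟨c, by linear_combination ((2 * j + 1).factorial : ℤ) * hc⟩

/-- the squares have a simultaneous ordering -/
theorem squares_ordering : HasSimultaneousOrdering {x : ℤ | ∃ n : ℤ, x = n ^ 2} := by
  refine ⟨fun k => (k : ℤ) ^ 2, fun p _ => ⟨fun k => ⟨k, rfl⟩, ?_⟩⟩
  rintro k s ⟨n, rfl⟩
  exact emultiplicity_le_emultiplicity_of_dvd_right (prod_dvd k n)

theorem squares_count (L : ℕ) : (L : ℝ) ^ (1 / 2 : ℝ) ≤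
    (({x : ℤ | ∃ n : ℤ, x = n ^ 2} ∩ Set.Ico (0 : ℤ) (0 + L)).ncard : ℝ) := by
  have hm : Real.sqrt L ≤ (⌈Real.sqrt L⌉₊ : ℝ) := Nat.le_ceil _
  rw [← Real.sqrt_eq_rpow]
  refine hm.trans ?_
  have hinj : Set.InjOn (fun i : ℕ => (i : ℤ) ^ 2) (range ⌈Real.sqrt L⌉₊ : Set ℕ) := by
    intro x _ y _ h
    have h' : (x : ℤ) ^ 2 = (y : ℤ) ^ 2 := h
    have h'' : x ^ 2 = y ^ 2 := by exact_mod_cast h'
    exact Nat.pow_left_injective two_ne_zero h''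
  have hcard : ((range ⌈Real.sqrt L⌉₊).image fun i : ℕ => (i : ℤ) ^ 2).card =
      ⌈Real.sqrt L⌉₊ := by
    rw [Finset.card_image_of_injOn hinj, Finset.card_range]
  have hsub : (((range ⌈Real.sqrt L⌉₊).image fun i : ℕ => (i : ℤ) ^ 2 : Finset ℤ) : Set ℤ) ⊆
      {x : ℤ | ∃ n : ℤ, x = n ^ 2} ∩ Set.Ico (0 : ℤ) (0 + L) := by
    intro x hx
    rw [Finset.mem_coe, Finset.mem_image] at hx
    obtain ⟨i, hi, rfl⟩ := hx
    rw [Finset.mem_range] at hi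
    have h1 : (i : ℝ) < Real.sqrt L := Nat.lt_ceil.mp hi
    have h2 : (i : ℝ) ^ 2 < L := Real.lt_sqrt (by positivity : (0 : ℝ) ≤ i) |>.mp h1
    have h3 : (i : ℤ) ^ 2 < (L : ℤ) := by exact_mod_cast h2
    have h4 : (0 : ℤ) ≤ (i : ℤ) ^ 2 := by positivity
    refine ⟨⟨i, rfl⟩, Set.mem_Ico.mpr ⟨h4, ?_⟩⟩
    rw [zero_add]
    exact h3
  have hfin : ({x : ℤ | ∃ n : ℤ, x = n ^ 2} ∩ Set.Ico (0 : ℤ) (0 + L)).Finite :=
    (Set.finite_Ico _ _).subset Set.inter_subset_right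
  have h3 := Set.ncard_le_ncard hsub hfin
  rw [Set.ncard_coe_finset, hcard] at h3
  exact_mod_cast h3

theorem squares_no_ap :
    ¬ ∃ a b : ℤ, a ≠ 0 ∧ ∀ n : ℕ, a * n + b ∈ {x : ℤ | ∃ n : ℤ, x = n ^ 2} := by
  rintro ⟨a, b, ha, h⟩
  rcases lt_or_gt_of_ne ha with ha | ha
  · obtain ⟨m, hm⟩ := h (b.natAbs + 1)
    have h1 : (0 : ℤ) ≤ m ^ 2 := sq_nonneg m
    have h2 : b ≤ |b| := le_abs_self b
    have h4 : 0 ≤ |b| := abs_nonneg b
    push_cast at hm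
    nlinarith
  · obtain ⟨m, hm⟩ := h (a.natAbs + b.natAbs)
    obtain ⟨m', hm'⟩ := h (a.natAbs + b.natAbs + 1)
    have e1 : |a| = a := abs_of_pos ha
    have h2 : -b ≤ |b| := neg_le_abs b
    have h4 : 0 ≤ |b| := abs_nonneg b
    push_cast at hm hm'
    rw [e1] at hm hm'
    have h5 : a ^ 2 ≤ m ^ 2 := by nlinarith
    have h6 : a ≤ |m| := by
      have := sq_le_sq.mp h5
      rwa [e1] at this
    have h7 : m' ^ 2 = m ^ 2 + a := by linarith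
    have h8 : |m| < |m'| := by
      refine sq_lt_sq.mp ?_
      linarith
    have h9 : |m| + 1 ≤ |m'| := h8
    have h10 : (|m| + 1) ^ 2 ≤ |m'| ^ 2 := pow_le_pow_left₀ (by positivity) h9 2
    rw [sq_abs] at h10
    have h11 : |m| ^ 2 = m ^ 2 := sq_abs m
    nlinarith

end Sharp

/-- **sharpness**: the squares have a simultaneous ordering, at least `L ^ (1/2)` of them lie in
`[0, L)`, and they contain no infinite arithmetic progression -/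
theorem squares_sharp :
    HasSimultaneousOrdering {x : ℤ | ∃ n : ℤ, x = n ^ 2} ∧
    (∀ L : ℕ, (L : ℝ) ^ (1 / 2 : ℝ) ≤
      (({x : ℤ | ∃ n : ℤ, x = n ^ 2} ∩ Set.Ico (0 : ℤ) (0 + L)).ncard : ℝ)) ∧
    ¬ ∃ a b : ℤ, a ≠ 0 ∧ ∀ n : ℕ, a * n + b ∈ {x : ℤ | ∃ n : ℤ, x = n ^ 2} :=
  ⟨Sharp.squares_ordering, Sharp.squares_count, Sharp.squares_no_ap⟩

end Pool.Agent.Work.MP_b29d7f_half
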