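import Pool.Agent.Work.MP_b29d7f_half.Tools

/-!
# The half exponent theorem, block CS: Cauchy-Schwarz for the kernel (helper21)
-/

namespace Pool.Agent.Work.MP_b29d7f_half

open Finset
open Pool.Agent.Work.MP_b29d7f_nt (IsPOrdering HasSimultaneousOrdering PosUpperBanachDensity
  PS vd ld tv)

namespace CSBlock

/-- indicator of a residue class -/
noncomputable def cl (q c : ℕ) (x : ℤ) : ℝ := if x % (q : ℤ) = (c : ℤ) then 1 else 0

lemma cl_sum {q : ℕ} (hq : 0 < q) (x y : ℤ) :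
    ∑ c ∈ range q, cl q c x * cl q c y = if (q : ℤ) ∣ x - y then 1 else 0 := by
  have hq0 : (0 : ℤ) < q := by exact_mod_cast hq
  have hx0 := Int.emod_nonneg x hq0.ne'
  have hxq := Int.emod_lt_of_pos x hq0
  have hiff : (q : ℤ) ∣ x - y ↔ x % (q : ℤ) = y % (q : ℤ) := by
    rw [Int.emod_eq_emod_iff_emod_sub_eq_zero, Int.dvd_iff_emod_eq_zero]
  have hc0 : (((x % (q : ℤ)).toNat : ℕ) : ℤ) = x % (q : ℤ) := Int.toNat_of_nonneg hx0
  have hmem : (x % (q : ℤ)).toNat ∈ range q := by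
    rw [mem_range]
    omega
  rw [Finset.sum_eq_single_of_mem _ hmem]
  · unfold cl
    rw [hc0, if_pos rfl, one_mul]
    by_cases h : (q : ℤ) ∣ x - y
    · rw [if_pos h, if_pos (hiff.mp h).symm]
    · rw [if_neg h, if_neg fun h' => h (hiff.mpr h'.symm)]
  · intro c _ hc
    have : cl q c x = 0 := by
      unfold cl
      rw [if_neg]
      intro h
      apply hc
      omega
    rw [this, zero_mul]

/-- the index set: a prime, an exponent, a residue class -/
noncomputable def idx (Q R : ℕ) : Finset (Σ _ : ℕ, Σ _ : ℕ, ℕ) :=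
  Q.primesLE.sigma fun p => (Icc 1 (Nat.log p R)).sigma fun j => range (p ^ j)

/-- the feature functions -/
noncomputable def u (i : Σ _ : ℕ, Σ _ : ℕ, ℕ) (x : ℤ) : ℝ :=
  Real.sqrt (Real.log i.1) * cl (i.1 ^ i.2.1) i.2.2 x

lemma K_eq (Q R : ℕ) (x y : ℤ) : K Q R x y = ∑ i ∈ idx Q R, u i x * u i y := by
  unfold K idx
  rw [Finset.sum_sigma]
  refine Finset.sum_congr rfl fun p hp => ?_
  have hpp : p.Prime := (Nat.mem_primesLE.mp hp).2
  rw [Finset.sum_sigma]
  have hlog : 0 ≤ Real.log (p : ℝ) := Real.log_nonneg (by exact_mod_cast hpp.one_lt.le)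
  have h1 : ∀ j ∈ Icc 1 (Nat.log p R), ∑ c ∈ range (p ^ j), u ⟨p, j, c⟩ x * u ⟨p, j, c⟩ y =
      Real.log p * (if (p : ℤ) ^ j ∣ x - y then 1 else 0) := by
    intro j _
    have h2 := cl_sum (pow_pos hpp.pos j) x y
    push_cast at h2
    rw [← h2, Finset.mul_sum]
    refine Finset.sum_congr rfl fun c _ => ?_
    simp only [u]
    have h3 := Real.mul_self_sqrt hlog
    calc Real.sqrt (Real.log p) * cl (p ^ j) c x * (Real.sqrt (Real.log p) * cl (p ^ j) c y) =
        (Real.sqrt (Real.log p) * Real.sqrt (Real.log p)) * (cl (p ^ j) c x * cl (p ^ j) c y) := by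
          ring
      _ = _ := by rw [h3]
  rw [Finset.sum_congr rfl h1, ← Finset.mul_sum, Pool.Agent.Work.MP_b29d7f_nt.tv_eq,
    Finset.card_filter]
  push_cast
  rfl

lemma sum_K (Q R : ℕ) (X Y : Finset ℤ) : ∑ x ∈ X, ∑ y ∈ Y, K Q R x y =
    ∑ i ∈ idx Q R, (∑ x ∈ X, u i x) * ∑ y ∈ Y, u i y := by
  simp_rw [K_eq, Finset.sum_mul_sum]
  rw [Finset.sum_comm' (s := X) (t := fun _ => idx Q R) (t' := idx Q R) (s' := fun _ => X)
    (by intro _ _; tauto) |>.symm]
  refine Finset.sum_congr rfl fun x _ => ?_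
  rw [Finset.sum_comm]

end CSBlock

theorem stmt_CS : Stmt_CS := by
  intro Q R X Y
  simp_rw [CSBlock.sum_K]
  refine (Finset.sum_mul_sq_le_sq_mul_sq _ _ _).trans (le_of_eq ?_)
  congr 1
  · exact Finset.sum_congr rfl fun i _ => sq _
  · exact Finset.sum_congr rfl fun i _ => sq _

end Pool.Agent.Work.MP_b29d7f_half
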