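import Pool.Agent.Work.MP_b29d7f_half.Interface

/-!
# Small tools shared by the blocks
-/

namespace Pool.Agent.Work.MP_b29d7f_half

open Finset
open Pool.Agent.Work.MP_b29d7f_nt (IsPOrdering HasSimultaneousOrdering PosUpperBanachDensity
  PS vd ld tv)

/-- ordered pairs versus unordered pairs -/
theorem two_PS (f : ℤ → ℤ → ℝ) (hf : ∀ x y, f x y = f y x) (X : Finset ℤ) :
    2 * PS f X = ∑ x ∈ X, ∑ y ∈ X.erase x, f x y := by
  classical
  have h1 : ∀ x ∈ X, ∑ y ∈ X.erase x, f x y =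
      ∑ y ∈ X.filter (fun y => y < x), f x y + ∑ y ∈ X.filter (fun y => x < y), f x y := by
    intro x _
    rw [← Finset.sum_union]
    · refine Finset.sum_congr ?_ fun _ _ => rfl
      ext y
      simp only [Finset.mem_erase, Finset.mem_union, Finset.mem_filter]
      constructor
      · rintro ⟨h1, h2⟩
        rcases lt_or_gt_of_ne h1 with h | h
        · exact Or.inl ⟨h2, h⟩
        · exact Or.inr ⟨h2, h⟩
      · rintro (⟨h1, h2⟩ | ⟨h1, h2⟩)
        · exact ⟨h2.ne, h1⟩
        · exact ⟨h2.ne', h1⟩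
    · rw [Finset.disjoint_left]
      intro y hy hy'
      rw [Finset.mem_filter] at hy hy'
      exact lt_asymm hy.2 hy'.2
  rw [Finset.sum_congr rfl h1, Finset.sum_add_distrib]
  have h2 : ∑ x ∈ X, ∑ y ∈ X.filter (fun y => x < y), f x y = PS f X := by
    unfold PS
    simp_rw [Finset.sum_filter]
    rw [Finset.sum_comm]
    refine Finset.sum_congr rfl fun x _ => Finset.sum_congr rfl fun y _ => ?_
    split_ifs
    · exact hf y x
    · rfl
  rw [h2]
  unfold PS
  ring

theorem card_A {a : ℕ → ℤ} (ha : Function.Injective a) (n : ℕ) : (A a n).card = n := by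
  unfold A
  rw [Finset.card_image_of_injective _ ha, Finset.card_range]

theorem mem_A {a : ℕ → ℤ} {n : ℕ} {x : ℤ} : x ∈ A a n ↔ ∃ i < n, a i = x := by
  unfold A
  simp

theorem A_mono {a : ℕ → ℤ} {m n : ℕ} (h : m ≤ n) : A a m ⊆ A a n := by
  intro x hx
  rw [mem_A] at hx ⊢
  obtain ⟨i, hi, hx⟩ := hx
  exact ⟨i, hi.trans_le h, hx⟩

theorem sum_A (f : ℤ → ℝ) {a : ℕ → ℤ} (ha : Function.Injective a) (n : ℕ) :
    ∑ y ∈ A a n, f y = ∑ i ∈ range n, f (a i) := by
  unfold A
  rw [Finset.sum_image fun i _ j _ h => ha h]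

theorem ld_self (x : ℤ) : ld x x = 0 := by
  unfold ld
  simp

theorem ld_nonneg (x y : ℤ) : 0 ≤ ld x y := by
  unfold ld
  by_cases h : x = y
  · subst h; simp
  · refine Real.log_nonneg ?_
    have h1 : 1 ≤ |x - y| := Int.one_le_abs (sub_ne_zero.mpr h)
    exact_mod_cast h1

end Pool.Agent.Work.MP_b29d7f_half
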