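import Pool.Agent.Work.MP_b29d7f_half.Interface
import Pool.Agent.Work.MP_b29d7f_half.Tools

/-!
# Block KSUM: the kernel and the energy (second seat)
-/

namespace Pool.Agent.Work.MP_b29d7f_half

namespace KSUM94

open Finset
open Pool.Agent.Work.MP_b29d7f_nt (IsPOrdering HasSimultaneousOrdering PosUpperBanachDensity
  PS vd ld tv vd_comm)

theorem tv_zero (p N : ℕ) : tv p N 0 = N := by
  unfold tv
  rw [Finset.filter_true_of_mem fun j _ => dvd_zero _, Nat.card_Icc]
  omega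

theorem tv_le {p : ℕ} (hp : p.Prime) (N : ℕ) {x : ℤ} (hx : x ≠ 0) :
    tv p N x ≤ multiplicity (p : ℤ) x := by
  have hfin : FiniteMultiplicity (p : ℤ) x := by
    rw [Int.finiteMultiplicity_iff]
    exact ⟨by simpa using hp.ne_one, hx⟩
  unfold tv
  have hsub : ((Finset.Icc 1 N).filter fun j => (p : ℤ) ^ j ∣ x) ⊆
      Finset.Icc 1 (multiplicity (p : ℤ) x) := by
    intro j hj
    rw [Finset.mem_filter, Finset.mem_Icc] at hj
    rw [Finset.mem_Icc]
    exact ⟨hj.1.1, hfin.pow_dvd_iff_le_multiplicity.mp hj.2⟩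
  refine (Finset.card_le_card hsub).trans ?_
  rw [Nat.card_Icc]
  omega

theorem K_self (Q R : ℕ) (x : ℤ) : K Q R x x = DK Q R := by
  unfold K DK
  simp only [sub_self, tv_zero]

theorem K_le (Q R : ℕ) {x y : ℤ} (h : x ≠ y) :
    K Q R x y ≤ ∑ p ∈ Q.primesLE, Real.log p * vd p x y := by
  unfold K
  refine Finset.sum_le_sum fun p hp => ?_
  have hpp : p.Prime := (Nat.mem_primesLE.mp hp).2
  have h0 : 0 ≤ Real.log p := Real.log_natCast_nonneg p
  refine mul_le_mul_of_nonneg_left ?_ h0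
  unfold vd
  exact_mod_cast tv_le hpp _ (sub_ne_zero.mpr h)

theorem DK_le (Q R : ℕ) (hR : 1 ≤ R) : DK Q R ≤ Q * Real.log R := by
  have hR0 : R ≠ 0 := by omega
  have hlR : 0 ≤ Real.log R := Real.log_natCast_nonneg R
  have h1 : DK Q R ≤ ∑ p ∈ Q.primesLE, Real.log R := by
    unfold DK
    refine Finset.sum_le_sum fun p hp => ?_
    have hpp : p.Prime := (Nat.mem_primesLE.mp hp).2
    have h2 : p ^ Nat.log p R ≤ R := Nat.pow_log_le_self p hR0
    have h3 : ((p : ℝ)) ^ Nat.log p R ≤ R := by exact_mod_cast h2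
    have hp0 : (0 : ℝ) < p := by exact_mod_cast hpp.pos
    have h4 := Real.log_le_log (by positivity) h3
    rw [Real.log_pow] at h4
    rw [mul_comm]
    exact h4
  have h5 : (Q.primesLE).card ≤ Q := by
    have hsub : Q.primesLE ⊆ Finset.Icc 1 Q := by
      intro p hp
      rw [Nat.mem_primesLE] at hp
      rw [Finset.mem_Icc]
      exact ⟨hp.2.one_lt.le, hp.1⟩
    refine (Finset.card_le_card hsub).trans ?_
    rw [Nat.card_Icc]
    omega
  rw [Finset.sum_const, nsmul_eq_mul] at h1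
  refine h1.trans (mul_le_mul_of_nonneg_right ?_ hlR)
  exact_mod_cast h5

end KSUM94

open Finset
open Pool.Agent.Work.MP_b29d7f_nt (IsPOrdering HasSimultaneousOrdering PosUpperBanachDensity
  PS vd ld tv vd_comm)

/-- KSUM: the kernel and the energy -/
theorem stmt_KSUM : Stmt_KSUM := by
  intro Q R hR
  refine ⟨fun X => ?_, KSUM94.DK_le Q R hR⟩
  have h1 : ∀ x ∈ X, ∑ y ∈ X, K Q R x y ≤
      DK Q R + ∑ y ∈ X.erase x, ∑ p ∈ Q.primesLE, Real.log p * vd p x y := by
    intro x hx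
    rw [← Finset.add_sum_erase X _ hx, KSUM94.K_self]
    refine add_le_add le_rfl (Finset.sum_le_sum fun y hy => ?_)
    exact KSUM94.K_le Q R (Finset.ne_of_mem_erase hy).symm
  have h2 : ∑ x ∈ X, ∑ y ∈ X.erase x, ∑ p ∈ Q.primesLE, Real.log p * vd p x y =
      2 * ∑ p ∈ Q.primesLE, Real.log p * PS (vd p) X := by
    have h3 : ∀ x ∈ X, ∑ y ∈ X.erase x, ∑ p ∈ Q.primesLE, Real.log p * vd p x y =
        ∑ p ∈ Q.primesLE, ∑ y ∈ X.erase x, Real.log p * vd p x y := by
      intro x _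
      rw [Finset.sum_comm]
    rw [Finset.sum_congr rfl h3, Finset.sum_comm, Finset.mul_sum]
    refine Finset.sum_congr rfl fun p _ => ?_
    rw [show 2 * (Real.log p * PS (vd p) X) = Real.log p * (2 * PS (vd p) X) by ring,
      two_PS (vd p) (vd_comm p) X, Finset.mul_sum]
    refine Finset.sum_congr rfl fun x _ => ?_
    rw [Finset.mul_sum]
  calc ∑ x ∈ X, ∑ y ∈ X, K Q R x y
      ≤ ∑ x ∈ X, (DK Q R + ∑ y ∈ X.erase x, ∑ p ∈ Q.primesLE, Real.log p * vd p x y) :=
        Finset.sum_le_sum h1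
    _ = X.card * DK Q R + 2 * ∑ p ∈ Q.primesLE, Real.log p * PS (vd p) X := by
        rw [Finset.sum_add_distrib, Finset.sum_const, nsmul_eq_mul, h2]

end Pool.Agent.Work.MP_b29d7f_half
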