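import Pool.Agent.Work.MP_b29d7f_half.Tools

/-!
# Block ORD: consequences of the ordering property
-/

namespace Pool.Agent.Work.MP_b29d7f_half

open Finset
open Pool.Agent.Work.MP_b29d7f_nt (IsPOrdering HasSimultaneousOrdering PosUpperBanachDensity
  PS vd ld tv vd_comm ld_comm vd_nonneg PS_seq PS_insert PS_product log_eq_sum
  injective_of_ordering)

/-- enough primes for the differences of a finite set -/
theorem enough_primes (P : Finset ℕ) (hP : ∀ p ∈ P, p.Prime) (X : Finset ℤ) :
    ∃ s : Finset ℕ, P ⊆ s ∧ (∀ p ∈ s, p.Prime) ∧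
      ∀ x ∈ X, ∀ y ∈ X, x ≠ y → ∀ p : ℕ, p.Prime → multiplicity (p : ℤ) (x - y) ≠ 0 → p ∈ s := by
  classical
  refine ⟨P ∪ X.biUnion fun x => X.biUnion fun y => (x - y).natAbs.primeFactors,
    Finset.subset_union_left, ?_, ?_⟩
  · intro p hp
    rw [Finset.mem_union] at hp
    rcases hp with hp | hp
    · exact hP p hp
    · simp only [Finset.mem_biUnion] at hp
      obtain ⟨x, _, y, _, h⟩ := hp
      exact Nat.prime_of_mem_primeFactors h
  · intro x hx y hy hxy p hp hm
    rw [Finset.mem_union]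
    right
    simp only [Finset.mem_biUnion]
    refine ⟨x, hx, y, hy, ?_⟩
    rw [Nat.mem_primeFactors]
    refine ⟨hp, ?_, Int.natAbs_ne_zero.mpr (sub_ne_zero.mpr hxy)⟩
    have h1 : (p : ℤ) ∣ x - y := by
      by_contra hcon
      exact hm (multiplicity_eq_zero.mpr hcon)
    exact Int.natCast_dvd.mp h1

theorem ld_eq_sum {X : Finset ℤ} {s : Finset ℕ} (hs : ∀ p ∈ s, p.Prime)
    (hX : ∀ x ∈ X, ∀ y ∈ X, x ≠ y → ∀ p : ℕ, p.Prime → multiplicity (p : ℤ) (x - y) ≠ 0 → p ∈ s)
    {x y : ℤ} (hx : x ∈ X) (hy : y ∈ X) (hxy : x ≠ y) :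
    ld x y = ∑ p ∈ s, Real.log p * vd p x y := by
  unfold ld vd
  rw [log_eq_sum (x - y) (sub_ne_zero.mpr hxy) s hs (hX x hx y hy hxy)]
  exact Finset.sum_congr rfl fun _ _ => mul_comm _ _

/-- the ordering property as an inequality of sums -/
theorem wv_le_of_notMem {S : Set ℤ} {a : ℕ → ℤ} (ho : Ord S a) {p : ℕ} (hp : p.Prime) (n : ℕ)
    {s : ℤ} (hs : s ∈ S) (hsn : s ∉ A a n) : wv p a n ≤ ∑ i ∈ range n, vd p s (a i) := by
  have ha := ho.ord p hp
  have hinj : Function.Injective a := injective_of_ordering ho.inf hp ha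
  have hpz : Prime (p : ℤ) := Nat.prime_iff_prime_int.mp hp
  have hfin : ∀ x : ℤ, x ≠ 0 → FiniteMultiplicity (p : ℤ) x := by
    intro x hx
    rw [Int.finiteMultiplicity_iff]
    exact ⟨by simpa using hp.ne_one, hx⟩
  have h1 : ∀ i ∈ range n, a n - a i ≠ 0 := by
    intro i hi h
    rw [Finset.mem_range] at hi
    have := hinj (sub_eq_zero.mp h)
    omega
  have h2 : ∀ i ∈ range n, s - a i ≠ 0 := by
    intro i hi h
    rw [Finset.mem_range] at hi
    exact hsn (mem_A.mpr ⟨i, hi, (sub_eq_zero.mp h).symm⟩)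
  have h := ha.2 n s hs
  rw [Finset.emultiplicity_prod hpz, Finset.emultiplicity_prod hpz] at h
  rw [Finset.sum_congr rfl fun i hi => (hfin _ (h1 i hi)).emultiplicity_eq_multiplicity,
    Finset.sum_congr rfl fun i hi => (hfin _ (h2 i hi)).emultiplicity_eq_multiplicity] at h
  unfold wv vd
  exact_mod_cast h

theorem stmt_ORD (hV : Stmt_VDM) : Stmt_ORD := by
  classical
  intro S a ho
  have h2p := ho.ord 2 Nat.prime_two
  have hinj : Function.Injective a := injective_of_ordering ho.inf Nat.prime_two h2p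
  have hmem : ∀ k, a k ∈ S := h2p.1
  have hAS : ∀ n, ∀ y ∈ A a n, y ∈ S := by
    intro n y hy
    obtain ⟨i, _, rfl⟩ := mem_A.mp hy
    exact hmem i
  have hnA : ∀ n, a n ∉ A a n := by
    intro n h
    obtain ⟨i, hi, h⟩ := mem_A.mp h
    have := hinj h
    omega
  have hsucc : ∀ n, A a (n + 1) = insert (a n) (A a n) := by
    intro n
    unfold A
    rw [Finset.range_add_one, Finset.image_insert]
  -- monotonicity
  have hmono1 : ∀ p : ℕ, p.Prime → ∀ n, wv p a n ≤ wv p a (n + 1) := by
    intro p hp n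
    have hn : a (n + 1) ∉ A a n := fun h => hnA (n + 1) (A_mono (Nat.le_succ n) h)
    refine (wv_le_of_notMem ho hp n (hmem (n + 1)) hn).trans ?_
    unfold wv
    rw [Finset.sum_range_succ]
    linarith [vd_nonneg p (a (n + 1)) (a n)]
  -- part 5
  have h5 : ∀ p : ℕ, p.Prime → ∀ (n : ℕ), ∀ z ∈ A a n,
      ∑ y ∈ (A a n).erase z, vd p z y ≤ wv p a n := by
    intro p hp n z hz
    rcases Nat.eq_zero_or_pos n with h0 | hpos
    · subst h0
      exact absurd (mem_A.mp hz) (by simp)
    obtain ⟨m, rfl⟩ : ∃ m, n = m + 1 := ⟨n - 1, by omega⟩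
    have hcard : ((A a (m + 1)).erase z).card = m := by
      rw [Finset.card_erase_of_mem hz, card_A hinj]
      rfl
    have hsub : (((A a (m + 1)).erase z : Finset ℤ) : Set ℤ) ⊆ S := by
      intro y hy
      rw [Finset.mem_coe] at hy
      exact hAS _ y (Finset.mem_of_mem_erase hy)
    have e1 := hV S a ho p hp _ hsub
    rw [hcard] at e1
    have e2 : PS (vd p) (A a (m + 1)) =
        PS (vd p) ((A a (m + 1)).erase z) + ∑ y ∈ (A a (m + 1)).erase z, vd p z y := by
      rw [← PS_insert (vd p) (vd_comm p) _ z (Finset.notMem_erase z _), Finset.insert_erase hz]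
    have e3 : PS (vd p) (A a (m + 1)) = PS (vd p) (A a m) + wv p a m := by
      rw [hsucc, PS_insert (vd p) (vd_comm p) _ _ (hnA m), sum_A _ hinj]
      rfl
    have e4 := hmono1 p hp m
    linarith
  refine ⟨hinj, hmem, ?_, ?_, h5, ?_⟩
  · intro n s hs hsn
    obtain ⟨P, _, hP, hX⟩ := enough_primes ∅ (by simp) (insert s (A a (n + 1)))
    have hi1 : ∀ i ∈ range n, a i ∈ insert s (A a (n + 1)) := by
      intro i hi
      rw [Finset.mem_range] at hi
      exact Finset.mem_insert_of_mem (mem_A.mpr ⟨i, by omega, rfl⟩)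
    have hn1 : a n ∈ insert s (A a (n + 1)) :=
      Finset.mem_insert_of_mem (mem_A.mpr ⟨n, by omega, rfl⟩)
    have e1 : lD a n = ∑ p ∈ P, Real.log p * wv p a n := by
      unfold lD wv
      simp_rw [Finset.mul_sum]
      rw [Finset.sum_comm]
      refine Finset.sum_congr rfl fun i hi => ?_
      refine ld_eq_sum hP hX hn1 (hi1 i hi) ?_
      intro h
      have := hinj h
      rw [Finset.mem_range] at hi
      omega
    have e2 : ∑ y ∈ A a n, ld s y = ∑ p ∈ P, Real.log p * ∑ i ∈ range n, vd p s (a i) := by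
      rw [sum_A _ hinj]
      simp_rw [Finset.mul_sum]
      rw [Finset.sum_comm]
      refine Finset.sum_congr rfl fun i hi => ?_
      refine ld_eq_sum hP hX (Finset.mem_insert_self _ _) (hi1 i hi) ?_
      rintro rfl
      rw [Finset.mem_range] at hi
      exact hsn (mem_A.mpr ⟨i, hi, rfl⟩)
    rw [e1, e2]
    refine Finset.sum_le_sum fun p hp => ?_
    exact mul_le_mul_of_nonneg_left (wv_le_of_notMem ho (hP p hp) n hs hsn)
      (Real.log_natCast_nonneg p)
  · intro X hX
    obtain ⟨P, _, hP, hcov⟩ := enough_primes ∅ (by simp) (X ∪ A a X.card)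
    rw [PS_product X P hP fun x hx y hy => hcov x (Finset.mem_union_left _ hx) y
        (Finset.mem_union_left _ hy),
      PS_product (A a X.card) P hP fun x hx y hy => hcov x (Finset.mem_union_right _ hx) y
        (Finset.mem_union_right _ hy)]
    refine Finset.sum_le_sum fun p hp => ?_
    exact mul_le_mul_of_nonneg_right (hV S a ho p (hP p hp) X hX) (Real.log_natCast_nonneg p)
  · intro P hP n z hz
    obtain ⟨P', hPP, hP', hX⟩ := enough_primes P hP (A a (n + 1))
    have hi1 : ∀ i ∈ range n, a i ∈ A a (n + 1) := by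
      intro i hi
      rw [Finset.mem_range] at hi
      exact mem_A.mpr ⟨i, by omega, rfl⟩
    have hn1 : a n ∈ A a (n + 1) := mem_A.mpr ⟨n, by omega, rfl⟩
    have e1 : lD a n = ∑ p ∈ P', Real.log p * wv p a n := by
      unfold lD wv
      simp_rw [Finset.mul_sum]
      rw [Finset.sum_comm]
      refine Finset.sum_congr rfl fun i hi => ?_
      refine ld_eq_sum hP' hX hn1 (hi1 i hi) ?_
      intro h
      have := hinj h
      rw [Finset.mem_range] at hi
      omega
    have e2 : ∑ y ∈ (A a n).erase z, ld z y =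
        ∑ p ∈ P', Real.log p * ∑ y ∈ (A a n).erase z, vd p z y := by
      simp_rw [Finset.mul_sum]
      rw [Finset.sum_comm]
      refine Finset.sum_congr rfl fun y hy => ?_
      rw [Finset.mem_erase] at hy
      exact ld_eq_sum hP' hX (A_mono (Nat.le_succ n) hz) (A_mono (Nat.le_succ n) hy.2)
        (Ne.symm hy.1)
    rw [e1, e2, ← Finset.sum_sub_distrib]
    simp_rw [← mul_sub]
    refine Finset.sum_le_sum_of_subset_of_nonneg hPP fun p hp _ => ?_
    exact mul_nonneg (Real.log_natCast_nonneg p) (sub_nonneg.mpr (h5 p (hP' p hp) n z hz))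

end Pool.Agent.Work.MP_b29d7f_half
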