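import Pool.Agent.Work.MP_b29d7f_half.Tools

/-!
# Block VDM: the `p`-adic energy of an initial segment of the ordering is minimal
-/

namespace Pool.Agent.Work.MP_b29d7f_half

open Finset
open Pool.Agent.Work.MP_b29d7f_nt (IsPOrdering HasSimultaneousOrdering PosUpperBanachDensity
  PS vd ld tv vd_comm PS_seq V V_ne_zero wp pow_wp_dvd injective_of_ordering)

/-- the valuation of the determinant of Vandermonde -/
theorem mult_vdm {p : ℕ} (hp : p.Prime) (X : Finset ℤ) :
    ∃ v : Fin X.card → ℤ, (∀ i, v i ∈ X) ∧ (Matrix.vandermonde v).det ≠ 0 ∧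
      (multiplicity (p : ℤ) (Matrix.vandermonde v).det : ℝ) = PS (vd p) X := by
  classical
  set v := X.orderEmbOfFin (rfl : X.card = X.card) with hv
  have hX : X = (Finset.univ : Finset (Fin X.card)).image v := by
    rw [hv, Finset.image_orderEmbOfFin_univ]
  have hne : ∀ i j : Fin X.card, i ≠ j → v j - v i ≠ 0 := by
    intro i j hij h
    exact hij (v.injective (sub_eq_zero.mp h)).symm
  have hprod0 : ∏ i : Fin X.card, ∏ j ∈ Finset.Ioi i, (v j - v i) ≠ 0 := by
    rw [Finset.prod_ne_zero_iff]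
    intro i _
    rw [Finset.prod_ne_zero_iff]
    intro j hj
    rw [Finset.mem_Ioi] at hj
    exact hne i j hj.ne
  have hPS : PS (vd p) X = ∑ i : Fin X.card, ∑ j ∈ Finset.Ioi i, vd p (v j) (v i) := by
    have h0 : PS (vd p) X = PS (vd p) ((Finset.univ : Finset (Fin X.card)).image v) := by
      rw [← hX]
    rw [h0]
    unfold PS
    rw [Finset.sum_image (fun i _ j _ h => v.injective h)]
    have h1 : ∀ j : Fin X.card, ∑ y ∈ ((Finset.univ : Finset (Fin X.card)).image v).filter
        (fun y => y < v j), vd p (v j) y = ∑ i ∈ Finset.Iio j, vd p (v j) (v i) := by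
      intro j
      rw [Finset.filter_image, Finset.sum_image (fun i _ j _ h => v.injective h)]
      refine Finset.sum_congr ?_ fun _ _ => rfl
      ext i
      simp
    rw [Finset.sum_congr rfl fun j _ => h1 j]
    rw [Finset.sum_sigma', Finset.sum_sigma']
    refine Finset.sum_bij' (fun z _ => ⟨z.2, z.1⟩) (fun z _ => ⟨z.2, z.1⟩) ?_ ?_ ?_ ?_ ?_
    · intro z hz
      simp only [Finset.mem_sigma, Finset.mem_univ, true_and, Finset.mem_Iio] at hz
      simpa using hz
    · intro z hz
      simp only [Finset.mem_sigma, Finset.mem_univ, true_and, Finset.mem_Ioi] at hz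
      simpa using hz
    · intro z _; rfl
    · intro z _; rfl
    · intro z _; rfl
  have hpz : Prime (p : ℤ) := Nat.prime_iff_prime_int.mp hp
  have hfin : ∀ x : ℤ, x ≠ 0 → FiniteMultiplicity (p : ℤ) x := by
    intro x hx
    rw [Int.finiteMultiplicity_iff]
    exact ⟨by simpa using hp.ne_one, hx⟩
  refine ⟨fun i => v i, fun i => Finset.orderEmbOfFin_mem X _ i, ?_, ?_⟩
  · rw [Matrix.det_vandermonde]
    exact hprod0
  · rw [Matrix.det_vandermonde, hPS]
    have h3 : ((multiplicity (p : ℤ) (∏ i : Fin X.card, ∏ j ∈ Finset.Ioi i, (v j - v i)) : ℕ) : ℕ∞)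
        = ((∑ i : Fin X.card, ∑ j ∈ Finset.Ioi i, multiplicity (p : ℤ) (v j - v i) : ℕ) : ℕ∞) := by
      rw [← (hfin _ hprod0).emultiplicity_eq_multiplicity, Finset.emultiplicity_prod hpz]
      push_cast
      refine Finset.sum_congr rfl fun i _ => ?_
      rw [Finset.emultiplicity_prod hpz]
      refine Finset.sum_congr rfl fun j hj => ?_
      rw [Finset.mem_Ioi] at hj
      exact (hfin _ (hne i j hj.ne)).emultiplicity_eq_multiplicity
    have h4 : multiplicity (p : ℤ) (∏ i : Fin X.card, ∏ j ∈ Finset.Ioi i, (v j - v i)) =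
        ∑ i : Fin X.card, ∑ j ∈ Finset.Ioi i, multiplicity (p : ℤ) (v j - v i) := by
      exact_mod_cast h3
    rw [h4]
    push_cast
    rfl

/-- the exponent of the ordering as a sum -/
theorem wp_eq_sum {S : Set ℤ} (hS : S.Infinite) {p : ℕ} (hp : p.Prime) {a : ℕ → ℤ}
    (ha : IsPOrdering S p a) (k : ℕ) :
    (wp p a k : ℝ) = ∑ i ∈ range k, vd p (a k) (a i) := by
  have hpz : Prime (p : ℤ) := Nat.prime_iff_prime_int.mp hp
  have hfin : ∀ x : ℤ, x ≠ 0 → FiniteMultiplicity (p : ℤ) x := by
    intro x hx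
    rw [Int.finiteMultiplicity_iff]
    exact ⟨by simpa using hp.ne_one, hx⟩
  have hne := V_ne_zero hS hp ha k
  unfold V at hne
  have hne' : ∀ i ∈ range k, a k - a i ≠ 0 := Finset.prod_ne_zero_iff.mp hne
  have h3 : ((multiplicity (p : ℤ) (∏ i ∈ range k, (a k - a i)) : ℕ) : ℕ∞)
      = ((∑ i ∈ range k, multiplicity (p : ℤ) (a k - a i) : ℕ) : ℕ∞) := by
    rw [← (hfin _ hne).emultiplicity_eq_multiplicity, Finset.emultiplicity_prod hpz]
    push_cast
    refine Finset.sum_congr rfl fun i hi => ?_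
    exact (hfin _ (hne' i hi)).emultiplicity_eq_multiplicity
  have h4 : multiplicity (p : ℤ) (∏ i ∈ range k, (a k - a i)) =
      ∑ i ∈ range k, multiplicity (p : ℤ) (a k - a i) := by
    exact_mod_cast h3
  unfold wp V
  rw [h4]
  push_cast
  rfl

/-- **VDM** -/
theorem stmt_VDM : Stmt_VDM := by
  classical
  intro S a ho p hp X hX
  have ha := ho.ord p hp
  have hinj : Function.Injective a := injective_of_ordering ho.inf hp ha
  obtain ⟨v, hvX, hdet0, hdet⟩ := mult_vdm hp X
  have hleft : PS (vd p) (A a X.card) = ((∑ k : Fin X.card, wp p a k : ℕ) : ℝ) := by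
    unfold A
    rw [PS_seq (vd p) (vd_comm p) a hinj X.card, Finset.sum_range]
    push_cast
    refine Finset.sum_congr rfl fun k _ => ?_
    rw [wp_eq_sum ho.inf hp ha]
  rw [hleft, ← hdet]
  have hfin : FiniteMultiplicity (p : ℤ) (Matrix.vandermonde v).det := by
    rw [Int.finiteMultiplicity_iff]
    exact ⟨by simpa using hp.ne_one, hdet0⟩
  suffices h : (p : ℤ) ^ (∑ k : Fin X.card, wp p a k) ∣ (Matrix.vandermonde v).det by
    exact_mod_cast hfin.le_multiplicity_of_pow_dvd h
  -- the polynomials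
  set f : ℕ → Polynomial ℤ := fun k => ∏ i ∈ range k, (Polynomial.X - Polynomial.C (a i)) with hf
  have hmon : ∀ k, (f k).Monic := fun k =>
    Polynomial.monic_prod_of_monic _ _ fun i _ => Polynomial.monic_X_sub_C _
  have hdeg : ∀ k, (f k).natDegree = k := by
    intro k
    rw [hf]
    simp only
    rw [Polynomial.natDegree_prod_of_monic _ _ fun i _ => Polynomial.monic_X_sub_C _,
      Finset.sum_congr rfl fun i _ => Polynomial.natDegree_X_sub_C (a i)]
    simp
  have heval : ∀ k x, (f k).eval x = V a k x := by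
    intro k x
    rw [hf]
    simp only
    rw [Polynomial.eval_prod]
    unfold V
    refine Finset.prod_congr rfl fun i _ => ?_
    simp
  rw [Matrix.det_eval_matrixOfPolynomials_eq_det_vandermonde v (fun i => f i)
    (fun i => hdeg i) (fun i => hmon i)]
  have hdvd : ∀ i j : Fin X.card, (p : ℤ) ^ wp p a j ∣ (f j).eval (v i) := by
    intro i j
    rw [heval]
    exact pow_wp_dvd ho.inf hp ha j (v i) (hX (hvX i))
  choose N hN using hdvd
  have hM : (Matrix.of fun i j : Fin X.card => (f j).eval (v i)) =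
      Matrix.of fun i j : Fin X.card => (p : ℤ) ^ wp p a j * (Matrix.of N) i j := by
    ext i j
    simp only [Matrix.of_apply]
    exact hN i j
  rw [hM, Matrix.det_mul_row, Finset.prod_pow_eq_pow_sum]
  exact dvd_mul_right _ _

end Pool.Agent.Work.MP_b29d7f_half
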