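import Pool.Agent.Work.MP_b29d7f_half.Tools

/-!
# Block ABOUND: the early elements
-/

namespace Pool.Agent.Work.MP_b29d7f_half

open Finset
open Pool.Agent.Work.MP_b29d7f_nt (IsPOrdering HasSimultaneousOrdering PosUpperBanachDensity
  PS vd ld tv vd_nonneg injective_of_ordering)

/-- pair sums of a nonnegative function are monotone -/
theorem PS_mono {f : ℤ → ℤ → ℝ} (hf : ∀ x y, 0 ≤ f x y) {Z X : Finset ℤ} (h : Z ⊆ X) :
    PS f Z ≤ PS f X := by
  unfold PS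
  refine (Finset.sum_le_sum fun x _ => ?_).trans
    (Finset.sum_le_sum_of_subset_of_nonneg h fun x _ _ => Finset.sum_nonneg fun y _ => hf x y)
  exact Finset.sum_le_sum_of_subset_of_nonneg (Finset.filter_subset_filter _ h)
    fun y _ _ => hf x y

/-- the numerical comparison at the end of step 8 -/
theorem abound_num {P c l a₀ a₁ D : ℝ} (hl : 6 ≤ l) (hP : 0 < P) (hc : P * (1 - 3 / l) ≤ c)
    (ha₀ : 0 ≤ a₀) (ha₁ : a₀ ≤ a₁ + 2 * l) (ha₁0 : 0 ≤ a₁) (hD : 0 ≤ D) :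
    c * (D * P) + P ^ 2 * a₀ ≤ c ^ 2 * (a₀ + (36 + 3 * a₁ + 2 * D)) := by
  have hl0 : 0 < l := by linarith
  set u : ℝ := 3 / l with hu
  have hu0 : 0 < u := by positivity
  have hu1 : u ≤ 1 / 2 := by
    rw [hu, div_le_div_iff₀ hl0 two_pos]; linarith
  have hPc : P ≤ 2 * c := by
    have h9 := mul_le_mul_of_nonneg_left hu1 hP.le
    linarith
  have hc0 : 0 < c := by linarith
  -- `P ^ 2 ≤ c ^ 2 (1 + 6 u)`
  have h1 : P ^ 2 * (1 - u) ^ 2 ≤ c ^ 2 := by
    have h2 : 0 ≤ P * (1 - u) := mul_nonneg hP.le (by linarith)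
    calc P ^ 2 * (1 - u) ^ 2 = (P * (1 - u)) ^ 2 := by ring
      _ ≤ c ^ 2 := pow_le_pow_left₀ h2 hc 2
  have h3 : 1 ≤ (1 - u) ^ 2 * (1 + 6 * u) := by
    have h9 := mul_nonneg (mul_nonneg hu0.le (by linarith : (0 : ℝ) ≤ 1 - 2 * u))
      (by linarith : (0 : ℝ) ≤ 4 - 3 * u)
    linarith
  have h4 : P ^ 2 ≤ c ^ 2 * (1 + 6 * u) := by
    calc P ^ 2 = P ^ 2 * 1 := by ring
      _ ≤ P ^ 2 * ((1 - u) ^ 2 * (1 + 6 * u)) := mul_le_mul_of_nonneg_left h3 (by positivity)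
      _ = P ^ 2 * (1 - u) ^ 2 * (1 + 6 * u) := by ring
      _ ≤ c ^ 2 * (1 + 6 * u) := mul_le_mul_of_nonneg_right h1 (by linarith)
  have h5 : 6 * u * a₀ ≤ 36 + 3 * a₁ := by
    have h6 : u * l = 3 := by rw [hu]; field_simp
    calc 6 * u * a₀ ≤ 6 * u * (a₁ + 2 * l) := mul_le_mul_of_nonneg_left ha₁ (by positivity)
      _ = 6 * u * a₁ + 12 * (u * l) := by ring
      _ ≤ 3 * a₁ + 12 * 3 := by
        rw [h6]
        have := mul_le_mul_of_nonneg_right (show 6 * u ≤ 3 by linarith) ha₁0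
        linarith
      _ = _ := by ring
  have h7 : c * (D * P) ≤ c ^ 2 * (2 * D) := by
    calc c * (D * P) ≤ c * (D * (2 * c)) := by gcongr
      _ = _ := by ring
  have h8 : P ^ 2 * a₀ ≤ c ^ 2 * (a₀ + (36 + 3 * a₁)) := by
    calc P ^ 2 * a₀ ≤ c ^ 2 * (1 + 6 * u) * a₀ := mul_le_mul_of_nonneg_right h4 ha₀
      _ = c ^ 2 * (a₀ + 6 * u * a₀) := by ring
      _ ≤ _ := by gcongr
  linarith [h7, h8]

/-- powers beat logarithms -/
theorem log_sq_le_rpow {η x : ℝ} (hη : 0 < η) (hx : 1 ≤ x) :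
    Real.log x ^ 2 ≤ 4 / η ^ 2 * x ^ η := by
  have h1 : Real.log x ≤ x ^ (η / 2) / (η / 2) :=
    Real.log_le_rpow_div (by linarith) (by positivity)
  have h0 : 0 ≤ Real.log x := Real.log_nonneg hx
  calc Real.log x ^ 2 ≤ (x ^ (η / 2) / (η / 2)) ^ 2 := pow_le_pow_left₀ h0 h1 2
    _ = 4 / η ^ 2 * x ^ η := by
      have : x ^ η = (x ^ (η / 2)) ^ 2 := by
        rw [← Real.rpow_natCast, ← Real.rpow_mul (by linarith)]
        congr 1
        push_cast
        ring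
      rw [this]
      field_simp
      ring

theorem stmt_ABOUND (hTOP : Stmt_TOP) (hEU : Stmt_EARLYU) (hZ : Stmt_ZSEL) (hK : Stmt_KSUM)
    (hGB : Stmt_GBAS) : Stmt_ABOUND := by
  intro S a θ C₀ δ hO hθ hθ1 hC₀ hGr hδ
  obtain ⟨C₁, hC₁⟩ := hEU
  obtain ⟨-, -, -, hGle⟩ := hGB S hO.inf
  have hinj : Function.Injective a := injective_of_ordering hO.inf Nat.prime_two (hO.ord 2 Nat.prime_two)
  set η : ℝ := δ / (1 + δ) with hη
  have h1δ : 0 < 1 + δ := by linarith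
  have hη0 : 0 < η := by positivity
  set D : ℝ := 2 + 4 / η ^ 2 with hD
  have hD0 : 0 ≤ D := by positivity
  set C₂ : ℝ := max C₁ 0 with hC₂
  have hC₂0 : 0 ≤ C₂ := le_max_right _ _
  set a₁ : ℝ := Real.log C₀ + C₂ with ha₁
  have hlC₀ : 0 ≤ Real.log C₀ := Real.log_nonneg hC₀
  have ha₁0 : 0 ≤ a₁ := by positivity
  obtain ⟨P₁, hP₁⟩ := exists_nat_ge (max C₀ (Real.exp 6))
  refine ⟨C₂ + (36 + 3 * a₁ + 2 * D), P₁, fun P Q hP hQ hQP => ?_⟩
  have hPr : max C₀ (Real.exp 6) ≤ (P : ℝ) := hP₁.trans (by exact_mod_cast hP)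
  have hPC₀ : C₀ ≤ (P : ℝ) := (le_max_left _ _).trans hPr
  have hP6 : Real.exp 6 ≤ (P : ℝ) := (le_max_right _ _).trans hPr
  have hP0 : (0 : ℝ) < P := (Real.exp_pos _).trans_le hP6
  have hl6 : 6 ≤ Real.log P := by
    rw [Real.le_log_iff_exp_le hP0]; exact hP6
  have hPpos : 0 < P := by exact_mod_cast hP0
  have hP1r : (1 : ℝ) ≤ P := by exact_mod_cast hPpos
  have hP2 : 1 < P := by
    by_contra hcon
    have : P = 1 := by omega
    rw [this] at hl6
    simp at hl6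
    linarith
  -- the energy
  have hcard : (A a P).card = P := card_A hinj P
  have hGP1 : (P : ℝ) ≤ G S P := by exact_mod_cast hGle P
  have hGpos : (0 : ℝ) < G S P := hP0.trans_le hGP1
  have hlG0 : Real.log P ≤ Real.log (G S P) := Real.log_le_log hP0 hGP1
  have hlG : Real.log (G S P) ≤ Real.log C₀ + (1 + θ) * Real.log P := by
    have h1 := Real.log_le_log hGpos (hGr P hPpos)
    rwa [Real.log_mul (by linarith) (by positivity), Real.log_rpow hP0] at h1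
  have hTP := hTOP S a hO P hPpos
  have hE : 2 * PS ld (A a P) ≤ (P : ℝ) ^ 2 * Real.log (G S P) := by
    refine hTP.trans ?_
    have h1 : 0 ≤ Real.log (G S P) := by linarith
    linarith [mul_nonneg hP0.le h1]
  have hE3 : 2 * PS ld (A a P) ≤ 3 * ((A a P).card : ℝ) ^ 2 * Real.log (A a P).card := by
    rw [hcard]
    refine hE.trans ?_
    have h1 : Real.log C₀ ≤ Real.log P := Real.log_le_log (by linarith) hPC₀
    have h2 : Real.log (G S P) ≤ 3 * Real.log P := by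
      have h9 := mul_le_mul_of_nonneg_right hθ1.le (by linarith : (0 : ℝ) ≤ Real.log P)
      linarith
    calc (P : ℝ) ^ 2 * Real.log (G S P) ≤ (P : ℝ) ^ 2 * (3 * Real.log P) := by gcongr
      _ = _ := by ring
  obtain ⟨z₀, hz₀, Z, hZX, hZρ, hZc⟩ := hZ (A a P) (by rw [hcard]; exact hP2) hE3
  rw [hcard] at hZρ hZc
  set ρ : ℕ := ⌊Real.exp (Real.log P ^ 2)⌋₊ with hρ
  have hρle : (ρ : ℝ) ≤ Real.exp (Real.log P ^ 2) := Nat.floor_le (Real.exp_pos _).le
  have hPρ : P ^ 2 ≤ ρ := by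
    rw [hρ, Nat.le_floor_iff (Real.exp_pos _).le]
    push_cast
    have h1 : (P : ℝ) ^ 2 = Real.exp (2 * Real.log P) := by
      rw [show (2 : ℝ) * Real.log P = Real.log P + Real.log P by ring, Real.exp_add,
        Real.exp_log hP0]
      ring
    rw [h1, Real.exp_le_exp]
    have h9 := mul_le_mul_of_nonneg_right hl6 (by linarith : (0 : ℝ) ≤ Real.log P)
    linarith
  have hPc : (P : ℝ) ≤ 2 * Z.card := by
    have h1 : 3 / Real.log P ≤ 1 / 2 := by
      rw [div_le_div_iff₀ (by linarith) two_pos]; linarith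
    have h9 := mul_le_mul_of_nonneg_left h1 hP0.le
    linarith
  -- the diagonal
  have hQ0 : (1 : ℝ) ≤ Q := by exact_mod_cast hQ
  have hQPle : (Q : ℝ) ≤ (P : ℝ) ^ (1 - η) := by
    have h1 : (Q : ℝ) = ((Q : ℝ) ^ (1 + δ)) ^ (1 - η) := by
      rw [← Real.rpow_mul (by linarith)]
      have : (1 + δ) * (1 - η) = 1 := by rw [hη]; field_simp; ring
      rw [this, Real.rpow_one]
    have hη1 : 0 ≤ 1 - η := by
      have : 1 - η = 1 / (1 + δ) := by rw [hη]; field_simp; ring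
      rw [this]; positivity
    rw [h1]
    exact Real.rpow_le_rpow (by positivity) hQP hη1
  have hQP' : Q ≤ P := by
    have h1 : (Q : ℝ) ≤ (Q : ℝ) ^ (1 + δ) := by
      calc (Q : ℝ) = (Q : ℝ) ^ (1 : ℝ) := (Real.rpow_one _).symm
        _ ≤ _ := Real.rpow_le_rpow_of_exponent_le hQ0 (by linarith)
    exact_mod_cast h1.trans hQP
  have hR1 : 1 ≤ 2 * ρ + 1 := by omega
  have hDK : DK Q (2 * ρ + 1) ≤ D * P := by
    refine (hK Q (2 * ρ + 1) hR1).2.trans ?_
    have hρ1 : 1 ≤ ρ := le_trans (Nat.one_le_pow _ _ hPpos) hPρ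
    have h2 : Real.log ((2 * ρ + 1 : ℕ) : ℝ) ≤ 2 + Real.log P ^ 2 := by
      have h3 : ((2 * ρ + 1 : ℕ) : ℝ) ≤ Real.exp (2 + Real.log P ^ 2) := by
        push_cast
        rw [Real.exp_add]
        have h4 : (3 : ℝ) ≤ Real.exp 2 := by
          have := Real.add_one_le_exp (2 : ℝ)
          linarith
        have h5 : (1 : ℝ) ≤ ρ := by exact_mod_cast hρ1
        have h6 := Real.exp_pos (Real.log P ^ 2)
        have h9 := mul_le_mul_of_nonneg_right h4 h6.le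
        linarith
      have h4 : (0 : ℝ) < ((2 * ρ + 1 : ℕ) : ℝ) := by positivity
      calc Real.log ((2 * ρ + 1 : ℕ) : ℝ) ≤ Real.log (Real.exp (2 + Real.log P ^ 2)) :=
            Real.log_le_log h4 h3
        _ = _ := Real.log_exp _
    have h3 := log_sq_le_rpow hη0 hP1r
    have h4 : (1 : ℝ) ≤ (P : ℝ) ^ η := Real.one_le_rpow hP1r hη0.le
    have h5 : (P : ℝ) ^ (1 - η) * (P : ℝ) ^ η = P := by
      rw [← Real.rpow_add hP0]; simp
    calc (Q : ℝ) * Real.log ((2 * ρ + 1 : ℕ) : ℝ)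
        ≤ (P : ℝ) ^ (1 - η) * (2 + Real.log P ^ 2) := by
          refine mul_le_mul hQPle h2 (Real.log_nonneg (by exact_mod_cast hR1)) (by positivity)
      _ ≤ (P : ℝ) ^ (1 - η) * (D * (P : ℝ) ^ η) := by
          refine mul_le_mul_of_nonneg_left ?_ (by positivity)
          rw [hD, add_mul]
          linarith
      _ = D * ((P : ℝ) ^ (1 - η) * (P : ℝ) ^ η) := by ring
      _ = D * P := by rw [h5]
  refine ⟨z₀, Z, ρ, hz₀, hZX, hZρ, hPρ, hPc, ?_, ?_⟩
  · refine hDK.trans (mul_le_mul_of_nonneg_right ?_ hP0.le)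
    linarith
  · -- the kernel
    have h1 := (hK Q (2 * ρ + 1) hR1).1 Z
    have h2 : 2 * ∑ p ∈ Q.primesLE, Real.log p * PS (vd p) Z ≤
        2 * ∑ p ∈ Q.primesLE, Real.log p * PS (vd p) (A a P) := by
      refine mul_le_mul_of_nonneg_left (Finset.sum_le_sum fun p hp => ?_) two_pos.le
      exact mul_le_mul_of_nonneg_left (PS_mono (vd_nonneg p) hZX) (Real.log_natCast_nonneg p)
    have h3 := hC₁ (A a P) Q hQ (by rw [hcard]; exact hQP')
    rw [hcard] at h3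
    have hlQ : 0 ≤ Real.log Q := Real.log_nonneg hQ0
    have hlQP : Real.log Q ≤ Real.log P := Real.log_le_log (by linarith) (by exact_mod_cast hQP')
    set a₀ : ℝ := Real.log (G S P) - Real.log P + Real.log Q + C₂ with ha₀
    have ha₀0 : 0 ≤ a₀ := by rw [ha₀]; linarith
    have ha₀1 : a₀ ≤ a₁ + 2 * Real.log P := by
      rw [ha₀, ha₁]
      have h9 := mul_le_mul_of_nonneg_right hθ1.le (by linarith : (0 : ℝ) ≤ Real.log P)
      linarith
    have h4 : 2 * PS ld (A a P) - (P : ℝ) ^ 2 * (Real.log P - Real.log Q - C₁) ≤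
        (P : ℝ) ^ 2 * a₀ := by
      have h5 : (P : ℝ) ^ 2 * C₁ ≤ (P : ℝ) ^ 2 * C₂ :=
        mul_le_mul_of_nonneg_left (le_max_left _ _) (by positivity)
      rw [ha₀]
      linarith
    have h5 := abound_num hl6 hP0 hZc ha₀0 ha₀1 ha₁0 hD0
    have h6 : (Z.card : ℝ) * DK Q (2 * ρ + 1) ≤ Z.card * (D * P) :=
      mul_le_mul_of_nonneg_left hDK (Nat.cast_nonneg _)
    have h7 : Real.log (G S P) - Real.log P + Real.log Q + (C₂ + (36 + 3 * a₁ + 2 * D)) =
        a₀ + (36 + 3 * a₁ + 2 * D) := by rw [ha₀]; ring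
    rw [h7]
    linarith

end Pool.Agent.Work.MP_b29d7f_half
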