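import Pool.Agent.Work.MP_b29d7f_half.Interface

/-!
# Block ARCHL: few close neighbours at a record scale
-/

namespace Pool.Agent.Work.MP_b29d7f_half

open Finset
open Pool.Agent.Work.MP_b29d7f_nt (IsPOrdering HasSimultaneousOrdering PosUpperBanachDensity
  PS vd ld tv)

/-- the farthest point gives a window -/
theorem archl_step (h1 : Stmt_GBAS) (S : Set ℤ) (N : ℕ) (hS : S.Infinite) (hR : Rec S N)
    (X : Finset ℤ) (hX : (X : Set ℤ) ⊆ S) (hc : X.card ≤ N) (z y : ℤ) (hz : z ∈ X)
    (hyz : y ≠ z) (hmax : ∀ x ∈ X, |z - x| ≤ |z - y|) :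
    max 0 (Real.log (G S N) - ld z y) ≤
      2 * (Real.log N - Real.log X.card) + Real.log 3 := by
  obtain ⟨-, hmin, -, hle⟩ := h1 S hS
  have hXpos : 1 ≤ X.card := Finset.card_pos.mpr ⟨z, hz⟩
  have hd1 : (1 : ℤ) ≤ |z - y| := Int.one_le_abs (sub_ne_zero.mpr (Ne.symm hyz))
  obtain ⟨d, hd⟩ : ∃ d : ℕ, (d : ℤ) = |z - y| := ⟨(|z - y|).toNat, Int.toNat_of_nonneg (by omega)⟩
  have hwin : InWin X (2 * d + 1) := by
    refine ⟨z - d, fun x hx => ?_⟩
    have h := abs_le.mp (hmax x hx)
    push_cast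
    constructor <;> omega
  have hG : G S X.card ≤ 2 * d + 1 := hmin X (2 * d + 1) hX hwin
  have hG3 : G S X.card ≤ 3 * d := by omega
  have hGpos : 1 ≤ G S X.card := le_trans hXpos (hle _)
  have hGr : (G S X.card : ℝ) ≤ 3 * (d : ℝ) := by exact_mod_cast hG3
  have hGr0 : (0 : ℝ) < (G S X.card : ℝ) := by exact_mod_cast hGpos
  have hdr : (0 : ℝ) < (d : ℝ) := by
    have : 1 ≤ d := by omega
    exact_mod_cast this
  have hlog : Real.log (G S X.card) ≤ Real.log 3 + Real.log d := by
    rw [← Real.log_mul (by norm_num) hdr.ne']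
    exact Real.log_le_log hGr0 hGr
  have hld : ld z y = Real.log d := by
    unfold ld
    congr 1
    have : (((d : ℤ) : ℤ) : ℝ) = ((|z - y| : ℤ) : ℝ) := by rw [hd]
    rw [← Int.cast_abs, ← this]
    simp
  have hrec := hR X.card hXpos hc
  have hXr : (0 : ℝ) < (X.card : ℝ) := by exact_mod_cast hXpos
  have hNX : Real.log X.card ≤ Real.log N :=
    Real.log_le_log hXr (by exact_mod_cast hc)
  have hl3 : 0 ≤ Real.log 3 := Real.log_nonneg (by norm_num)
  apply max_le
  · linarith
  · rw [hld]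
    linarith

theorem archl_ind (h1 : Stmt_GBAS) (S : Set ℤ) (N : ℕ) (hS : S.Infinite) (hR : Rec S N) (k : ℕ) :
    ∀ X : Finset ℤ, (X : Set ℤ) ⊆ S → X.card = k + 1 → k + 1 ≤ N → ∀ z ∈ X,
      ∑ y ∈ X.erase z, max 0 (Real.log (G S N) - ld z y) ≤
        ∑ i ∈ range k, (2 * (Real.log N - Real.log ((i + 2 : ℕ) : ℝ)) + Real.log 3) := by
  induction k with
  | zero =>
    intro X _ hc _ z hz
    have : X.erase z = ∅ := by
      rw [← Finset.card_eq_zero, Finset.card_erase_of_mem hz, hc]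
    simp [this]
  | succ k ih =>
    intro X hX hc hN z hz
    have hne : (X.erase z).Nonempty := by
      rw [← Finset.card_pos, Finset.card_erase_of_mem hz, hc]
      omega
    obtain ⟨y, hy, hmax⟩ := Finset.exists_max_image (X.erase z) (fun x => |z - x|) hne
    have hyX : y ∈ X := Finset.mem_of_mem_erase hy
    have hyz : y ≠ z := Finset.ne_of_mem_erase hy
    have hmax' : ∀ x ∈ X, |z - x| ≤ |z - y| := by
      intro x hx
      by_cases hxz : x = z
      · subst hxz
        simp
      · exact hmax x (Finset.mem_erase.mpr ⟨hxz, hx⟩)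
    have hstep := archl_step h1 S N hS hR X hX (by omega) z y hz hyz hmax'
    have hY : ((X.erase y : Finset ℤ) : Set ℤ) ⊆ S := by
      intro x hx
      exact hX (Finset.mem_coe.mpr (Finset.mem_of_mem_erase (Finset.mem_coe.mp hx)))
    have hYc : (X.erase y).card = k + 1 := by
      rw [Finset.card_erase_of_mem hyX, hc]
      omega
    have hzY : z ∈ X.erase y := Finset.mem_erase.mpr ⟨Ne.symm hyz, hz⟩
    have hrest := ih (X.erase y) hY hYc (by omega) z hzY
    have hsplit : ∑ x ∈ X.erase z, max 0 (Real.log (G S N) - ld z x) =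
        (∑ x ∈ (X.erase y).erase z, max 0 (Real.log (G S N) - ld z x)) +
          max 0 (Real.log (G S N) - ld z y) := by
      rw [Finset.erase_right_comm, Finset.sum_erase_add _ _ hy]
    rw [hsplit, Finset.sum_range_succ]
    rw [hc] at hstep
    exact add_le_add hrest hstep

theorem archl_sum (N : ℕ) (hN : 1 ≤ N) (k : ℕ) (hk : k + 1 ≤ N) :
    ∑ i ∈ range k, (2 * (Real.log N - Real.log ((i + 2 : ℕ) : ℝ)) + Real.log 3) ≤
      4 * (N : ℝ) := by
  have hl3 : 0 ≤ Real.log 3 := Real.log_nonneg (by norm_num)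
  have hl3' : Real.log 3 ≤ 2 := by
    have := Real.log_le_sub_one_of_pos (show (0 : ℝ) < 3 by norm_num)
    linarith
  have hnn : ∀ i : ℕ, i + 1 ≤ N →
      0 ≤ 2 * (Real.log N - Real.log ((i + 1 : ℕ) : ℝ)) + Real.log 3 := by
    intro i hi
    have : Real.log ((i + 1 : ℕ) : ℝ) ≤ Real.log N :=
      Real.log_le_log (by positivity) (by exact_mod_cast hi)
    linarith
  have h1 : ∑ i ∈ range k, (2 * (Real.log N - Real.log ((i + 2 : ℕ) : ℝ)) + Real.log 3) ≤
      ∑ i ∈ range (k + 1), (2 * (Real.log N - Real.log ((i + 1 : ℕ) : ℝ)) + Real.log 3) := by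
    rw [Finset.sum_range_succ' _ k]
    have := hnn 0 (by omega)
    simp only [Nat.add_assoc] at *
    linarith
  have h2 : ∑ i ∈ range (k + 1), (2 * (Real.log N - Real.log ((i + 1 : ℕ) : ℝ)) + Real.log 3) ≤
      ∑ i ∈ range N, (2 * (Real.log N - Real.log ((i + 1 : ℕ) : ℝ)) + Real.log 3) := by
    apply Finset.sum_le_sum_of_subset_of_nonneg
    · intro i hi
      rw [Finset.mem_range] at *
      omega
    · intro i hi _
      rw [Finset.mem_range] at hi
      exact hnn i (by omega)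
  have h3 : ∑ i ∈ range N, (2 * (Real.log N - Real.log ((i + 1 : ℕ) : ℝ)) + Real.log 3) =
      2 * (N * Real.log N - Real.log (N.factorial : ℝ)) + N * Real.log 3 := by
    have hf : Real.log (N.factorial : ℝ) = ∑ i ∈ range N, Real.log ((i + 1 : ℕ) : ℝ) := by
      rw [← Finset.prod_range_add_one_eq_factorial]
      rw [Nat.cast_prod, Real.log_prod]
      intro i _
      positivity
    rw [hf, Finset.sum_add_distrib, ← Finset.mul_sum, Finset.sum_sub_distrib]
    simp [Finset.sum_const, Finset.card_range]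
  have h4 := Pool.Agent.Work.MP_b29d7f_nt.log_factorial_ge N
  have hNr : (0 : ℝ) ≤ N := by positivity
  have h5 : (N : ℝ) * Real.log 3 ≤ N * 2 := mul_le_mul_of_nonneg_left hl3' hNr
  linarith

/-- ARCHL: few close neighbours at a record scale -/
theorem stmt_ARCHL (h1 : Stmt_GBAS) : Stmt_ARCHL := by
  intro S N hS hN hR X hX hc z hz
  have hpos : 0 < X.card := Finset.card_pos.mpr ⟨z, hz⟩
  obtain ⟨k, hk⟩ : ∃ k, X.card = k + 1 := ⟨X.card - 1, by omega⟩
  exact le_trans (archl_ind h1 S N hS hR k X hX hk (by omega) z hz)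
    (archl_sum N hN k (by omega))

end Pool.Agent.Work.MP_b29d7f_half
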