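import Pool.Agent.Work.MP_b29d7f_half.Interface

/-!
# AVG: comparison with larger subsets
-/

namespace Pool.Agent.Work.MP_b29d7f_half

open Finset
open Pool.Agent.Work.MP_b29d7f_nt (IsPOrdering HasSimultaneousOrdering PosUpperBanachDensity
  PS vd ld tv)

/-- ordered pairs versus pairs -/
lemma avg_sum_erase (f : ℤ → ℤ → ℝ) (hf : ∀ x y, f x y = f y x) (W : Finset ℤ) :
    ∑ x ∈ W, ∑ y ∈ W.erase x, f x y = 2 * PS f W := by
  classical
  have h1 : ∀ x ∈ W, ∑ y ∈ W.erase x, f x y =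
      ∑ y ∈ W.filter (fun y => y < x), f x y + ∑ y ∈ W.filter (fun y => x < y), f x y := by
    intro x _
    rw [← Finset.sum_union]
    · refine Finset.sum_congr ?_ fun _ _ => rfl
      ext y
      simp only [mem_erase, mem_union, mem_filter]
      constructor
      · rintro ⟨h, hy⟩
        rcases lt_or_gt_of_ne h with h' | h'
        · exact Or.inl ⟨hy, h'⟩
        · exact Or.inr ⟨hy, h'⟩
      · rintro (⟨hy, h⟩ | ⟨hy, h⟩)
        · exact ⟨h.ne, hy⟩
        · exact ⟨h.ne', hy⟩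
    · rw [Finset.disjoint_left]
      intro y hy hy'
      simp only [mem_filter] at hy hy'
      exact absurd hy.2 (not_lt.mpr hy'.2.le)
  rw [Finset.sum_congr rfl h1, Finset.sum_add_distrib]
  have h2 : ∑ x ∈ W, ∑ y ∈ W.filter (fun y => x < y), f x y = PS f W := by
    unfold PS
    simp_rw [Finset.sum_filter]
    rw [Finset.sum_comm]
    refine Finset.sum_congr rfl fun y _ => Finset.sum_congr rfl fun x _ => ?_
    rw [hf]
  rw [h2]
  unfold PS
  ring

lemma avg_sum_PS_erase (f : ℤ → ℤ → ℝ) (hf : ∀ x y, f x y = f y x) (W : Finset ℤ) :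
    ∑ w ∈ W, PS f (W.erase w) = ((W.card : ℝ) - 2) * PS f W := by
  classical
  have h1 : ∀ w ∈ W, PS f (W.erase w) = PS f W - ∑ y ∈ W.erase w, f w y := by
    intro w hw
    have h := MP_b29d7f_nt.PS_insert f hf (W.erase w) w (Finset.notMem_erase w W)
    rw [Finset.insert_erase hw] at h
    linarith
  rw [Finset.sum_congr rfl h1, Finset.sum_sub_distrib, avg_sum_erase f hf W]
  simp only [Finset.sum_const, nsmul_eq_mul]
  ring

theorem stmt_AVG (h1 : Stmt_VDM) : Stmt_AVG := by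
  intro S a hS p hp n W hn hnW hWS
  classical
  have key : ∀ m : ℕ, n ≤ m → ∀ W : Finset ℤ, W.card = m → (W : Set ℤ) ⊆ S →
      PS (vd p) (A a n) * ((m : ℝ) * (m - 1)) ≤ (n : ℝ) * (n - 1) * PS (vd p) W := by
    intro m hm
    induction m, hm using Nat.le_induction with
    | base =>
      intro W hW hWS
      have h := h1 S a hS p hp W hWS
      rw [hW] at h
      have hn' : (2 : ℝ) ≤ n := by exact_mod_cast hn
      have : (0 : ℝ) ≤ (n : ℝ) * (n - 1) := by nlinarith
      nlinarith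
    | succ m hm ih =>
      intro W hW hWS
      have hm2 : (2 : ℝ) ≤ m := by exact_mod_cast le_trans hn hm
      have h2 : ∀ w ∈ W, PS (vd p) (A a n) * ((m : ℝ) * (m - 1)) ≤
          (n : ℝ) * (n - 1) * PS (vd p) (W.erase w) := by
        intro w hw
        refine ih (W.erase w) ?_ ?_
        · rw [Finset.card_erase_of_mem hw, hW]; rfl
        · intro x hx
          exact hWS (Finset.mem_coe.mpr (Finset.mem_of_mem_erase (Finset.mem_coe.mp hx)))
      have h3 : ∑ w ∈ W, PS (vd p) (A a n) * ((m : ℝ) * (m - 1)) ≤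
          (n : ℝ) * (n - 1) * ∑ w ∈ W, PS (vd p) (W.erase w) := by
        rw [Finset.mul_sum]
        exact Finset.sum_le_sum h2
      rw [avg_sum_PS_erase (vd p) (MP_b29d7f_nt.vd_comm p) W, hW] at h3
      simp only [Finset.sum_const, nsmul_eq_mul, hW] at h3
      push_cast at h3 ⊢
      have h4 : ((m : ℝ) - 1) * (PS (vd p) (A a n) * (((m : ℝ) + 1) * (m + 1 - 1))) ≤
          ((m : ℝ) - 1) * ((n : ℝ) * (n - 1) * PS (vd p) W) := by
        linarith
      exact le_of_mul_le_mul_left h4 (by linarith)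
  have h5 := key W.card hnW W rfl hWS
  have hPS : 0 ≤ PS (vd p) W := MP_b29d7f_nt.PS_nonneg fun _ _ _ _ => MP_b29d7f_nt.vd_nonneg p _ _
  set m : ℝ := (W.card : ℝ) with hm
  have hnr : (2 : ℝ) ≤ n := by exact_mod_cast hn
  have hmr : (n : ℝ) ≤ m := by rw [hm]; exact_mod_cast hnW
  -- multiply by m / (m-1)
  have h6 : (m - 1) * (PS (vd p) (A a n) * m ^ 2) ≤ (m - 1) * ((n : ℝ) ^ 2 * PS (vd p) W) := by
    have h7 : (m - 1) * (PS (vd p) (A a n) * m ^ 2) = m * (PS (vd p) (A a n) * (m * (m - 1))) := by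
      ring
    have h8 : m * (PS (vd p) (A a n) * (m * (m - 1))) ≤ m * ((n : ℝ) * (n - 1) * PS (vd p) W) :=
      mul_le_mul_of_nonneg_left h5 (by linarith)
    have h9 : m * ((n : ℝ) * (n - 1) * PS (vd p) W) ≤ (m - 1) * ((n : ℝ) ^ 2 * PS (vd p) W) := by
      have : m * (n * (n - 1)) ≤ (m - 1) * (n : ℝ) ^ 2 := by nlinarith
      calc m * ((n : ℝ) * (n - 1) * PS (vd p) W) = (m * (n * (n - 1))) * PS (vd p) W := by ring
        _ ≤ ((m - 1) * (n : ℝ) ^ 2) * PS (vd p) W := mul_le_mul_of_nonneg_right this hPS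
        _ = _ := by ring
    linarith
  exact le_of_mul_le_mul_left h6 (by linarith)

end Pool.Agent.Work.MP_b29d7f_half
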