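import Pool.Agent.Work.MP_b29d7f_half.Tools

/-!
# Block BAN: the conclusion in terms of `G`
-/

namespace Pool.Agent.Work.MP_b29d7f_half

open Finset
open Pool.Agent.Work.MP_b29d7f_nt (IsPOrdering HasSimultaneousOrdering PosUpperBanachDensity
  PS vd ld tv)

theorem stmt_BAN (hG : Stmt_GBAS) : Stmt_BAN := by
  intro S hS ⟨C, hC⟩
  obtain ⟨hatt, -, -, hle⟩ := hG S hS
  have hD : (0 : ℝ) < max C 1 := lt_of_lt_of_le one_pos (le_max_right _ _)
  refine ⟨(max C 1)⁻¹, inv_pos.mpr hD, fun L₀ => ?_⟩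
  obtain ⟨N, hN, hGN⟩ := hC L₀
  obtain ⟨W, hWS, hWc, u, hu⟩ := hatt N
  refine ⟨G S N, hN.trans (hle N), u, ?_⟩
  have h1 : (G S N : ℝ) ≤ max C 1 * N :=
    hGN.trans (mul_le_mul_of_nonneg_right (le_max_left _ _) (Nat.cast_nonneg _))
  have h2 : N ≤ (S ∩ Set.Ico u (u + G S N)).ncard := by
    have hfin : (S ∩ Set.Ico u (u + (G S N : ℤ))).Finite :=
      (Set.finite_Ico _ _).subset Set.inter_subset_right
    have h3 : (W : Set ℤ) ⊆ S ∩ Set.Ico u (u + (G S N : ℤ)) := fun x hx => ⟨hWS hx, hu x hx⟩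
    have h4 := Set.ncard_le_ncard h3 hfin
    rwa [Set.ncard_coe_finset, hWc] at h4
  calc (max C 1)⁻¹ * (G S N : ℝ) ≤ (max C 1)⁻¹ * (max C 1 * N) :=
        mul_le_mul_of_nonneg_left h1 (inv_nonneg.mpr hD.le)
    _ = N := by field_simp
    _ ≤ _ := by exact_mod_cast h2

end Pool.Agent.Work.MP_b29d7f_half
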