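import Pool.Agent.Work.MP_b29d7f_half.Interface

/-!
# BIGP: the contribution of the large primes (helper65)
-/

namespace Pool.Agent.Work.MP_b29d7f_half

open Finset
open Pool.Agent.Work.MP_b29d7f_nt (IsPOrdering HasSimultaneousOrdering PosUpperBanachDensity
  PS vd ld tv mertens_upper mertens_lower_all)

namespace BigP

/-- bound for a single prime -/
lemma single {S : Set ℤ} {a : ℕ → ℤ} (hOrd : Ord S a) (hAVG : Stmt_AVG) (hPAIR : Stmt_PAIR)
    (hCLS : Stmt_CLS) {n : ℕ} (hn : 2 ≤ n) {W : Finset ℤ} {g : ℕ} (hnW : n ≤ W.card)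
    (hWS : (W : Set ℤ) ⊆ S) (hWg : InWin W g) {p : ℕ} (hp : p.Prime) :
    2 * PS (vd p) (A a n) ≤ (n : ℝ) ^ 2 * ((if p < 2 * n then 1 / (p : ℝ) else 0) +
      2 * (((p : ℝ) * prs p W - (W.card : ℝ) ^ 2) / (p * (W.card : ℝ) ^ 2)) +
      4 * g / (W.card * (p : ℝ) ^ 2)) := by
  have hm0 : (0 : ℝ) < W.card := by
    have : 0 < W.card := by omega
    exact_mod_cast this
  have hp0 : (0 : ℝ) < p := by exact_mod_cast hp.pos
  have hr : (W.card : ℝ) ^ 2 ≤ p * prs p W := hCLS.1 W p hp.one_lt.le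
  set m : ℝ := (W.card : ℝ) with hm
  set r : ℝ := ((p : ℝ) * prs p W - m ^ 2) / (p * m ^ 2) with hrdef
  have hr0 : 0 ≤ r := div_nonneg (by linarith) (by positivity)
  have hu0 : (0 : ℝ) ≤ if p < 2 * n then 1 / (p : ℝ) else 0 := by split_ifs <;> positivity
  by_cases h0 : PS (vd p) (A a n) = 0
  · rw [h0, mul_zero]
    positivity
  · have h1 := hAVG S a hOrd p hp n W hn hnW hWS
    have h2 := hPAIR W g p hp hWg
    have h3 : (prs p W : ℝ) / m ^ 2 ≤ (if p < 2 * n then 1 / (p : ℝ) else 0) + 2 * r := by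
      have h4 : (prs p W : ℝ) / m ^ 2 = 1 / p + r := by
        rw [hrdef]
        field_simp
        ring
      split_ifs with hlt
      · rw [h4]; linarith
      · have h5 := hCLS.2 S a hOrd p hp n W hWS h0
        have h6 : 1 / (p : ℝ) ≤ r := by
          rw [hrdef, div_le_div_iff₀ hp0 (by positivity)]
          have h7 : (2 * n : ℝ) ≤ p := by exact_mod_cast not_lt.mp hlt
          have h8 : 2 * m ^ 2 ≤ p * prs p W := by
            calc 2 * m ^ 2 ≤ 2 * (n * prs p W) := by linarith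
              _ = (2 * n) * prs p W := by ring
              _ ≤ p * prs p W := mul_le_mul_of_nonneg_right h7 (Nat.cast_nonneg _)
          nlinarith
        rw [h4]; linarith
    have h9 : 2 * PS (vd p) (A a n) * m ^ 2 ≤
        (n : ℝ) ^ 2 * (prs p W + 4 * m * g / (p : ℝ) ^ 2) := by
      have := mul_le_mul_of_nonneg_left h2 (sq_nonneg (n : ℝ))
      nlinarith
    have h10 : 2 * PS (vd p) (A a n) ≤
        (n : ℝ) ^ 2 * ((prs p W : ℝ) / m ^ 2 + 4 * g / (m * (p : ℝ) ^ 2)) := by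
      have h11 : 2 * PS (vd p) (A a n) ≤
          ((n : ℝ) ^ 2 * (prs p W + 4 * m * g / (p : ℝ) ^ 2)) / m ^ 2 := by
        rw [le_div_iff₀ (by positivity)]
        exact h9
      refine h11.trans (le_of_eq ?_)
      field_simp
    refine h10.trans ?_
    refine mul_le_mul_of_nonneg_left ?_ (sq_nonneg _)
    linarith

/-- bound for a dyadic block of primes -/
lemma block {S : Set ℤ} {a : ℕ → ℤ} (hOrd : Ord S a) (hSIEVE : Stmt_SIEVE) (hAVG : Stmt_AVG)
    (hPAIR : Stmt_PAIR) (hCLS : Stmt_CLS) {n : ℕ} (hn : 2 ≤ n) {W : Finset ℤ} {g : ℕ}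
    (hnW : n ≤ W.card) (hWS : (W : Set ℤ) ⊆ S) (hWg : InWin W g) (j : ℕ) (B : Finset ℕ)
    (hB : ∀ p ∈ B, p.Prime ∧ 2 ^ j ≤ p ∧ p < 2 ^ (j + 1)) :
    ∑ p ∈ B, Real.log p * (2 * PS (vd p) (A a n)) ≤
      (n : ℝ) ^ 2 * (∑ p ∈ B, (if p < 2 * n then Real.log p / (p : ℝ) else 0) +
        (j + 1) * (36 * (g / (W.card * (2 : ℝ) ^ j)) + 128 * ((2 : ℝ) ^ j / W.card))) := by
  have hm0 : (0 : ℝ) < W.card := by
    have : 0 < W.card := by omega
    exact_mod_cast this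
  have h2j : (0 : ℝ) < (2 : ℝ) ^ j := by positivity
  have hp2 : ∀ p ∈ B, (2 : ℝ) ^ j ≤ p := fun p hp => by exact_mod_cast (hB p hp).2.1
  have hlog : ∀ p ∈ B, 0 ≤ Real.log p ∧ Real.log p ≤ (j : ℝ) + 1 := by
    intro p hp
    have h1 : (1 : ℝ) ≤ p := by exact_mod_cast (hB p hp).1.one_lt.le
    refine ⟨Real.log_nonneg h1, ?_⟩
    have h2 : (p : ℝ) ≤ (2 : ℝ) ^ (j + 1) := by exact_mod_cast (hB p hp).2.2.le
    have h3 : Real.log p ≤ Real.log ((2 : ℝ) ^ (j + 1)) := Real.log_le_log (by linarith) h2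
    rw [Real.log_pow] at h3
    have h4 : Real.log 2 ≤ 1 := by
      have := Real.log_two_lt_d9
      linarith
    have h5 : ((j + 1 : ℕ) : ℝ) * Real.log 2 ≤ ((j + 1 : ℕ) : ℝ) * 1 :=
      mul_le_mul_of_nonneg_left h4 (Nat.cast_nonneg _)
    push_cast at h3 h5
    linarith
  have hcard : (B.card : ℝ) ≤ (2 : ℝ) ^ j := by
    have h1 : B ⊆ Finset.Ico (2 ^ j) (2 ^ (j + 1)) := by
      intro p hp
      rw [Finset.mem_Ico]
      exact (hB p hp).2
    have h2 := Finset.card_le_card h1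
    rw [Nat.card_Ico, pow_succ] at h2
    have h3 : B.card ≤ 2 ^ j := by omega
    exact_mod_cast h3
  set m : ℝ := (W.card : ℝ) with hm
  -- the three parts
  have hA : ∀ p ∈ B, Real.log p * (2 * PS (vd p) (A a n)) ≤
      (n : ℝ) ^ 2 * ((if p < 2 * n then Real.log p / (p : ℝ) else 0) +
        (j + 1) * (2 / ((2 : ℝ) ^ j * m ^ 2)) * ((p : ℝ) * prs p W - m ^ 2) +
        (j + 1) * (4 * g / (m * ((2 : ℝ) ^ j * (2 : ℝ) ^ j)))) := by
    intro p hp
    have hpp := (hB p hp).1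
    have hp0 : (0 : ℝ) < p := by exact_mod_cast hpp.pos
    have h1 := single hOrd hAVG hPAIR hCLS hn hnW hWS hWg hpp
    rw [← hm] at h1
    have hr : m ^ 2 ≤ p * prs p W := hCLS.1 W p hpp.one_lt.le
    have h2 := mul_le_mul_of_nonneg_left h1 (hlog p hp).1
    refine h2.trans ?_
    have h3 : Real.log p * ((n : ℝ) ^ 2 * ((if p < 2 * n then 1 / (p : ℝ) else 0) +
        2 * (((p : ℝ) * prs p W - m ^ 2) / (p * m ^ 2)) + 4 * g / (m * (p : ℝ) ^ 2))) =
        (n : ℝ) ^ 2 * ((if p < 2 * n then Real.log p / (p : ℝ) else 0) +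
        Real.log p * (2 * (((p : ℝ) * prs p W - m ^ 2) / (p * m ^ 2))) +
        Real.log p * (4 * g / (m * (p : ℝ) ^ 2))) := by
      split_ifs <;> ring
    rw [h3]
    refine mul_le_mul_of_nonneg_left ?_ (sq_nonneg _)
    have h4 : Real.log p * (2 * (((p : ℝ) * prs p W - m ^ 2) / (p * m ^ 2))) ≤
        (j + 1) * (2 / ((2 : ℝ) ^ j * m ^ 2)) * ((p : ℝ) * prs p W - m ^ 2) := by
      have h5 : ((p : ℝ) * prs p W - m ^ 2) / (p * m ^ 2) ≤
          ((p : ℝ) * prs p W - m ^ 2) / ((2 : ℝ) ^ j * m ^ 2) := by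
        refine div_le_div_of_nonneg_left (by linarith) (by positivity) ?_
        exact mul_le_mul_of_nonneg_right (hp2 p hp) (sq_nonneg _)
      have h6 : 0 ≤ ((p : ℝ) * prs p W - m ^ 2) / ((2 : ℝ) ^ j * m ^ 2) :=
        div_nonneg (by linarith) (by positivity)
      calc Real.log p * (2 * (((p : ℝ) * prs p W - m ^ 2) / (p * m ^ 2)))
          ≤ Real.log p * (2 * (((p : ℝ) * prs p W - m ^ 2) / ((2 : ℝ) ^ j * m ^ 2))) :=
            mul_le_mul_of_nonneg_left (by linarith) (hlog p hp).1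
        _ ≤ (j + 1) * (2 * (((p : ℝ) * prs p W - m ^ 2) / ((2 : ℝ) ^ j * m ^ 2))) :=
            mul_le_mul_of_nonneg_right (hlog p hp).2 (by linarith)
        _ = (j + 1) * (2 / ((2 : ℝ) ^ j * m ^ 2)) * ((p : ℝ) * prs p W - m ^ 2) := by ring
    have h7 : Real.log p * (4 * g / (m * (p : ℝ) ^ 2)) ≤
        (j + 1) * (4 * g / (m * ((2 : ℝ) ^ j * (2 : ℝ) ^ j))) := by
      have h8 : 4 * (g : ℝ) / (m * (p : ℝ) ^ 2) ≤ 4 * g / (m * ((2 : ℝ) ^ j * (2 : ℝ) ^ j)) := by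
        refine div_le_div_of_nonneg_left (by positivity) (by positivity) ?_
        rw [sq]
        refine mul_le_mul_of_nonneg_left ?_ hm0.le
        exact mul_le_mul (hp2 p hp) (hp2 p hp) h2j.le hp0.le
      exact mul_le_mul (hlog p hp).2 h8 (by positivity) (by positivity)
    linarith
  refine (Finset.sum_le_sum hA).trans ?_
  rw [← Finset.mul_sum]
  refine mul_le_mul_of_nonneg_left ?_ (sq_nonneg _)
  rw [Finset.sum_add_distrib, Finset.sum_add_distrib, add_assoc]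
  refine add_le_add le_rfl ?_
  rw [← Finset.mul_sum, Finset.sum_const, nsmul_eq_mul]
  have hs := hSIEVE W g (2 ^ (j + 1)) (Nat.one_le_two_pow) hWg B
    (fun p hp => ⟨(hB p hp).1, (hB p hp).2.2.le⟩)
  rw [← hm] at hs
  have hmax : ((max g ((2 ^ (j + 1)) ^ 2) : ℕ) : ℝ) ≤ g + 4 * ((2 : ℝ) ^ j * (2 : ℝ) ^ j) := by
    have h1 : max g ((2 ^ (j + 1)) ^ 2) ≤ g + 4 * (2 ^ j * 2 ^ j) := by
      refine max_le (Nat.le_add_right _ _) ?_
      have : (2 ^ (j + 1)) ^ 2 = 4 * (2 ^ j * 2 ^ j) := by ring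
      rw [this]
      exact Nat.le_add_left _ _
    exact_mod_cast h1
  have h1 : ∑ p ∈ B, ((p : ℝ) * prs p W - m ^ 2) ≤
      16 * (g + 4 * ((2 : ℝ) ^ j * (2 : ℝ) ^ j)) * m := by
    refine hs.trans ?_
    refine mul_le_mul_of_nonneg_right ?_ hm0.le
    exact mul_le_mul_of_nonneg_left hmax (by norm_num)
  have h2 : ((j : ℝ) + 1) * (2 / ((2 : ℝ) ^ j * m ^ 2)) *
      ∑ p ∈ B, ((p : ℝ) * prs p W - m ^ 2) ≤
      ((j : ℝ) + 1) * (32 * (g / (m * (2 : ℝ) ^ j)) + 128 * ((2 : ℝ) ^ j / m)) := by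
    calc ((j : ℝ) + 1) * (2 / ((2 : ℝ) ^ j * m ^ 2)) * ∑ p ∈ B, ((p : ℝ) * prs p W - m ^ 2)
        ≤ ((j : ℝ) + 1) * (2 / ((2 : ℝ) ^ j * m ^ 2)) *
          (16 * (g + 4 * ((2 : ℝ) ^ j * (2 : ℝ) ^ j)) * m) :=
          mul_le_mul_of_nonneg_left h1 (by positivity)
      _ = ((j : ℝ) + 1) * (32 * (g / (m * (2 : ℝ) ^ j)) + 128 * ((2 : ℝ) ^ j / m)) := by
          field_simp
          ring
  have h3 : (B.card : ℝ) * (((j : ℝ) + 1) * (4 * g / (m * ((2 : ℝ) ^ j * (2 : ℝ) ^ j)))) ≤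
      ((j : ℝ) + 1) * (4 * (g / (m * (2 : ℝ) ^ j))) := by
    calc (B.card : ℝ) * (((j : ℝ) + 1) * (4 * g / (m * ((2 : ℝ) ^ j * (2 : ℝ) ^ j))))
        ≤ (2 : ℝ) ^ j * (((j : ℝ) + 1) * (4 * g / (m * ((2 : ℝ) ^ j * (2 : ℝ) ^ j)))) :=
          mul_le_mul_of_nonneg_right hcard (by positivity)
      _ = ((j : ℝ) + 1) * (4 * (g / (m * (2 : ℝ) ^ j))) := by
          field_simp
  nlinarith

/-- the sum of `(j + 1) r ^ j` over a finite set -/
lemma geo {r : ℝ} (h0 : 0 ≤ r) (h1 : r < 1) : ∃ M : ℝ, 0 ≤ M ∧ ∀ J : Finset ℕ,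
    ∑ j ∈ J, ((j : ℝ) + 1) * r ^ j ≤ M := by
  have hr : ‖r‖ < 1 := by rwa [Real.norm_of_nonneg h0]
  have hs : Summable fun j : ℕ => ((j : ℝ) + 1) * r ^ j := by
    have h2 := (summable_pow_mul_geometric_of_norm_lt_one 1 hr).add
      (summable_pow_mul_geometric_of_norm_lt_one 0 hr)
    refine h2.congr fun j => ?_
    rw [pow_one, pow_zero]
    ring
  have hnn : ∀ j : ℕ, 0 ≤ ((j : ℝ) + 1) * r ^ j := fun j => by positivity
  exact ⟨∑' j : ℕ, ((j : ℝ) + 1) * r ^ j, tsum_nonneg hnn, fun J =>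
    hs.sum_le_tsum J (fun j _ => hnn j)⟩

/-- Mertens for the primes in `(Q, 2n)` -/
lemma mertens_range : ∃ C : ℝ, ∀ n Q : ℕ, 1 ≤ Q → Q ≤ n → ∀ P : Finset ℕ,
    (∀ p ∈ P, p.Prime ∧ Q < p) →
    ∑ p ∈ P, (if p < 2 * n then Real.log p / (p : ℝ) else 0) ≤
      Real.log n - Real.log Q + C := by
  classical
  obtain ⟨C, hC0, hC⟩ := mertens_lower_all
  refine ⟨Real.log 2 + Real.log 4 + C, fun n Q hQ hQn P hP => ?_⟩
  have hn0 : (n : ℝ) ≠ 0 := by exact_mod_cast (by omega : n ≠ 0)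
  have hnn : ∀ p : ℕ, 0 ≤ Real.log p / (p : ℝ) := fun p =>
    div_nonneg (Real.log_natCast_nonneg p) (Nat.cast_nonneg p)
  rw [← Finset.sum_filter]
  have h1 := mertens_upper (2 * n) (by omega)
  have h2 := hC Q hQ
  have h3 : ∑ p ∈ P.filter (fun p => p < 2 * n), Real.log p / (p : ℝ) +
      ∑ p ∈ Q.primesLE, Real.log p / (p : ℝ) ≤ Real.log (2 * n : ℕ) + Real.log 4 := by
    rw [← Finset.sum_union]
    · refine (Finset.sum_le_sum_of_subset_of_nonneg ?_ fun p _ _ => hnn p).trans h1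
      intro p hp
      rw [Finset.mem_union, Finset.mem_filter, Nat.mem_primesLE] at hp
      rw [Nat.mem_primesLE]
      rcases hp with hp | hp
      · exact ⟨hp.2.le, (hP p hp.1).1⟩
      · exact ⟨by omega, hp.2⟩
    · rw [Finset.disjoint_left]
      intro p hp hp'
      rw [Finset.mem_filter] at hp
      rw [Nat.mem_primesLE] at hp'
      exact absurd hp'.1 (not_le.mpr (hP p hp.1).2)
  have h4 : Real.log ((2 * n : ℕ) : ℝ) = Real.log 2 + Real.log n := by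
    push_cast
    exact Real.log_mul (by norm_num) hn0
  rw [h4] at h3
  linarith

/-- the size of the window in block `j` compared with the number of its elements -/
lemma ratio {S : Set ℤ} {θ C₀ δ : ℝ} (hMono : Monotone (G S)) (hθ0 : 0 < θ) (hθ1 : θ < 1)
    (hC₀ : 1 ≤ C₀) (hGr : Growth S θ C₀) (hδ : 0 < δ) {N n Q : ℕ} (hn : 2 ≤ n) (hnN : n ≤ N)
    (hN : N ≤ 3 * n) (hQ : ((G S N : ℝ) / N) ^ (1 + δ) ≤ Q) (j : ℕ) (hj : Q < 2 ^ (j + 1))
    {m : ℕ} (hm : m = max n ⌈((2 : ℝ) ^ (1 + δ)) ^ j⌉₊) :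
    (G S m : ℝ) / (m * (2 : ℝ) ^ j) ≤
      3 * (2 : ℝ) ^ (1 / (1 + δ)) * ((2 : ℝ) ^ (1 / (1 + δ)) / 2) ^ j +
      2 * C₀ * (((2 : ℝ) ^ (1 + δ)) ^ θ / 2) ^ j := by
  have h2j : (0 : ℝ) < (2 : ℝ) ^ j := by positivity
  set D : ℝ := (2 : ℝ) ^ (1 / (1 + δ)) with hD
  set B : ℝ := (2 : ℝ) ^ (1 + δ) with hB
  have hD0 : 0 < D := by positivity
  have hB0 : 0 < B := by positivity
  have hB1 : 1 ≤ B := Real.one_le_rpow (by norm_num) (by linarith)
  have hBj1 : 1 ≤ B ^ j := one_le_pow₀ hB1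
  have hn0 : (0 : ℝ) < n := by exact_mod_cast (by omega : 0 < n)
  have hN0 : (0 : ℝ) < N := by exact_mod_cast (by omega : 0 < N)
  rcases le_or_gt ⌈B ^ j⌉₊ n with hle | hgt
  · have hmn : m = n := by rw [hm]; exact max_eq_left hle
    rw [hmn]
    have hx0 : 0 ≤ (G S N : ℝ) / N := by positivity
    have hx : (G S N : ℝ) / N ≤ D ^ (j + 1) := by
      have h1 : ((G S N : ℝ) / N) ^ (1 + δ) ≤ (2 : ℝ) ^ (j + 1) := by
        refine hQ.trans ?_
        exact_mod_cast hj.le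
      have h2 := Real.rpow_le_rpow (by positivity) h1 (by positivity : 0 ≤ 1 / (1 + δ))
      rw [← Real.rpow_mul hx0, mul_one_div_cancel (by linarith : (1 + δ) ≠ 0), Real.rpow_one] at h2
      refine h2.trans (le_of_eq ?_)
      rw [hD, ← Real.rpow_natCast, ← Real.rpow_mul (by norm_num), ← Real.rpow_natCast,
        ← Real.rpow_mul (by norm_num), mul_comm]
    have hGn : (G S n : ℝ) ≤ 3 * D ^ (j + 1) * n := by
      have h1 : (G S n : ℝ) ≤ G S N := by exact_mod_cast hMono hnN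
      have h2 : (G S N : ℝ) = (G S N : ℝ) / N * N := by field_simp
      have h3 : (N : ℝ) ≤ 3 * n := by exact_mod_cast hN
      calc (G S n : ℝ) ≤ G S N := h1
        _ = (G S N : ℝ) / N * N := h2
        _ ≤ D ^ (j + 1) * (3 * n) := mul_le_mul hx h3 hN0.le (by positivity)
        _ = 3 * D ^ (j + 1) * n := by ring
    have h4 : (G S n : ℝ) / (n * (2 : ℝ) ^ j) ≤ 3 * D * (D / 2) ^ j := by
      rw [div_le_iff₀ (by positivity)]
      refine hGn.trans (le_of_eq ?_)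
      rw [div_pow]
      field_simp
      ring
    have h5 : 0 ≤ 2 * C₀ * (B ^ θ / 2) ^ j := by positivity
    linarith
  · have hmc : m = ⌈B ^ j⌉₊ := by rw [hm]; exact max_eq_right hgt.le
    have hm0 : 1 ≤ m := by rw [hmc]; omega
    have hmr : (0 : ℝ) < m := by exact_mod_cast hm0
    have h1 := hGr m hm0
    have hm2 : (m : ℝ) ≤ 2 * B ^ j := by
      have h2 := (Nat.ceil_lt_add_one (by positivity : 0 ≤ B ^ j)).le
      rw [hmc]
      linarith
    have h3 : (m : ℝ) ^ θ ≤ 2 * (B ^ θ) ^ j := by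
      have h4 := Real.rpow_le_rpow hmr.le hm2 hθ0.le
      refine h4.trans ?_
      rw [Real.mul_rpow (by norm_num) (by positivity)]
      have h5 : (2 : ℝ) ^ θ ≤ 2 := by
        have := Real.rpow_le_rpow_of_exponent_le (by norm_num : (1 : ℝ) ≤ 2) hθ1.le
        rwa [Real.rpow_one] at this
      have h6 : (B ^ j) ^ θ = (B ^ θ) ^ j := by
        rw [← Real.rpow_natCast, ← Real.rpow_mul hB0.le, ← Real.rpow_natCast,
          ← Real.rpow_mul hB0.le, mul_comm]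
      rw [h6]
      exact mul_le_mul_of_nonneg_right h5 (by positivity)
    have h7 : (G S m : ℝ) / (m * (2 : ℝ) ^ j) ≤ 2 * C₀ * (B ^ θ / 2) ^ j := by
      rw [div_le_iff₀ (by positivity)]
      refine h1.trans ?_
      rw [Real.rpow_add hmr, Real.rpow_one]
      calc C₀ * ((m : ℝ) * (m : ℝ) ^ θ) ≤ C₀ * ((m : ℝ) * (2 * (B ^ θ) ^ j)) := by
            refine mul_le_mul_of_nonneg_left ?_ (by linarith)
            exact mul_le_mul_of_nonneg_left h3 hmr.le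
        _ = 2 * C₀ * (B ^ θ / 2) ^ j * (m * (2 : ℝ) ^ j) := by
            rw [div_pow]
            field_simp
    have h8 : 0 ≤ 3 * D * (D / 2) ^ j := by positivity
    linarith

end BigP

open BigP in
theorem stmt_BIGP (hGBAS : Stmt_GBAS) (hSIEVE : Stmt_SIEVE) (hAVG : Stmt_AVG)
    (hPAIR : Stmt_PAIR) (hCLS : Stmt_CLS) : Stmt_BIGP := by
  classical
  intro S a θ C₀ δ hOrd hθ0 hθ1 hC₀ hGr hδ hθδ
  obtain ⟨hwin, -, hMono, -⟩ := hGBAS S hOrd.inf
  obtain ⟨CM, hCM⟩ := mertens_range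
  set D : ℝ := (2 : ℝ) ^ (1 / (1 + δ)) with hD
  set B : ℝ := (2 : ℝ) ^ (1 + δ) with hB
  have hD0 : 0 < D := by positivity
  have hB0 : 0 < B := by positivity
  have hB2 : 2 < B := by
    have := Real.rpow_lt_rpow_of_exponent_lt (by norm_num : (1 : ℝ) < 2)
      (by linarith : (1 : ℝ) < 1 + δ)
    rwa [Real.rpow_one] at this
  have hD2 : D < 2 := by
    have := Real.rpow_lt_rpow_of_exponent_lt (by norm_num : (1 : ℝ) < 2)
      (by rw [div_lt_one (by linarith)]; linarith : 1 / (1 + δ) < (1 : ℝ))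
    rwa [Real.rpow_one] at this
  have hE2 : B ^ θ < 2 := by
    have := Real.rpow_lt_rpow_of_exponent_lt (by norm_num : (1 : ℝ) < 2)
      (by linarith : (1 + δ) * θ < (1 : ℝ))
    rw [Real.rpow_one, Real.rpow_mul (by norm_num)] at this
    exact this
  obtain ⟨M₁, hM₁0, hM₁⟩ := geo (r := 2 / B) (by positivity) (by rw [div_lt_one hB0]; exact hB2)
  obtain ⟨M₂, hM₂0, hM₂⟩ := geo (r := D / 2) (by positivity) (by rw [div_lt_one]; exact hD2; norm_num)
  obtain ⟨M₃, hM₃0, hM₃⟩ := geo (r := B ^ θ / 2) (by positivity)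
    (by rw [div_lt_one]; exact hE2; norm_num)
  refine ⟨CM + (128 * M₁ + 36 * (3 * D) * M₂ + 36 * (2 * C₀) * M₃), ?_⟩
  intro N n Q hn hnN hN3 hQ1 hQn hQx P hP
  -- the blocks
  have hblock : ∀ j ∈ P.image (Nat.log 2),
      ∑ p ∈ P.filter (fun p => Nat.log 2 p = j), Real.log p * (2 * PS (vd p) (A a n)) ≤
      (n : ℝ) ^ 2 * (∑ p ∈ P.filter (fun p => Nat.log 2 p = j),
          (if p < 2 * n then Real.log p / (p : ℝ) else 0) +
        (128 * (((j : ℝ) + 1) * (2 / B) ^ j) + 36 * (3 * D) * (((j : ℝ) + 1) * (D / 2) ^ j) +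
          36 * (2 * C₀) * (((j : ℝ) + 1) * (B ^ θ / 2) ^ j))) := by
    intro j hj
    obtain ⟨p₀, hp₀, hp₀j⟩ := Finset.mem_image.mp hj
    have hQj : Q < 2 ^ (j + 1) := by
      rw [← hp₀j]
      exact (hP p₀ hp₀).2.trans (Nat.lt_pow_succ_log_self one_lt_two p₀)
    set m : ℕ := max n ⌈B ^ j⌉₊ with hm
    obtain ⟨W, hWS, hWc, hWg⟩ := hwin m
    have hBmem : ∀ p ∈ P.filter (fun p => Nat.log 2 p = j),
        p.Prime ∧ 2 ^ j ≤ p ∧ p < 2 ^ (j + 1) := by
      intro p hp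
      rw [Finset.mem_filter] at hp
      obtain ⟨hp1, hp2⟩ := hp
      refine ⟨(hP p hp1).1, ?_, ?_⟩
      · rw [← hp2]; exact Nat.pow_log_le_self 2 (hP p hp1).1.ne_zero
      · rw [← hp2]; exact Nat.lt_pow_succ_log_self one_lt_two p
    have h1 := block hOrd hSIEVE hAVG hPAIR hCLS hn (W := W) (g := G S m)
      (by rw [hWc]; exact le_max_left _ _) hWS hWg j _ hBmem
    refine h1.trans ?_
    refine mul_le_mul_of_nonneg_left ?_ (sq_nonneg _)
    refine add_le_add le_rfl ?_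
    rw [hWc]
    have h2 := ratio hMono hθ0 hθ1 hC₀ hGr hδ hn hnN hN3 hQx j hQj hm
    rw [← hD, ← hB] at h2
    have hmB : B ^ j ≤ (m : ℝ) := by
      refine (Nat.le_ceil _).trans ?_
      exact_mod_cast le_max_right _ _
    have h3 : (2 : ℝ) ^ j / (m : ℝ) ≤ (2 / B) ^ j := by
      rw [div_pow]
      exact div_le_div_of_nonneg_left (by positivity) (by positivity) hmB
    have hj1 : (0 : ℝ) ≤ (j : ℝ) + 1 := by positivity
    calc ((j : ℝ) + 1) * (36 * ((G S m : ℝ) / (m * (2 : ℝ) ^ j)) + 128 * ((2 : ℝ) ^ j / m))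
        ≤ ((j : ℝ) + 1) * (36 * (3 * D * (D / 2) ^ j + 2 * C₀ * (B ^ θ / 2) ^ j) +
          128 * (2 / B) ^ j) := by
          refine mul_le_mul_of_nonneg_left ?_ hj1
          linarith
      _ = _ := by ring
  have hsum : ∑ p ∈ P, Real.log p * (2 * PS (vd p) (A a n)) =
      ∑ j ∈ P.image (Nat.log 2), ∑ p ∈ P.filter (fun p => Nat.log 2 p = j),
        Real.log p * (2 * PS (vd p) (A a n)) :=
    (Finset.sum_fiberwise_of_maps_to (fun p hp => Finset.mem_image_of_mem _ hp) _).symm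
  have hsum' : ∑ p ∈ P, (if p < 2 * n then Real.log p / (p : ℝ) else 0) =
      ∑ j ∈ P.image (Nat.log 2), ∑ p ∈ P.filter (fun p => Nat.log 2 p = j),
        (if p < 2 * n then Real.log p / (p : ℝ) else 0) :=
    (Finset.sum_fiberwise_of_maps_to (fun p hp => Finset.mem_image_of_mem _ hp) _).symm
  rw [hsum]
  refine (Finset.sum_le_sum hblock).trans ?_
  rw [← Finset.mul_sum]
  refine mul_le_mul_of_nonneg_left ?_ (sq_nonneg _)
  rw [Finset.sum_add_distrib, ← hsum', Finset.sum_add_distrib, Finset.sum_add_distrib,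
    ← Finset.mul_sum, ← Finset.mul_sum, ← Finset.mul_sum]
  have h1 := hCM n Q hQ1 hQn P hP
  have h2 := mul_le_mul_of_nonneg_left (hM₁ (P.image (Nat.log 2))) (by norm_num : (0 : ℝ) ≤ 128)
  have h3 := mul_le_mul_of_nonneg_left (hM₂ (P.image (Nat.log 2)))
    (by positivity : (0 : ℝ) ≤ 36 * (3 * D))
  have h4 := mul_le_mul_of_nonneg_left (hM₃ (P.image (Nat.log 2)))
    (by positivity : (0 : ℝ) ≤ 36 * (2 * C₀))
  linarith

end Pool.Agent.Work.MP_b29d7f_half
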