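import Pool.Agent.Work.MP_b29d7f_half.Tools

/-!
# Block BOUNDED
-/

namespace Pool.Agent.Work.MP_b29d7f_half

open Finset Filter Topology

theorem stmt_BOUNDED (h1 : Stmt_GBAS) (h2 : Stmt_LOWY) (h3 : Stmt_YUP) : Stmt_BOUNDED := by
  intro S a θ C₀ ho hθ0 hθ1 hC₀ hG
  obtain ⟨-, -, -, hmG⟩ := h1 S ho.inf
  obtain ⟨δ, hδ⟩ : ∃ δ : ℝ, δ = (1 - θ) / 4 := ⟨_, rfl⟩
  have hδ0 : 0 < δ := by rw [hδ]; linarith
  obtain ⟨lam, hlam⟩ : ∃ lam : ℝ, lam = θ * (1 + δ) ^ 2 := ⟨_, rfl⟩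
  have hlam1 : lam < 1 := by
    rw [hlam, hδ]
    nlinarith [mul_pos hθ0 (sub_pos.mpr hθ1), mul_pos (mul_pos hθ0 (sub_pos.mpr hθ1))
      (sub_pos.mpr hθ1), sq_nonneg (1 - θ)]
  have hθδ : θ * (1 + δ) < 1 := by
    have : θ * (1 + δ) ≤ lam := by
      rw [hlam]
      nlinarith [mul_pos hθ0 hδ0, mul_pos (mul_pos hθ0 hδ0) hδ0]
    linarith
  obtain ⟨C₁, hL⟩ := h2 S a θ C₀ δ ho hθ0 hθ1 hC₀ hG hδ0 hθδ
  obtain ⟨C₂, P₀, hY⟩ := h3 S a θ C₀ δ ho hθ0 hθ1 hC₀ hG hδ0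
  obtain ⟨B, hB⟩ : ∃ B : ℝ, B = ((P₀ : ℝ) + 2) * (2 ^ (1 + δ) * C₀ ^ ((1 + δ) ^ 2)) := ⟨_, rfl⟩
  have hev : ∀ᶠ N : ℕ in atTop, 4 * B ≤ (N : ℝ) ^ (1 - lam) :=
    ((tendsto_rpow_atTop (by linarith : 0 < 1 - lam)).comp
      tendsto_natCast_atTop_atTop).eventually_ge_atTop (4 * B)
  obtain ⟨N₁, hN₁⟩ := eventually_atTop.mp hev
  obtain ⟨C₃, hC₃⟩ : ∃ C₃ : ℝ, C₃ = C₁ + C₂ + Real.log C₀ +
    θ * (Real.log ((P₀ : ℝ) + 2) + (1 + δ) * Real.log 2) := ⟨_, rfl⟩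
  refine ⟨Real.exp (C₃ / (1 - lam)), max N₁ 4, fun N hN hrec => ?_⟩
  have hN4 : 4 ≤ N := le_trans (le_max_right _ _) hN
  have hNN₁ : N₁ ≤ N := le_trans (le_max_left _ _) hN
  obtain ⟨n, hn⟩ : ∃ n : ℕ, n = N / 2 := ⟨_, rfl⟩
  have hn2 : 2 ≤ n := by omega
  have hn3 : 2 * n ≤ N := by omega
  have hn4 : N ≤ 2 * n + 1 := by omega
  have hNpos : (0 : ℝ) < N := by exact_mod_cast (by omega : 0 < N)
  have hnpos : (0 : ℝ) < n := by exact_mod_cast (by omega : 0 < n)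
  have hGN : (N : ℝ) ≤ G S N := by exact_mod_cast hmG N
  have hGpos : (0 : ℝ) < G S N := lt_of_lt_of_le hNpos hGN
  obtain ⟨κ, hκ⟩ : ∃ κ : ℝ, κ = (G S N : ℝ) / N := ⟨_, rfl⟩
  have hκ1 : 1 ≤ κ := by rw [hκ, le_div_iff₀ hNpos]; linarith
  have hκ0 : 0 < κ := by linarith
  have hκθ : κ ≤ C₀ * (N : ℝ) ^ θ := by
    rw [hκ, div_le_iff₀ hNpos]
    have := hG N (by omega)
    rw [Real.rpow_add hNpos, Real.rpow_one] at this
    linarith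
  have h1δ : 1 ≤ 1 + δ := by linarith
  obtain ⟨Q, hQ⟩ : ∃ Q : ℕ, Q = ⌈κ ^ (1 + δ)⌉₊ := ⟨_, rfl⟩
  have hQ1 : κ ^ (1 + δ) ≤ Q := by rw [hQ]; exact Nat.le_ceil _
  have hκδ1 : 1 ≤ κ ^ (1 + δ) := Real.one_le_rpow hκ1 (by linarith)
  have hQ2 : (Q : ℝ) ≤ 2 * κ ^ (1 + δ) := by
    have := (Nat.ceil_lt_add_one (show 0 ≤ κ ^ (1 + δ) by linarith)).le
    rw [← hQ] at this
    linarith
  have hQr : (1 : ℝ) ≤ Q := hκδ1.trans hQ1
  have hQone : 1 ≤ Q := by exact_mod_cast hQr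
  obtain ⟨x, hx⟩ : ∃ x : ℝ, x = (Q : ℝ) ^ (1 + δ) := ⟨_, rfl⟩
  have hx1 : 1 ≤ x := by rw [hx]; exact Real.one_le_rpow hQr (by linarith)
  have hxQ : (Q : ℝ) ≤ x := by
    rw [hx]
    calc (Q : ℝ) = (Q : ℝ) ^ (1 : ℝ) := (Real.rpow_one _).symm
      _ ≤ (Q : ℝ) ^ (1 + δ) := Real.rpow_le_rpow_of_exponent_le hQr h1δ
  obtain ⟨P, hP⟩ : ∃ P : ℕ, P = P₀ + ⌈x⌉₊ := ⟨_, rfl⟩
  have hxP : x ≤ P := by
    rw [hP]
    push_cast
    have := Nat.le_ceil x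
    have h0 : (0 : ℝ) ≤ P₀ := Nat.cast_nonneg _
    linarith
  have hP2 : (P : ℝ) ≤ ((P₀ : ℝ) + 2) * x := by
    rw [hP]
    push_cast
    have h0 : (0 : ℝ) ≤ P₀ := Nat.cast_nonneg _
    have := (Nat.ceil_lt_add_one (show 0 ≤ x by linarith)).le
    nlinarith
  have hx2 : x ≤ 2 ^ (1 + δ) * κ ^ ((1 + δ) ^ 2) := by
    rw [hx]
    calc (Q : ℝ) ^ (1 + δ) ≤ (2 * κ ^ (1 + δ)) ^ (1 + δ) :=
          Real.rpow_le_rpow (by linarith) hQ2 (by linarith)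
      _ = 2 ^ (1 + δ) * κ ^ ((1 + δ) ^ 2) := by
          rw [Real.mul_rpow (by norm_num) (by linarith), ← Real.rpow_mul hκ0.le]
          congr 2
          ring
  have hκ2 : κ ^ ((1 + δ) ^ 2) ≤ C₀ ^ ((1 + δ) ^ 2) * (N : ℝ) ^ lam := by
    calc κ ^ ((1 + δ) ^ 2) ≤ (C₀ * (N : ℝ) ^ θ) ^ ((1 + δ) ^ 2) :=
          Real.rpow_le_rpow hκ0.le hκθ (by positivity)
      _ = C₀ ^ ((1 + δ) ^ 2) * (N : ℝ) ^ lam := by
          rw [Real.mul_rpow (by linarith) (by positivity), ← Real.rpow_mul hNpos.le, hlam]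
  have h2pos : (0 : ℝ) < 2 ^ (1 + δ) := by positivity
  have hPB : (P : ℝ) ≤ B * (N : ℝ) ^ lam := by
    have h0 : (0 : ℝ) ≤ P₀ := Nat.cast_nonneg _
    calc (P : ℝ) ≤ ((P₀ : ℝ) + 2) * x := hP2
      _ ≤ ((P₀ : ℝ) + 2) * (2 ^ (1 + δ) * (C₀ ^ ((1 + δ) ^ 2) * (N : ℝ) ^ lam)) := by
          refine mul_le_mul_of_nonneg_left ?_ (by linarith)
          exact hx2.trans (mul_le_mul_of_nonneg_left hκ2 h2pos.le)
      _ = B * (N : ℝ) ^ lam := by rw [hB]; ring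
  have hPn' : (P : ℝ) ≤ N / 4 := by
    have h4 := hN₁ N hNN₁
    have h5 : (N : ℝ) ^ (1 - lam) * (N : ℝ) ^ lam = N := by
      rw [← Real.rpow_add hNpos]
      simp
    have h6 : (0 : ℝ) < (N : ℝ) ^ lam := by positivity
    nlinarith
  have hnN : (N : ℝ) / 4 ≤ n := by
    have : (N : ℝ) ≤ 2 * n + 1 := by exact_mod_cast hn4
    have h4 : (2 : ℝ) ≤ n := by exact_mod_cast hn2
    linarith
  have hPnr : (P : ℝ) ≤ n := hPn'.trans hnN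
  have hPn : P ≤ n := by exact_mod_cast hPnr
  have hQn : Q ≤ n := by
    have : (Q : ℝ) ≤ n := hxQ.trans (hxP.trans hPnr)
    exact_mod_cast this
  have hlow := hL N n Q hn2 hn3 hn4 hrec hQone hQn (by rw [← hκ]; exact hQ1)
  have hup := hY N n P Q (by omega) hQone (by rw [← hx]; exact hxP) hPn hn3 hn4 hrec (by
    have h4 : κ ≤ κ ^ (1 + δ) := by
      calc κ = κ ^ (1 : ℝ) := (Real.rpow_one _).symm
        _ ≤ κ ^ (1 + δ) := Real.rpow_le_rpow_of_exponent_le hκ1 h1δ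
    have h5 : κ ≤ Q := h4.trans hQ1
    rwa [hκ, div_le_iff₀ hNpos] at h5)
  have h5 := le_of_mul_le_mul_left (hlow.trans hup) hnpos
  have hPr1 : (1 : ℝ) ≤ P := hx1.trans hxP
  have hPpos : (0 : ℝ) < P := by linarith
  have hP1 : 1 ≤ P := by exact_mod_cast hPr1
  have hGP : Real.log (G S P) ≤ Real.log C₀ + (1 + θ) * Real.log P := by
    have h6 := hG P hP1
    have h7 : (0 : ℝ) < G S P := by
      have : (P : ℝ) ≤ G S P := by exact_mod_cast hmG P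
      linarith
    have h8 := Real.log_le_log h7 h6
    rwa [Real.log_mul (by positivity) (by positivity), Real.log_rpow hPpos] at h8
  have hlogP : Real.log P ≤ Real.log ((P₀ : ℝ) + 2) + (1 + δ) * Real.log 2 +
      (1 + δ) ^ 2 * Real.log κ := by
    have h0 : (0 : ℝ) < (P₀ : ℝ) + 2 := by positivity
    have h6 : (P : ℝ) ≤ ((P₀ : ℝ) + 2) * (2 ^ (1 + δ) * κ ^ ((1 + δ) ^ 2)) :=
      hP2.trans (mul_le_mul_of_nonneg_left hx2 h0.le)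
    have h7 := Real.log_le_log hPpos h6
    rw [Real.log_mul (by positivity) (by positivity), Real.log_mul (by positivity) (by positivity),
      Real.log_rpow (by norm_num), Real.log_rpow hκ0] at h7
    linarith
  have hXN : Real.log κ = Real.log (G S N) - Real.log N := by
    rw [hκ, Real.log_div hGpos.ne' hNpos.ne']
  have hfin : (1 - lam) * Real.log κ ≤ C₃ := by
    have h6 : Real.log κ ≤ C₁ + C₂ + (Real.log C₀ + θ * Real.log P) := by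
      rw [hXN]
      linarith
    have h7 := mul_le_mul_of_nonneg_left hlogP hθ0.le
    rw [hC₃, hlam]
    linarith
  have hfin2 : Real.log κ ≤ C₃ / (1 - lam) := by
    rw [le_div_iff₀ (by linarith)]
    linarith
  have hfin3 : κ ≤ Real.exp (C₃ / (1 - lam)) := by
    rw [← Real.log_le_iff_le_exp hκ0]
    exact hfin2
  rwa [hκ, div_le_iff₀ hNpos] at hfin3

end Pool.Agent.Work.MP_b29d7f_half
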