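import Pool.Agent.Work.MP_b29d7f_half.Tools

/-!
# Block CLS: residue classes and pairs
-/

namespace Pool.Agent.Work.MP_b29d7f_half

open Finset
open Pool.Agent.Work.MP_b29d7f_nt (IsPOrdering HasSimultaneousOrdering PosUpperBanachDensity
  PS vd ld tv vd_comm vd_nonneg PS_nonneg)

/-- Cauchy-Schwarz over the residue classes -/
theorem cls_cs (W : Finset ℤ) (p : ℕ) :
    (W.card : ℝ) ^ 2 ≤ ((W.image fun x => x % (p : ℤ)).card : ℝ) * prs p W := by
  classical
  set f : ℤ → ℤ := fun x => x % (p : ℤ) with hf
  set I := W.image f with hI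
  have h1 : (W.card : ℝ) = ∑ c ∈ I, ((W.filter fun x => f x = c).card : ℝ) := by
    have := card_eq_sum_card_image f W
    rw [this]
    push_cast
    rfl
  have h2 : (prs p W : ℝ) = ∑ c ∈ I, ((W.filter fun x => f x = c).card : ℝ) ^ 2 := by
    have h3 : (prs p W : ℝ) = ∑ x ∈ W, ((W.filter fun y => f y = f x).card : ℝ) := by
      unfold prs
      rw [card_filter, sum_product]
      push_cast
      refine sum_congr rfl fun x _ => ?_
      rw [card_filter]
      push_cast
      refine sum_congr rfl fun y _ => ?_
      refine if_congr ?_ rfl rfl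
      constructor
      · intro h
        exact (Int.modEq_iff_dvd.mpr h : y ≡ x [ZMOD p])
      · intro h
        exact (Int.modEq_iff_dvd.mp (h : y ≡ x [ZMOD p]))
    rw [h3, ← sum_fiberwise_of_maps_to (g := f) (t := I) (fun x hx => mem_image_of_mem f hx)]
    refine sum_congr rfl fun c _ => ?_
    have h4 : ∀ x ∈ W.filter (fun x => f x = c),
        ((W.filter fun y => f y = f x).card : ℝ) = ((W.filter fun x => f x = c).card : ℝ) := by
      intro x hx
      rw [mem_filter] at hx
      rw [hx.2]
    rw [sum_congr rfl h4, sum_const, nsmul_eq_mul, sq]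
  rw [h1, h2]
  exact sq_sum_le_card_mul_sum_sq

theorem stmt_CLS (hV : Stmt_VDM) : Stmt_CLS := by
  classical
  refine ⟨?_, ?_⟩
  · intro W p hp
    refine (cls_cs W p).trans ?_
    refine mul_le_mul_of_nonneg_right ?_ (Nat.cast_nonneg _)
    have h1 : (W.image fun x => x % (p : ℤ)) ⊆ Ico (0 : ℤ) p := by
      intro c hc
      rw [mem_image] at hc
      obtain ⟨x, _, rfl⟩ := hc
      rw [mem_Ico]
      have hp' : (0 : ℤ) < p := by exact_mod_cast hp
      exact ⟨Int.emod_nonneg _ hp'.ne', Int.emod_lt_of_pos _ hp'⟩
    have h2 := card_le_card h1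
    rw [Int.card_Ico] at h2
    have h3 : (W.image fun x => x % (p : ℤ)).card ≤ p := by omega
    exact_mod_cast h3
  · intro S a hO p hp n W hW hne
    by_cases hc : n ≤ (W.image fun x => x % (p : ℤ)).card
    · exfalso
      apply hne
      obtain ⟨J, hJ, hJn⟩ := exists_subset_card_eq hc
      have hex : ∀ c ∈ J, ∃ x ∈ W, x % (p : ℤ) = c := by
        intro c hc
        have := hJ hc
        rw [mem_image] at this
        exact this
      choose! g hgW hg using hex
      have hinj : Set.InjOn g (J : Set ℤ) := by
        intro c hc d hd hcd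
        rw [← hg c hc, ← hg d hd, hcd]
      have hcard : (J.image g).card = n := by
        rw [card_image_of_injOn hinj, hJn]
      have hsub : ((J.image g : Finset ℤ) : Set ℤ) ⊆ S := by
        intro x hx
        rw [mem_coe, mem_image] at hx
        obtain ⟨c, hc, rfl⟩ := hx
        exact hW (hgW c hc)
      have h0 : PS (vd p) (J.image g) = 0 := by
        unfold PS
        refine sum_eq_zero fun x hx => sum_eq_zero fun y hy => ?_
        rw [mem_filter] at hy
        obtain ⟨hy, hlt⟩ := hy
        rw [mem_image] at hx hy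
        obtain ⟨c, hc, rfl⟩ := hx
        obtain ⟨d, hd, rfl⟩ := hy
        unfold vd
        have hnd : ¬ ((p : ℤ) ∣ g c - g d) := by
          intro hdvd
          have h5 : g d ≡ g c [ZMOD p] := Int.modEq_iff_dvd.mpr hdvd
          have h6 : g d % (p : ℤ) = g c % p := h5
          rw [hg c hc, hg d hd] at h6
          rw [h6] at hlt
          exact lt_irrefl _ hlt
        rw [multiplicity_eq_zero.mpr hnd]
        simp
      have h1 := hV S a hO p hp (J.image g) hsub
      rw [hcard, h0] at h1
      exact le_antisymm h1 (PS_nonneg fun x _ y _ => vd_nonneg p x y)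
    · push Not at hc
      refine (cls_cs W p).trans ?_
      refine mul_le_mul_of_nonneg_right ?_ (Nat.cast_nonneg _)
      exact_mod_cast hc.le

end Pool.Agent.Work.MP_b29d7f_half
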