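import Pool.Agent.Work.MP_b29d7f_half.Tools

/-!
# Block EARLYU
-/

namespace Pool.Agent.Work.MP_b29d7f_half

open Finset
open Pool.Agent.Work.MP_b29d7f_nt (PS vd ld PS_product PS_vd_ge PS_nonneg vd_nonneg
  mertens_lower_all mertens_upper)

theorem fac_ge {p : ℕ} (hp : p.Prime) (k : ℕ) :
    (k : ℝ) / p - 1 ≤ (k.factorial.factorization p : ℝ) := by
  have hppos : (0 : ℝ) < p := by exact_mod_cast hp.pos
  have h1 : k / p ≤ k.factorial.factorization p := by
    rw [← Nat.Prime.pow_dvd_iff_le_factorization hp (Nat.factorial_ne_zero k),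
      Nat.Prime.pow_dvd_factorial_iff hp (b := Nat.log p k + 2) (by omega)]
    calc k / p = k / p ^ 1 := by rw [pow_one]
      _ ≤ _ := Finset.single_le_sum (f := fun i => k / p ^ i) (fun _ _ => Nat.zero_le _)
          (Finset.mem_Ico.mpr ⟨le_rfl, by omega⟩)
  have h2 : (k : ℝ) / p ≤ ((k / p : ℕ) : ℝ) + 1 := by
    rw [div_le_iff₀ hppos]
    have h2 : k < (k / p + 1) * p := by
      have := Nat.div_add_mod k p
      have := Nat.mod_lt k hp.pos
      nlinarith
    have h3 : (k : ℝ) < (((k / p : ℕ) : ℝ) + 1) * p := by exact_mod_cast h2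
    exact h3.le
  have h3 : ((k / p : ℕ) : ℝ) ≤ (k.factorial.factorization p : ℝ) := by exact_mod_cast h1
  linarith

theorem PS_vd_lower {p : ℕ} (hp : p.Prime) (X : Finset ℤ) :
    (X.card : ℝ) * (X.card - 1) / 2 / p - X.card ≤ PS (vd p) X := by
  refine le_trans ?_ (PS_vd_ge hp X)
  refine le_trans (le_of_eq ?_) (Finset.sum_le_sum fun k _ => fac_ge hp k)
  rw [Finset.sum_sub_distrib, ← Finset.sum_div, Finset.sum_const, Finset.card_range, nsmul_eq_mul,
    mul_one]
  have h : ∀ n : ℕ, ∑ i ∈ range n, (i : ℝ) = (n : ℝ) * (n - 1) / 2 := by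
    intro n
    induction n with
    | zero => simp
    | succ n ih => rw [Finset.sum_range_succ, ih]; push_cast; ring
  rw [h]

theorem stmt_EARLYU : Stmt_EARLYU := by
  classical
  obtain ⟨C₀, hC₀, hM⟩ := mertens_lower_all
  have hl4 : 0 < Real.log 4 := Real.log_pos (by norm_num)
  refine ⟨C₀ + 1 + 4 * Real.log 4, fun X Q hQ hQX => ?_⟩
  set P := X.card with hP
  have hP1 : 1 ≤ P := hQ.trans hQX
  have hPr : (1 : ℝ) ≤ P := by exact_mod_cast hP1
  set s : Finset ℕ := P.primesLE ∪ X.biUnion fun x => X.biUnion fun y => (x - y).natAbs.primeFactors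
    with hs
  have hsp : ∀ p ∈ s, p.Prime := by
    intro p hp
    rw [hs, Finset.mem_union] at hp
    rcases hp with h | h
    · exact Nat.prime_of_mem_primesLE h
    · simp only [Finset.mem_biUnion] at h
      obtain ⟨x, _, y, _, h⟩ := h
      exact Nat.prime_of_mem_primeFactors h
  have hprod := PS_product X s hsp (by
    intro x hx y hy hxy p hp hm
    rw [hs, Finset.mem_union]
    right
    simp only [Finset.mem_biUnion]
    refine ⟨x, hx, y, hy, ?_⟩
    rw [Nat.mem_primeFactors]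
    refine ⟨hp, ?_, ?_⟩
    · have : (p : ℤ) ∣ x - y := by
        by_contra h
        exact hm (multiplicity_eq_zero.mpr h)
      exact Int.natCast_dvd.mp this
    · simpa using sub_ne_zero.mpr hxy)
  have hQP : Q.primesLE ⊆ P.primesLE := by
    intro p hp
    rw [Nat.mem_primesLE] at hp ⊢
    exact ⟨hp.1.trans hQX, hp.2⟩
  have hterm : ∀ p ∈ s, 0 ≤ PS (vd p) X * Real.log p := by
    intro p hp
    refine mul_nonneg (PS_nonneg fun _ _ _ _ => vd_nonneg p _ _) (Real.log_nonneg ?_)
    exact_mod_cast (hsp p hp).one_lt.le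
  have h1 : ∑ p ∈ Q.primesLE, PS (vd p) X * Real.log p +
      ∑ p ∈ P.primesLE \ Q.primesLE, PS (vd p) X * Real.log p ≤ PS ld X := by
    rw [hprod, add_comm, Finset.sum_sdiff hQP]
    exact Finset.sum_le_sum_of_subset_of_nonneg (by rw [hs]; exact Finset.subset_union_left)
      fun p hp _ => hterm p hp
  -- the large primes
  have htheta : ∑ p ∈ P.primesLE \ Q.primesLE, Real.log p ≤ Real.log 4 * P := by
    refine (Finset.sum_le_sum_of_subset_of_nonneg (t := P.primesLE) Finset.sdiff_subset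
      fun p hp _ => Real.log_nonneg (by
        exact_mod_cast (Nat.prime_of_mem_primesLE hp).one_lt.le)).trans ?_
    rw [← Chebyshev.theta_eq_sum_primesLE_log]
    exact Chebyshev.theta_le_log4_mul_x (Nat.cast_nonneg P)
  have hm1 : ∑ p ∈ P.primesLE \ Q.primesLE, Real.log p / p + ∑ p ∈ Q.primesLE, Real.log p / p =
      ∑ p ∈ P.primesLE, Real.log p / p := Finset.sum_sdiff hQP
  have hm2 := hM P hP1
  have hm3 := mertens_upper Q hQ
  have hm4 := mertens_upper P hP1
  have hm5 : 0 ≤ ∑ p ∈ Q.primesLE, Real.log p / p := Finset.sum_nonneg fun p hp => by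
    have := (Nat.prime_of_mem_primesLE hp).one_lt.le
    exact div_nonneg (Real.log_nonneg (by exact_mod_cast this)) (Nat.cast_nonneg _)
  have h2 : (P : ℝ) * (P - 1) / 2 * ∑ p ∈ P.primesLE \ Q.primesLE, Real.log p / p -
      P * ∑ p ∈ P.primesLE \ Q.primesLE, Real.log p ≤
      ∑ p ∈ P.primesLE \ Q.primesLE, PS (vd p) X * Real.log p := by
    rw [Finset.mul_sum, Finset.mul_sum, ← Finset.sum_sub_distrib]
    refine Finset.sum_le_sum fun p hp => ?_
    have hpp : p.Prime := Nat.prime_of_mem_primesLE (Finset.mem_sdiff.mp hp).1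
    have hlog : 0 ≤ Real.log p := Real.log_nonneg (by exact_mod_cast hpp.one_lt.le)
    have := mul_le_mul_of_nonneg_right (PS_vd_lower hpp X) hlog
    refine le_trans (le_of_eq ?_) this
    rw [← hP]
    ring
  have hlogP : Real.log P ≤ P := (Real.log_le_sub_one_of_pos (by linarith)).trans (by linarith)
  set M := ∑ p ∈ P.primesLE \ Q.primesLE, Real.log p / p with hMd
  set Θ := ∑ p ∈ P.primesLE \ Q.primesLE, Real.log p
  have h3 : Real.log P - Real.log Q - C₀ - Real.log 4 ≤ M := by linarith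
  have h4 : M ≤ P + Real.log 4 := by linarith
  have h5 : 2 * ∑ p ∈ Q.primesLE, Real.log p * PS (vd p) X =
      2 * ∑ p ∈ Q.primesLE, PS (vd p) X * Real.log p := by
    congr 1
    exact Finset.sum_congr rfl fun p _ => mul_comm _ _
  rw [h5]
  have h6 : (P : ℝ) * Θ ≤ P * (Real.log 4 * P) := mul_le_mul_of_nonneg_left htheta (by linarith)
  have h7 : (P : ℝ) * M ≤ P * (P + Real.log 4) := mul_le_mul_of_nonneg_left h4 (by linarith)
  have h8 : (P : ℝ) ^ 2 * (Real.log P - Real.log Q - C₀ - Real.log 4) ≤ P ^ 2 * M :=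
    mul_le_mul_of_nonneg_left h3 (by positivity)
  have h9 : (P : ℝ) * Real.log 4 ≤ P ^ 2 * Real.log 4 :=
    mul_le_mul_of_nonneg_right (by nlinarith) hl4.le
  nlinarith [h1, h2]

end Pool.Agent.Work.MP_b29d7f_half
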