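import Pool.Agent.Work.MP_b29d7f_half.Tools

/-!
# Block GBAS: basic properties of `G`
-/

namespace Pool.Agent.Work.MP_b29d7f_half

open Finset

theorem InWin.mono {X Y : Finset ℤ} {L : ℕ} (h : InWin Y L) (hXY : X ⊆ Y) : InWin X L := by
  obtain ⟨u, hu⟩ := h
  exact ⟨u, fun x hx => hu x (hXY hx)⟩

theorem InWin.card_le {X : Finset ℤ} {L : ℕ} (h : InWin X L) : X.card ≤ L := by
  obtain ⟨u, hu⟩ := h
  have h1 : X ⊆ Finset.Ico u (u + L) := fun x hx => Finset.mem_Ico.mpr (hu x hx)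
  have h2 := Finset.card_le_card h1
  rw [Int.card_Ico] at h2
  simpa using h2

theorem exists_inWin (X : Finset ℤ) : ∃ L : ℕ, InWin X L := by
  classical
  rcases X.eq_empty_or_nonempty with rfl | hne
  · exact ⟨0, 0, fun x hx => absurd hx (Finset.notMem_empty x)⟩
  · refine ⟨(X.max' hne - X.min' hne + 1).toNat, X.min' hne, fun x hx => ?_⟩
    have h1 := X.min'_le x hx
    have h2 := X.le_max' x hx
    refine ⟨h1, ?_⟩
    rw [Int.toNat_of_nonneg (by linarith)]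
    linarith

theorem stmt_GBAS : Stmt_GBAS := by
  intro S hS
  have hne : ∀ m : ℕ, {L : ℕ | ∃ W : Finset ℤ, (W : Set ℤ) ⊆ S ∧ W.card = m ∧ InWin W L}.Nonempty := by
    intro m
    obtain ⟨W, hW, hWc⟩ := hS.exists_subset_card_eq m
    obtain ⟨L, hL⟩ := exists_inWin W
    exact ⟨L, W, hW, hWc, hL⟩
  have h1 : ∀ m : ℕ, ∃ W : Finset ℤ, (W : Set ℤ) ⊆ S ∧ W.card = m ∧ InWin W (G S m) :=
    fun m => Nat.sInf_mem (hne m)
  have h2 : ∀ (X : Finset ℤ) (L : ℕ), (X : Set ℤ) ⊆ S → InWin X L → G S X.card ≤ L :=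
    fun X L hX hL => Nat.sInf_le ⟨X, hX, rfl, hL⟩
  refine ⟨h1, h2, ?_, ?_⟩
  · intro m n hmn
    obtain ⟨W, hW, hWc, hWin⟩ := h1 n
    obtain ⟨V, hV, hVc⟩ := Finset.exists_subset_card_eq (s := W) (n := m) (by omega)
    have h3 := h2 V (G S n) ((Finset.coe_subset.mpr hV).trans hW) (hWin.mono hV)
    rwa [hVc] at h3
  · intro m
    obtain ⟨W, hW, hWc, hWin⟩ := h1 m
    rw [← hWc]
    conv_rhs => rw [hWc]
    exact hWin.card_le

end Pool.Agent.Work.MP_b29d7f_half
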