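import Pool.Agent.Work.MP_b29d7f_half.Interface

/-!
# GROW: the hypothesis in terms of `G`
-/

namespace Pool.Agent.Work.MP_b29d7f_half

open Finset

theorem stmt_GROW : Stmt_GROW := by
  intro S hS
  obtain ⟨ε, hε, L₀, hL⟩ := hS
  refine ⟨?_, ?_⟩
  · intro hfin
    have h1 : Filter.Tendsto (fun L : ℕ => (L : ℝ) ^ (1 / 2 + ε)) Filter.atTop Filter.atTop :=
      (tendsto_rpow_atTop (by positivity)).comp tendsto_natCast_atTop_atTop
    obtain ⟨L, hL1, hL2⟩ := ((Filter.eventually_ge_atTop L₀).and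
      (h1.eventually_gt_atTop (S.ncard : ℝ))).exists
    obtain ⟨x, hx⟩ := hL L hL1
    have h2 : (S ∩ Set.Ico x (x + L)).ncard ≤ S.ncard :=
      Set.ncard_le_ncard Set.inter_subset_left hfin
    have h3 : ((S ∩ Set.Ico x (x + L)).ncard : ℝ) ≤ (S.ncard : ℝ) := by exact_mod_cast h2
    linarith
  · have hm0 : 0 < min ε (1 / 4) := lt_min hε (by norm_num)
    have hm1 : min ε (1 / 4) ≤ ε := min_le_left _ _
    have hm2 : min ε (1 / 4) ≤ 1 / 4 := min_le_right _ _
    obtain ⟨α, hα⟩ : ∃ α : ℝ, α = 1 / 2 + min ε (1 / 4) := ⟨_, rfl⟩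
    have hα1 : 1 / 2 < α := by rw [hα]; linarith
    have hα2 : α ≤ 3 / 4 := by rw [hα]; linarith
    have hα3 : α ≤ 1 / 2 + ε := by rw [hα]; linarith
    have hα0 : 0 < α := by linarith
    have hinv1 : 1 < 1 / α := by
      rw [lt_div_iff₀ hα0]; linarith
    have hinv2 : 1 / α < 2 := by
      rw [div_lt_iff₀ hα0]; linarith
    refine ⟨1 / α - 1, (L₀ : ℝ) + 3, by linarith, by linarith, ?_, ?_⟩
    · have : (0 : ℝ) ≤ L₀ := Nat.cast_nonneg _
      linarith
    · intro m hm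
      have hmR : (1 : ℝ) ≤ m := by exact_mod_cast hm
      have hm0 : (0 : ℝ) < m := by linarith
      have he : 1 + (1 / α - 1) = 1 / α := by ring
      rw [he]
      obtain ⟨L, hLdef⟩ : ∃ L : ℕ, L = max (max L₀ 1) ⌈(m : ℝ) ^ (1 / α)⌉₊ := ⟨_, rfl⟩
      have hLL₀ : L₀ ≤ L := by
        rw [hLdef]; exact le_trans (le_max_left _ _) (le_max_left _ _)
      have hL1 : 1 ≤ L := by
        rw [hLdef]; exact le_trans (le_max_right _ _) (le_max_left _ _)
      have hLm : (m : ℝ) ^ (1 / α) ≤ L := by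
        have h1 : ⌈(m : ℝ) ^ (1 / α)⌉₊ ≤ L := by rw [hLdef]; exact le_max_right _ _
        exact le_trans (Nat.le_ceil _) (by exact_mod_cast h1)
      have hL1R : (1 : ℝ) ≤ L := by exact_mod_cast hL1
      obtain ⟨x, hx⟩ := hL L hLL₀
      have h2 : (m : ℝ) ≤ (L : ℝ) ^ (1 / 2 + ε) := by
        calc (m : ℝ) = ((m : ℝ) ^ (1 / α)) ^ α := by
              rw [← Real.rpow_mul hm0.le, one_div_mul_cancel hα0.ne', Real.rpow_one]
          _ ≤ (L : ℝ) ^ α := Real.rpow_le_rpow (by positivity) hLm hα0.le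
          _ ≤ (L : ℝ) ^ (1 / 2 + ε) := Real.rpow_le_rpow_of_exponent_le hL1R hα3
      have h3 : m ≤ (S ∩ Set.Ico x (x + L)).ncard := by exact_mod_cast h2.trans hx
      have hfin : (S ∩ Set.Ico x (x + L)).Finite :=
        (Set.finite_Ico x (x + L)).subset Set.inter_subset_right
      rw [Set.ncard_eq_toFinset_card _ hfin] at h3
      obtain ⟨W, hW, hWc⟩ := Finset.exists_subset_card_eq h3
      have hWS : ∀ y ∈ W, y ∈ S ∧ x ≤ y ∧ y < x + L := by
        intro y hy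
        have := hW hy
        rw [Set.Finite.mem_toFinset] at this
        exact ⟨this.1, this.2.1, this.2.2⟩
      have h4 : G S m ≤ L := by
        apply Nat.sInf_le
        exact ⟨W, fun y hy => (hWS y hy).1, hWc, x, fun y hy => (hWS y hy).2⟩
      have h5 : (L : ℝ) ≤ ((L₀ : ℝ) + 3) * (m : ℝ) ^ (1 / α) := by
        have h6 : (1 : ℝ) ≤ (m : ℝ) ^ (1 / α) := Real.one_le_rpow hmR (by positivity)
        have h7 : (⌈(m : ℝ) ^ (1 / α)⌉₊ : ℝ) ≤ (m : ℝ) ^ (1 / α) + 1 :=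
          (Nat.ceil_lt_add_one (by positivity)).le
        have h8 : (L : ℝ) ≤ L₀ + 1 + ⌈(m : ℝ) ^ (1 / α)⌉₊ := by
          have : L ≤ L₀ + 1 + ⌈(m : ℝ) ^ (1 / α)⌉₊ := by
            rw [hLdef]
            omega
          exact_mod_cast this
        have h9 : (0 : ℝ) ≤ L₀ := Nat.cast_nonneg _
        nlinarith
      calc (G S m : ℝ) ≤ L := by exact_mod_cast h4
        _ ≤ _ := h5

end Pool.Agent.Work.MP_b29d7f_half
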