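import Pool.Agent.Work.MP_b29d7f_half.Interface

/-!
# The high prime powers
-/

namespace Pool.Agent.Work.MP_b29d7f_half

open Finset
open Pool.Agent.Work.MP_b29d7f_nt (IsPOrdering HasSimultaneousOrdering PosUpperBanachDensity
  PS vd ld tv)

/-- level decomposition of the valuation beyond the truncation -/
theorem high_levels {p : ℕ} (hp : p.Prime) (J D : ℕ) (z y : ℤ) (hne : z ≠ y)
    (hD : |z - y| ≤ (D : ℤ)) :
    vd p z y - (tv p J (z - y) : ℝ) =
      (((range D).filter fun t => (p : ℤ) ^ (J + 1 + t) ∣ z - y).card : ℝ) := by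
  have hx : z - y ≠ 0 := sub_ne_zero.mpr hne
  have hfin : FiniteMultiplicity (p : ℤ) (z - y) := by
    rw [Int.finiteMultiplicity_iff]
    exact ⟨by simpa using hp.ne_one, hx⟩
  set v := multiplicity (p : ℤ) (z - y) with hv
  have hiff : ∀ k : ℕ, (p : ℤ) ^ k ∣ z - y ↔ k ≤ v := fun k =>
    hfin.pow_dvd_iff_le_multiplicity
  have hvD : v ≤ D := by
    have h1 : (p : ℤ) ^ v ∣ z - y := (hiff v).mpr le_rfl
    have h2 : (p : ℤ) ^ v ≤ |z - y| := Int.le_of_dvd (abs_pos.mpr hx) ((dvd_abs _ _).mpr h1)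
    have h3 : (v : ℤ) < (p : ℤ) ^ v := by
      have : v < p ^ v := Nat.lt_pow_self hp.one_lt
      exact_mod_cast this
    omega
  have h1 : tv p J (z - y) = min J v := by
    unfold tv
    have : ((Finset.Icc 1 J).filter fun j => (p : ℤ) ^ j ∣ z - y) = Finset.Icc 1 (min J v) := by
      ext j
      rw [Finset.mem_filter, Finset.mem_Icc, Finset.mem_Icc, hiff]
      omega
    rw [this, Nat.card_Icc]
    omega
  have h2 : ((range D).filter fun t => (p : ℤ) ^ (J + 1 + t) ∣ z - y) = range (v - J) := by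
    ext t
    rw [Finset.mem_filter, Finset.mem_range, Finset.mem_range, hiff]
    omega
  rw [h2, card_range, h1]
  unfold vd
  rw [← hv]
  rcases le_total J v with h | h
  · rw [min_eq_left h, Nat.cast_sub h]
  · rw [min_eq_right h, Nat.sub_eq_zero_of_le h]
    simp

/-- nonzero multiples of `q` in a short interval -/
theorem high_near (q : ℕ) (hq : 0 < q) (z : ℤ) (B : Finset ℤ) (X : ℝ) (hX : 0 ≤ X) :
    (((B.erase z).filter fun y => (q : ℤ) ∣ z - y ∧ |((z - y : ℤ) : ℝ)| ≤ X).card : ℝ) ≤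
      2 * X / q := by
  set k : ℕ := ⌊X / q⌋₊ with hk
  have hq0 : (0 : ℝ) < q := by exact_mod_cast hq
  have hqz : (q : ℤ) ≠ 0 := by exact_mod_cast hq.ne'
  have hkle : (k : ℝ) ≤ X / q := Nat.floor_le (by positivity)
  have hcard : ((Finset.Icc (-(k : ℤ)) k).erase 0).card = 2 * k := by
    rw [Finset.card_erase_of_mem (by simp), Int.card_Icc]
    omega
  have hinj : (((B.erase z).filter fun y => (q : ℤ) ∣ z - y ∧ |((z - y : ℤ) : ℝ)| ≤ X).card) ≤
      2 * k := by
    rw [← hcard]
    refine Finset.card_le_card_of_injOn (fun y => (z - y) / (q : ℤ)) ?_ ?_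
    · intro y hy
      rw [Finset.mem_coe, Finset.mem_filter, Finset.mem_erase] at hy
      obtain ⟨⟨hyz, _⟩, ⟨c, hc⟩, hle⟩ := hy
      have hdiv : (z - y) / (q : ℤ) = c := by
        rw [hc]; exact Int.mul_ediv_cancel_left _ hqz
      rw [Finset.mem_coe]
      show (z - y) / (q : ℤ) ∈ _
      rw [hdiv, Finset.mem_erase, Finset.mem_Icc]
      have hc0 : c ≠ 0 := by
        rintro rfl
        rw [mul_zero, sub_eq_zero] at hc
        exact hyz hc.symm
      have hcabs : |(c : ℝ)| ≤ X / q := by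
        rw [le_div_iff₀ hq0]
        rw [hc] at hle
        push_cast at hle
        rw [abs_mul, abs_of_pos hq0] at hle
        linarith
      have hnat : (c.natAbs : ℝ) ≤ X / q := by
        rw [Nat.cast_natAbs]
        push_cast
        exact hcabs
      have h2 : c.natAbs ≤ k := Nat.le_floor hnat
      refine ⟨hc0, ?_, ?_⟩ <;> omega
    · intro y hy y' hy' h
      rw [Finset.mem_coe, Finset.mem_filter, Finset.mem_erase] at hy hy'
      obtain ⟨_, ⟨c, hc⟩, _⟩ := hy
      obtain ⟨_, ⟨c', hc'⟩, _⟩ := hy'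
      have h' : (z - y) / (q : ℤ) = (z - y') / (q : ℤ) := h
      rw [hc, hc', Int.mul_ediv_cancel_left _ hqz, Int.mul_ediv_cancel_left _ hqz] at h'
      rw [h'] at hc
      omega
  calc _ ≤ ((2 * k : ℕ) : ℝ) := by exact_mod_cast hinj
    _ = 2 * (k : ℝ) := by push_cast; ring
    _ ≤ 2 * (X / q) := by linarith
    _ = 2 * X / q := by ring

/-- the number of far levels -/
theorem high_far_count {c a : ℝ} (hc : 0 < c) (s : Finset ℕ) (hs : ∀ t ∈ s, (t : ℝ) * c < a) :
    (s.card : ℝ) * c ≤ max 0 (a + c) := by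
  rcases le_or_gt a 0 with ha | ha
  · have : s = ∅ := by
      rw [Finset.eq_empty_iff_forall_notMem]
      intro t ht
      have h1 := hs t ht
      have : 0 ≤ (t : ℝ) * c := by positivity
      linarith
    rw [this]
    simp
  · have hsub : s ⊆ range ⌈a / c⌉₊ := by
      intro t ht
      rw [Finset.mem_range, Nat.lt_ceil, lt_div_iff₀ hc]
      exact hs t ht
    have h1 : (s.card : ℝ) ≤ (⌈a / c⌉₊ : ℝ) := by
      have := Finset.card_le_card hsub
      rw [card_range] at this
      exact_mod_cast this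
    have h2 : (⌈a / c⌉₊ : ℝ) < a / c + 1 := Nat.ceil_lt_add_one (by positivity)
    have h3 : (s.card : ℝ) ≤ a / c + 1 := by linarith
    have h4 : (s.card : ℝ) * c ≤ (a / c + 1) * c := mul_le_mul_of_nonneg_right h3 hc.le
    have h5 : (a / c + 1) * c = a + c := by field_simp
    rw [h5] at h4
    exact h4.trans (le_max_right _ _)

/-- the geometric series -/
theorem high_geom (D : ℕ) : ∑ t ∈ range D, ((5 : ℝ) / 7) ^ t ≤ 7 / 2 := by
  rw [geom_sum_eq (by norm_num)]
  have h : 0 ≤ ((5 : ℝ) / 7) ^ D := by positivity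
  rw [div_le_iff_of_neg (by norm_num)]
  linarith

/-- far pairs: the logarithm of the ratio -/
theorem high_log_ratio {ρ g M d e : ℝ} (hρ : 0 ≤ ρ) (hg : 1 ≤ g) (hM : g ≤ M) (hMρ : 2 * ρ < M)
    (_hd : 1 ≤ d) (he : 0 ≤ e) (hde : d ≤ ρ + e) (hfar : M < d) :
    Real.log d - Real.log M ≤ 1 / 2 + max 0 (Real.log e - Real.log g) := by
  have hM0 : 0 < M := by linarith
  have he0 : 0 < e := by
    by_contra h
    have : e = 0 := le_antisymm (not_lt.mp h) he
    subst this
    linarith
  have h32 : Real.log (3 / 2) ≤ 1 / 2 := by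
    have := Real.log_le_sub_one_of_pos (show (0 : ℝ) < 3 / 2 by norm_num)
    linarith
  rcases le_or_gt e M with h | h
  · -- d ≤ (3/2) M
    have h1 : d ≤ 3 / 2 * M := by linarith
    have h2 : Real.log d ≤ Real.log (3 / 2 * M) := Real.log_le_log (by linarith) h1
    rw [Real.log_mul (by norm_num) hM0.ne'] at h2
    have := le_max_left 0 (Real.log e - Real.log g)
    linarith
  · have h1 : d ≤ 3 / 2 * e := by linarith
    have h2 : Real.log d ≤ Real.log (3 / 2 * e) := Real.log_le_log (by linarith) h1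
    rw [Real.log_mul (by norm_num) he0.ne'] at h2
    have h3 := le_max_right 0 (Real.log e - Real.log g)
    have h4 : Real.log g ≤ Real.log M := Real.log_le_log (by linarith) hM
    linarith

/-- the sum over one prime -/
theorem high_prime (Z B : Finset ℤ) (z₀ : ℤ) (ρ R : ℕ) (g : ℝ) (hg : 1 ≤ g)
    (hR : R = 2 * ρ + 1) (hZ : ∀ z ∈ Z, |z - z₀| ≤ (ρ : ℤ)) {p : ℕ} (hp : p.Prime) :
    ∑ z ∈ Z, ∑ y ∈ B.erase z,
      Real.log p * (vd p z y - (tv p (Nat.log p R) (z - y) : ℝ)) ≤
    Real.log p * (7 * Z.card * (g / R + 1)) +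
      ∑ y ∈ B, (Real.log p + 1 + 2 * max 0 (ld z₀ y - Real.log g)) := by
  classical
  set J := Nat.log p R with hJ
  have hR0 : R ≠ 0 := by omega
  have hRr : (0 : ℝ) < R := by positivity
  have hJR : R < p ^ (J + 1) := Nat.lt_pow_succ_log_self hp.one_lt R
  have hlogp : 0 < Real.log p := Real.log_pos (by exact_mod_cast hp.one_lt)
  have hp2 : (2 : ℝ) ≤ p := by exact_mod_cast hp.two_le
  set M : ℝ := max g R with hM
  have hgM : g ≤ M := le_max_left _ _
  have hRM : (R : ℝ) ≤ M := le_max_right _ _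
  have hM0 : 0 < M := by linarith
  have hMR : M / R ≤ g / R + 1 := by
    rw [div_le_iff₀ hRr]
    have : (g / R + 1) * R = g + R := by field_simp
    rw [this, hM]
    exact max_le (by linarith) (by linarith)
  -- a bound for all differences
  obtain ⟨D, hD⟩ : ∃ D : ℕ, ∀ z ∈ Z, ∀ y ∈ B, |z - y| ≤ (D : ℤ) := by
    refine ⟨∑ z ∈ Z, ∑ y ∈ B, (z - y).natAbs, fun z hz y hy => ?_⟩
    have h1 : (z - y).natAbs ≤ ∑ y ∈ B, (z - y).natAbs :=
      Finset.single_le_sum (f := fun y => (z - y).natAbs) (fun _ _ => Nat.zero_le _) hy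
    have h2 : ∑ y ∈ B, (z - y).natAbs ≤ ∑ z ∈ Z, ∑ y ∈ B, (z - y).natAbs :=
      Finset.single_le_sum (f := fun z => ∑ y ∈ B, (z - y).natAbs)
        (fun _ _ => Nat.zero_le _) hz
    rw [Int.abs_eq_natAbs]
    exact_mod_cast h1.trans h2
  -- thresholds
  let X : ℕ → ℝ := fun t => M * (Real.sqrt p) ^ t
  have hsq : Real.sqrt p * Real.sqrt p = p := Real.mul_self_sqrt (by linarith)
  have hsqpos : 0 < Real.sqrt p := Real.sqrt_pos.mpr (by linarith)
  have hsq75 : (7 : ℝ) / 5 ≤ Real.sqrt p := by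
    apply Real.le_sqrt_of_sq_le
    norm_num
    linarith
  let near : ℤ → ℤ → Finset ℕ := fun z y =>
    (range D).filter fun t => (p : ℤ) ^ (J + 1 + t) ∣ z - y ∧ |((z - y : ℤ) : ℝ)| ≤ X t
  let far : ℤ → ℤ → Finset ℕ := fun z y =>
    (range D).filter fun t => (p : ℤ) ^ (J + 1 + t) ∣ z - y ∧ ¬ |((z - y : ℤ) : ℝ)| ≤ X t
  have hsplit : ∀ z ∈ Z, ∀ y ∈ B.erase z,
      Real.log p * (vd p z y - (tv p J (z - y) : ℝ)) =
        Real.log p * ((near z y).card : ℝ) + Real.log p * ((far z y).card : ℝ) := by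
    intro z hz y hy
    rw [Finset.mem_erase] at hy
    rw [high_levels hp J D z y (Ne.symm hy.1) (hD z hz y hy.2), ← mul_add]
    congr 1
    have h1 := Finset.card_filter_add_card_filter_not (s := (range D).filter
      fun t => (p : ℤ) ^ (J + 1 + t) ∣ z - y) (fun t => |((z - y : ℤ) : ℝ)| ≤ X t)
    rw [Finset.filter_filter, Finset.filter_filter] at h1
    rw [← Nat.cast_add]
    congr 1
    exact h1.symm
  rw [Finset.sum_congr rfl fun z hz => Finset.sum_congr rfl fun y hy => hsplit z hz y hy]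
  have hadd : ∑ z ∈ Z, ∑ y ∈ B.erase z,
      (Real.log p * ((near z y).card : ℝ) + Real.log p * ((far z y).card : ℝ)) =
      ∑ z ∈ Z, ∑ y ∈ B.erase z, Real.log p * ((near z y).card : ℝ) +
      ∑ z ∈ Z, ∑ y ∈ B.erase z, Real.log p * ((far z y).card : ℝ) := by
    rw [← Finset.sum_add_distrib]
    exact Finset.sum_congr rfl fun z _ => Finset.sum_add_distrib
  rw [hadd]
  refine add_le_add ?_ ?_
  · -- near pairs
    have hone : ∀ z ∈ Z, ∑ y ∈ B.erase z, Real.log p * ((near z y).card : ℝ) ≤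
        Real.log p * (7 * (g / R + 1)) := by
      intro z _
      rw [← Finset.mul_sum]
      refine mul_le_mul_of_nonneg_left ?_ hlogp.le
      have h1 : ∑ y ∈ B.erase z, ((near z y).card : ℝ) =
          ∑ t ∈ range D, (((B.erase z).filter fun y =>
            ((p ^ (J + 1 + t) : ℕ) : ℤ) ∣ z - y ∧ |((z - y : ℤ) : ℝ)| ≤ X t).card : ℝ) := by
        simp_rw [Finset.card_filter, near, Finset.card_filter]
        push_cast
        rw [Finset.sum_comm]
      rw [h1]
      have h2 : ∀ t ∈ range D, (((B.erase z).filter fun y =>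
            ((p ^ (J + 1 + t) : ℕ) : ℤ) ∣ z - y ∧ |((z - y : ℤ) : ℝ)| ≤ X t).card : ℝ) ≤
            2 * (M / R) * (5 / 7) ^ t := by
        intro t _
        refine (high_near (p ^ (J + 1 + t)) (pow_pos hp.pos _) z B (X t) (by positivity)).trans ?_
        have hpJ : (R : ℝ) ≤ (p : ℝ) ^ (J + 1) := by exact_mod_cast hJR.le
        have e1 : ((p ^ (J + 1 + t) : ℕ) : ℝ) = (p : ℝ) ^ (J + 1) * (p : ℝ) ^ t := by
          push_cast; rw [pow_add]
        rw [e1, div_le_iff₀ (by positivity)]
        have e2 : (p : ℝ) ^ t = (Real.sqrt p) ^ t * (Real.sqrt p) ^ t := by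
          rw [← mul_pow, hsq]
        have e3 : (1 : ℝ) ≤ (5 / 7) ^ t * (Real.sqrt p) ^ t := by
          rw [← mul_pow]
          exact one_le_pow₀ (by linarith)
        have e4 : M ≤ M / R * (p : ℝ) ^ (J + 1) := by
          rw [div_mul_eq_mul_div, le_div_iff₀ hRr]
          exact mul_le_mul_of_nonneg_left hpJ hM0.le
        show 2 * (M * (Real.sqrt p) ^ t) ≤ _
        rw [e2]
        calc 2 * (M * (Real.sqrt p) ^ t) ≤ 2 * ((M / R * (p : ℝ) ^ (J + 1)) * (Real.sqrt p) ^ t) := by
              gcongr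
          _ ≤ 2 * ((M / R * (p : ℝ) ^ (J + 1)) * (Real.sqrt p) ^ t) *
              ((5 / 7) ^ t * (Real.sqrt p) ^ t) := le_mul_of_one_le_right (by positivity) e3
          _ = _ := by ring
      refine (Finset.sum_le_sum h2).trans ?_
      rw [← Finset.mul_sum]
      have h3 := high_geom D
      have h4 : 0 ≤ M / R := by positivity
      calc 2 * (M / R) * ∑ t ∈ range D, ((5 : ℝ) / 7) ^ t ≤ 2 * (M / R) * (7 / 2) := by gcongr
        _ = 7 * (M / R) := by ring
        _ ≤ 7 * (g / R + 1) := by linarith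
    refine (Finset.sum_le_sum hone).trans ?_
    rw [Finset.sum_const, nsmul_eq_mul]
    apply le_of_eq
    ring
  · -- far pairs
    have hcomm : ∑ z ∈ Z, ∑ y ∈ B.erase z, Real.log p * ((far z y).card : ℝ) =
        ∑ y ∈ B, ∑ z ∈ Z.erase y, Real.log p * ((far z y).card : ℝ) := by
      refine Finset.sum_comm' fun z y => ?_
      simp only [Finset.mem_erase]
      constructor
      · rintro ⟨h1, h2, h3⟩; exact ⟨⟨h2.symm, h1⟩, h3⟩
      · rintro ⟨⟨h1, h2⟩, h3⟩; exact ⟨h2, h1.symm, h3⟩
    rw [hcomm]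
    refine Finset.sum_le_sum fun y hy => ?_
    set bound : ℝ := Real.log p + 1 + 2 * max 0 (ld z₀ y - Real.log g) with hbound
    have hb0 : 0 ≤ bound := by
      have := le_max_left 0 (ld z₀ y - Real.log g)
      rw [hbound]; linarith
    -- only one z matters
    have hsub : ∑ z ∈ Z.erase y, Real.log p * ((far z y).card : ℝ) =
        ∑ z ∈ (Z.erase y).filter (fun z => (p : ℤ) ^ (J + 1) ∣ z - y),
          Real.log p * ((far z y).card : ℝ) := by
      symm
      refine Finset.sum_subset (Finset.filter_subset _ _) fun z hz hnz => ?_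
      have h1 : ¬ (p : ℤ) ^ (J + 1) ∣ z - y := fun h => hnz (Finset.mem_filter.mpr ⟨hz, h⟩)
      have h2 : far z y = ∅ := by
        rw [Finset.eq_empty_iff_forall_notMem]
        intro t ht
        rw [Finset.mem_filter] at ht
        exact h1 ((pow_dvd_pow _ (by omega)).trans ht.2.1)
      rw [h2]
      simp
    rw [hsub]
    have hcard : ((Z.erase y).filter (fun z => (p : ℤ) ^ (J + 1) ∣ z - y)).card ≤ 1 := by
      rw [Finset.card_le_one]
      intro z hz z' hz'
      rw [Finset.mem_filter, Finset.mem_erase] at hz hz'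
      by_contra hne
      have h1 : (p : ℤ) ^ (J + 1) ∣ z - z' := by
        have := dvd_sub hz.2 hz'.2
        simpa using this
      have h2 : (p : ℤ) ^ (J + 1) ≤ |z - z'| :=
        Int.le_of_dvd (abs_pos.mpr (sub_ne_zero.mpr hne)) ((dvd_abs _ _).mpr h1)
      have h3 := hZ z hz.1.2
      have h4 := hZ z' hz'.1.2
      have h5 : (R : ℤ) < (p : ℤ) ^ (J + 1) := by exact_mod_cast hJR
      rw [abs_le] at h3 h4
      have h6 : |z - z'| ≤ 2 * ρ := by
        rw [abs_le]; constructor <;> omega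
      omega
    have hterm : ∀ z ∈ (Z.erase y).filter (fun z => (p : ℤ) ^ (J + 1) ∣ z - y),
        Real.log p * ((far z y).card : ℝ) ≤ bound := by
      intro z hz
      rw [Finset.mem_filter, Finset.mem_erase] at hz
      obtain ⟨⟨hzy, hzZ⟩, _⟩ := hz
      set d : ℝ := |((z - y : ℤ) : ℝ)| with hd
      have hd1 : 1 ≤ d := by
        have : (1 : ℤ) ≤ |z - y| := Int.one_le_abs (sub_ne_zero.mpr hzy)
        rw [hd, ← Int.cast_abs]
        exact_mod_cast this
      have hc : 0 < Real.log p / 2 := by linarith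
      have hs : ∀ t ∈ far z y, (t : ℝ) * (Real.log p / 2) < Real.log d - Real.log M := by
        intro t ht
        rw [Finset.mem_filter] at ht
        have h1 : M * (Real.sqrt p) ^ t < d := not_le.mp ht.2.2
        have h2 : Real.log (M * (Real.sqrt p) ^ t) < Real.log d :=
          Real.log_lt_log (by positivity) h1
        rw [Real.log_mul hM0.ne' (by positivity), Real.log_pow, Real.log_sqrt (by linarith)] at h2
        linarith
      have h1 := high_far_count hc (far z y) hs
      rcases Finset.eq_empty_or_nonempty (far z y) with he | ⟨t, ht⟩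
      · rw [he]; simpa using hb0
      · have hfar : M < d := by
          have h2 := hs t ht
          have h3 : 0 ≤ (t : ℝ) * (Real.log p / 2) := by positivity
          have h4 : Real.log M < Real.log d := by linarith
          exact (Real.log_lt_log_iff hM0 (by linarith)).mp h4
        have hρM : 2 * (ρ : ℝ) < M := by
          have : (R : ℝ) = 2 * ρ + 1 := by rw [hR]; push_cast; ring
          linarith
        have hde : d ≤ (ρ : ℝ) + |((z₀ - y : ℤ) : ℝ)| := by
          have h3 := hZ z hzZ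
          have h4 : |((z - z₀ : ℤ) : ℝ)| ≤ ρ := by
            rw [← Int.cast_abs]
            exact_mod_cast h3
          have h5 : ((z - y : ℤ) : ℝ) = ((z - z₀ : ℤ) : ℝ) + ((z₀ - y : ℤ) : ℝ) := by
            push_cast; ring
          rw [hd, h5]
          exact (abs_add_le _ _).trans (by linarith)
        have h2 := high_log_ratio (Nat.cast_nonneg ρ) hg hgM hρM hd1 (abs_nonneg _) hde hfar
        have h3 : max 0 (Real.log d - Real.log M + Real.log p / 2) =
            Real.log d - Real.log M + Real.log p / 2 := by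
          apply max_eq_right
          have : Real.log M < Real.log d := Real.log_lt_log hM0 hfar
          linarith
        rw [h3] at h1
        have h4 : ld z₀ y = Real.log |((z₀ - y : ℤ) : ℝ)| := rfl
        rw [hbound, h4]
        linarith
    calc ∑ z ∈ (Z.erase y).filter (fun z => (p : ℤ) ^ (J + 1) ∣ z - y),
          Real.log p * ((far z y).card : ℝ)
        ≤ (((Z.erase y).filter (fun z => (p : ℤ) ^ (J + 1) ∣ z - y)).card : ℝ) * bound := by
          rw [← nsmul_eq_mul]
          exact Finset.sum_le_card_nsmul _ _ _ hterm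
      _ ≤ 1 * bound := by
          refine mul_le_mul_of_nonneg_right ?_ hb0
          exact_mod_cast hcard
      _ = bound := one_mul _

theorem stmt_HIGH : Stmt_HIGH := by
  classical
  intro Z B z₀ ρ R Q g T hg hR hZ hz₀ hT
  have hθ : ∑ p ∈ Q.primesLE, Real.log p ≤ 3 / 2 * Q := by
    have h1 := Chebyshev.theta_le_log4_mul_x (x := (Q : ℝ)) (Nat.cast_nonneg Q)
    rw [Chebyshev.theta_eq_sum_primesLE_log] at h1
    have h2 : Real.log 4 ≤ 3 / 2 := by
      have h3 : (4 : ℝ) = 2 ^ 2 := by norm_num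
      rw [h3, Real.log_pow]
      have := Real.log_two_lt_d9
      push_cast
      linarith
    have h3 : (0 : ℝ) ≤ Q := Nat.cast_nonneg Q
    nlinarith
  have hπ : (Q.primesLE.card : ℝ) ≤ Q := by
    have h1 : Q.primesLE ⊆ Finset.Icc 1 Q := by
      intro p hp
      rw [Nat.mem_primesLE] at hp
      rw [Finset.mem_Icc]
      exact ⟨hp.2.one_lt.le, hp.1⟩
    have h2 := Finset.card_le_card h1
    rw [Nat.card_Icc] at h2
    exact_mod_cast (by omega : Q.primesLE.card ≤ Q)
  have hQ0 : (0 : ℝ) ≤ Q := Nat.cast_nonneg Q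
  have hB0 : (0 : ℝ) ≤ B.card := Nat.cast_nonneg _
  have hZ0 : (0 : ℝ) ≤ Z.card := Nat.cast_nonneg _
  have hR0 : (0 : ℝ) < R := by
    have : 0 < R := by omega
    exact_mod_cast this
  have hgR : 0 ≤ g / R + 1 := by positivity
  -- the tail including z₀
  have hT' : ∑ y ∈ B, max 0 (ld z₀ y - Real.log g) ≤ T := by
    rw [← Finset.add_sum_erase _ _ hz₀]
    have h1 : max 0 (ld z₀ z₀ - Real.log g) = 0 := by
      apply max_eq_left
      have h2 : ld z₀ z₀ = 0 := by
        unfold ld
        simp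
      rw [h2]
      have := Real.log_nonneg hg
      linarith
    rw [h1, zero_add]
    exact hT
  have hT0 : 0 ≤ T := le_trans (Finset.sum_nonneg fun y _ => le_max_left _ _) hT'
  -- reorder
  have hcomm : ∑ z ∈ Z, ∑ y ∈ B.erase z, ∑ p ∈ Q.primesLE,
      Real.log p * (vd p z y - (tv p (Nat.log p R) (z - y) : ℝ)) =
      ∑ p ∈ Q.primesLE, ∑ z ∈ Z, ∑ y ∈ B.erase z,
        Real.log p * (vd p z y - (tv p (Nat.log p R) (z - y) : ℝ)) := by
    rw [Finset.sum_comm' (s := Q.primesLE) (t := fun _ => Z) (s' := fun _ => Q.primesLE) (t' := Z)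
      (h := fun p z => by tauto)]
    refine Finset.sum_congr rfl fun z _ => ?_
    rw [Finset.sum_comm]
  rw [hcomm]
  calc ∑ p ∈ Q.primesLE, ∑ z ∈ Z, ∑ y ∈ B.erase z,
        Real.log p * (vd p z y - (tv p (Nat.log p R) (z - y) : ℝ))
      ≤ ∑ p ∈ Q.primesLE, (Real.log p * (7 * Z.card * (g / R + 1)) +
        ∑ y ∈ B, (Real.log p + 1 + 2 * max 0 (ld z₀ y - Real.log g))) :=
        Finset.sum_le_sum fun p hp =>
          high_prime Z B z₀ ρ R g hg hR hZ (Nat.mem_primesLE.mp hp).2
    _ ≤ ∑ p ∈ Q.primesLE, (Real.log p * (7 * Z.card * (g / R + 1) + B.card) +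
        (B.card + 2 * T)) := by
        refine Finset.sum_le_sum fun p _ => ?_
        rw [Finset.sum_add_distrib, Finset.sum_const, nsmul_eq_mul, ← Finset.mul_sum]
        linarith
    _ = (∑ p ∈ Q.primesLE, Real.log p) * (7 * Z.card * (g / R + 1) + B.card) +
        Q.primesLE.card * (B.card + 2 * T) := by
        rw [Finset.sum_add_distrib, ← Finset.sum_mul, Finset.sum_const, nsmul_eq_mul]
    _ ≤ 3 / 2 * Q * (7 * Z.card * (g / R + 1) + B.card) + Q * (B.card + 2 * T) := by
        refine add_le_add (mul_le_mul_of_nonneg_right hθ (by positivity))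
          (mul_le_mul_of_nonneg_right hπ (by positivity))
    _ ≤ 12 * Z.card * Q * (g / R + 1) + Q * (3 * B.card + 2 * T) := by
        have h1 : 0 ≤ (Z.card : ℝ) * Q * (g / R + 1) := by positivity
        have h2 : 0 ≤ (Q : ℝ) * B.card := by positivity
        nlinarith

end Pool.Agent.Work.MP_b29d7f_half
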