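import Pool.Agent.Work.MP_b29d7f_half.Interface

/-!
# LOWY: lower bound for the generalized factorial at the small primes
-/

namespace Pool.Agent.Work.MP_b29d7f_half

open Finset
open Pool.Agent.Work.MP_b29d7f_nt (IsPOrdering HasSimultaneousOrdering PosUpperBanachDensity
  PS vd ld tv)

/-- twice the sum over pairs -/
theorem two_PS_eq_lowy (f : ℤ → ℤ → ℝ) (hf : ∀ x y, f x y = f y x) (X : Finset ℤ) :
    2 * PS f X = ∑ z ∈ X, ∑ y ∈ X.erase z, f z y := by
  classical
  induction X using Finset.induction_on with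
  | empty => simp [PS]
  | insert z X hz ih =>
    rw [Pool.Agent.Work.MP_b29d7f_nt.PS_insert f hf X z hz, mul_add, ih, Finset.sum_insert hz,
      Finset.erase_insert hz]
    have h1 : ∑ x ∈ X, ∑ y ∈ (insert z X).erase x, f x y =
        ∑ x ∈ X, (f z x + ∑ y ∈ X.erase x, f x y) := by
      refine Finset.sum_congr rfl fun x hx => ?_
      have hne : z ≠ x := by rintro rfl; exact hz hx
      rw [Finset.erase_insert_of_ne hne, Finset.sum_insert, hf x z]
      rw [Finset.mem_erase, not_and]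
      intro _; exact hz
    rw [h1, Finset.sum_add_distrib]
    ring

theorem stmt_LOWY (hG : Stmt_GBAS) (hO : Stmt_ORD) (hP : Stmt_POT) (hB : Stmt_BIGP) :
    Stmt_LOWY := by
  classical
  intro S a θ C₀ δ hOrd hθ hθ1 hC₀ hgr hδ hθδ
  obtain ⟨CB, hCB⟩ := hB S a θ C₀ δ hOrd hθ hθ1 hC₀ hgr hδ hθδ
  refine ⟨CB + 18 + Real.log C₀, fun N n Q hn hN1 hN2 hrec hQ1 hQn hQ => ?_⟩
  obtain ⟨_, _, _, hGge⟩ := hG S hOrd.inf
  obtain ⟨hinj, _, _, _, hw, _⟩ := hO S a hOrd
  obtain ⟨hpot, _, _⟩ := hP S a hOrd N n (by omega) hN1 hN2 hrec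
  have hbig := hCB N n Q hn (by omega) (by omega) hQ1 hQn hQ
  set X := A a n with hX
  have hXcard : X.card = n := by
    rw [hX, A, Finset.card_image_of_injective _ hinj, Finset.card_range]
  -- all primes
  set M : ℕ := Q + ∑ x ∈ X, ∑ y ∈ X, (x - y).natAbs with hM
  have hsub : ∀ x ∈ X, ∀ y ∈ X, x ≠ y → ∀ p : ℕ, p.Prime → multiplicity (p : ℤ) (x - y) ≠ 0 →
      p ∈ M.primesLE := by
    intro x hx y hy hxy p hp hm
    rw [Nat.mem_primesLE]
    refine ⟨?_, hp⟩
    have hdvd : (p : ℤ) ∣ x - y := by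
      by_contra h
      exact hm (multiplicity_eq_zero.mpr h)
    have h1 : p ≤ (x - y).natAbs := by
      refine Nat.le_of_dvd ?_ (Int.natCast_dvd.mp hdvd)
      rw [Int.natAbs_pos]
      exact sub_ne_zero.mpr hxy
    have h2 : (x - y).natAbs ≤ ∑ y' ∈ X, (x - y').natAbs :=
      Finset.single_le_sum (f := fun y' => (x - y').natAbs) (fun _ _ => Nat.zero_le _) hy
    have h3 : ∑ y' ∈ X, (x - y').natAbs ≤ ∑ x' ∈ X, ∑ y' ∈ X, (x' - y').natAbs :=
      Finset.single_le_sum (f := fun x' => ∑ y' ∈ X, (x' - y').natAbs)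
        (fun _ _ => Nat.zero_le _) hx
    omega
  have hprod := Pool.Agent.Work.MP_b29d7f_nt.PS_product X M.primesLE
    (fun p hp => (Nat.mem_primesLE.mp hp).2) hsub
  have hsplit : ∑ p ∈ M.primesLE, PS (vd p) X * Real.log p =
      ∑ p ∈ Q.primesLE, PS (vd p) X * Real.log p +
      ∑ p ∈ M.primesLE.filter (fun p => Q < p), PS (vd p) X * Real.log p := by
    rw [← Finset.sum_filter_add_sum_filter_not M.primesLE (fun p => p ≤ Q)]
    congr 1
    · refine Finset.sum_congr ?_ fun _ _ => rfl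
      ext p
      simp only [Finset.mem_filter, Nat.mem_primesLE]
      constructor
      · rintro ⟨⟨_, h2⟩, h3⟩; exact ⟨h3, h2⟩
      · rintro ⟨h1, h2⟩; exact ⟨⟨by omega, h2⟩, h1⟩
    · refine Finset.sum_congr ?_ fun _ _ => rfl
      ext p
      simp only [Finset.mem_filter, Nat.mem_primesLE, not_le]
  have hbig' := hbig (M.primesLE.filter (fun p => Q < p)) (fun p hp => by
    rw [Finset.mem_filter, Nat.mem_primesLE] at hp
    exact ⟨hp.1.2, hp.2⟩)
  have hbig2 : ∑ p ∈ M.primesLE.filter (fun p => Q < p), Real.log p * (2 * PS (vd p) X) =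
      2 * ∑ p ∈ M.primesLE.filter (fun p => Q < p), PS (vd p) X * Real.log p := by
    rw [Finset.mul_sum]
    exact Finset.sum_congr rfl fun _ _ => by ring
  rw [hbig2] at hbig'
  -- small primes
  have hsmall : 2 * ∑ p ∈ Q.primesLE, PS (vd p) X * Real.log p ≤
      n * ∑ p ∈ Q.primesLE, Real.log p * wv p a n := by
    rw [Finset.mul_sum, Finset.mul_sum]
    refine Finset.sum_le_sum fun p hp => ?_
    have hpp := (Nat.mem_primesLE.mp hp).2
    have h1 : 2 * PS (vd p) X ≤ n * wv p a n := by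
      rw [two_PS_eq_lowy (vd p) (Pool.Agent.Work.MP_b29d7f_nt.vd_comm p) X]
      calc ∑ z ∈ X, ∑ y ∈ X.erase z, vd p z y ≤ ∑ z ∈ X, wv p a n :=
            Finset.sum_le_sum fun z hz => hw p hpp n z hz
        _ = n * wv p a n := by rw [Finset.sum_const, hXcard, nsmul_eq_mul]
    have hlog : 0 ≤ Real.log p := Real.log_natCast_nonneg p
    nlinarith
  -- assembly
  have hnpos : (0 : ℝ) < n := by exact_mod_cast (by omega : 0 < n)
  have hNR : (N : ℝ) ≤ 3 * n := by exact_mod_cast (by omega : N ≤ 3 * n)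
  have hNpos : (0 : ℝ) < N := by exact_mod_cast (by omega : 0 < N)
  have hN1' : (1 : ℝ) ≤ N := by exact_mod_cast (by omega : 1 ≤ N)
  have hnN : Real.log n ≤ Real.log N :=
    Real.log_le_log hnpos (by exact_mod_cast (by omega : n ≤ N))
  have hGpos : (0 : ℝ) < G S N := by
    have := hGge N
    exact_mod_cast (by omega : 0 < G S N)
  have hlogG : Real.log (G S N) ≤ Real.log C₀ + 2 * N := by
    have h1 := hgr N (by omega)
    have h2 : Real.log (G S N) ≤ Real.log (C₀ * (N : ℝ) ^ (1 + θ)) := Real.log_le_log hGpos h1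
    rw [Real.log_mul (by positivity) (by positivity), Real.log_rpow hNpos] at h2
    have h3 : Real.log N ≤ N := (Real.log_le_sub_one_of_pos hNpos).trans (by linarith)
    have h4 : 0 ≤ Real.log N := Real.log_nonneg hN1'
    nlinarith
  have hC₀log : 0 ≤ Real.log C₀ := Real.log_nonneg hC₀
  have hkey : (n : ℝ) * ((n : ℝ) * (Real.log (G S N) - Real.log N + Real.log Q -
      (CB + 18 + Real.log C₀))) ≤ n * ∑ p ∈ Q.primesLE, Real.log p * wv p a n := by
    refine le_trans ?_ hsmall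
    have hn1 : (1 : ℝ) ≤ n := by exact_mod_cast (by omega : 1 ≤ n)
    have e1 : 2 * ∑ p ∈ Q.primesLE, PS (vd p) X * Real.log p =
        2 * PS ld X - 2 * ∑ p ∈ M.primesLE.filter (fun p => Q < p), PS (vd p) X * Real.log p := by
      rw [hprod, hsplit]; ring
    rw [e1]
    have h5 : (n : ℝ) * (4 * N) ≤ n * (12 * n) := by
      apply mul_le_mul_of_nonneg_left _ hnpos.le
      linarith
    have h6 : (n : ℝ) * Real.log (G S N) ≤ n * (n * (Real.log C₀ + 6)) := by
      apply mul_le_mul_of_nonneg_left _ hnpos.le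
      nlinarith
    have h7 : (n : ℝ) * (n * Real.log n) ≤ n * (n * Real.log N) := by
      apply mul_le_mul_of_nonneg_left _ hnpos.le
      exact mul_le_mul_of_nonneg_left hnN hnpos.le
    nlinarith
  exact le_of_mul_le_mul_left hkey hnpos

end Pool.Agent.Work.MP_b29d7f_half
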