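import Pool.Agent.Work.MP_b29d7f_half.Tools

/-!
# Block MAIN: assembly
-/

namespace Pool.Agent.Work.MP_b29d7f_half

open Finset
open Pool.Agent.Work.MP_b29d7f_nt (IsPOrdering HasSimultaneousOrdering PosUpperBanachDensity
  PS vd ld tv Thick thick_iff thick_of_banach)

theorem stmt_MAIN (hGROW : Stmt_GROW) (hBAN : Stmt_BAN) (hREC : Stmt_REC)
    (hBD : Stmt_BOUNDED) : Stmt_MAIN := by
  intro S hS hO
  obtain ⟨hinf, θ, C₀, hθ0, hθ1, hC₀, hG⟩ := hGROW S hS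
  obtain ⟨a, ha⟩ := hO
  obtain ⟨C, N₀, hC⟩ := hBD S a θ C₀ ⟨hinf, ha⟩ hθ0 hθ1 hC₀ hG
  refine hBAN S hinf ⟨C, fun M => ?_⟩
  obtain ⟨N, hN, hRec⟩ := hREC S θ C₀ hinf hθ1 hC₀ hG (max M N₀)
  exact ⟨N, (le_max_left _ _).trans hN, hC N ((le_max_right _ _).trans hN) hRec⟩

end Pool.Agent.Work.MP_b29d7f_half
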