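import Pool.Agent.Work.MP_b29d7f_half.B_VDM
import Pool.Agent.Work.MP_b29d7f_nt.Main

/-!
# Block ORD
-/

namespace Pool.Agent.Work.MP_b29d7f_half

open Finset
open Pool.Agent.Work.MP_b29d7f_nt (IsPOrdering HasSimultaneousOrdering PosUpperBanachDensity
  PS vd ld tv vd_comm vd_nonneg ld_comm PS_seq PS_insert PS_product V V_ne_zero wp pow_wp_dvd
  injective_of_ordering log_eq_sum)

/-- a finite set of primes which contains all primes dividing differences -/
theorem exists_primes (X : Finset ℤ) : ∃ s : Finset ℕ, (∀ p ∈ s, p.Prime) ∧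
    ∀ x ∈ X, ∀ y ∈ X, x ≠ y → ∀ p : ℕ, p.Prime → multiplicity (p : ℤ) (x - y) ≠ 0 → p ∈ s := by
  classical
  refine ⟨((X ×ˢ X).filter fun z : ℤ × ℤ => z.1 ≠ z.2).biUnion
    fun z => (z.1 - z.2).natAbs.primeFactors, ?_, ?_⟩
  · intro p hp
    rw [Finset.mem_biUnion] at hp
    obtain ⟨z, _, hz⟩ := hp
    exact Nat.prime_of_mem_primeFactors hz
  · intro x hx y hy hxy p hp h
    rw [Finset.mem_biUnion]
    refine ⟨(x, y), ?_, ?_⟩
    · rw [Finset.mem_filter, Finset.mem_product]
      exact ⟨⟨hx, hy⟩, hxy⟩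
    · rw [Nat.mem_primeFactors]
      refine ⟨hp, ?_, Int.natAbs_ne_zero.mpr (sub_ne_zero.mpr hxy)⟩
      have h1 : (p : ℤ) ∣ x - y := by
        by_contra hc
        exact h (multiplicity_eq_zero.mpr hc)
      exact Int.natCast_dvd.mp h1

theorem lD_eq {S : Set ℤ} {a : ℕ → ℤ} (ho : Ord S a) (n : ℕ) :
    lD a n = Real.log |((V a n (a n) : ℤ) : ℝ)| := by
  have hne := V_ne_zero ho.inf Nat.prime_two (ho.ord 2 Nat.prime_two) n
  unfold V at hne ⊢
  have hne' : ∀ i ∈ range n, a n - a i ≠ 0 := Finset.prod_ne_zero_iff.mp hne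
  push_cast
  rw [Finset.abs_prod, Real.log_prod]
  · unfold lD ld
    refine Finset.sum_congr rfl fun i _ => ?_
    push_cast
    rfl
  · intro i hi
    have := hne' i hi
    rw [abs_ne_zero]
    exact_mod_cast this

/-- **ORD** -/
theorem stmt_ORD_h41 : Stmt_ORD := by
  classical
  intro S a ho
  have h2 := ho.ord 2 Nat.prime_two
  have hinj : Function.Injective a := injective_of_ordering ho.inf Nat.prime_two h2
  have hmem : ∀ k, a k ∈ S := h2.1
  have hAS : ∀ n, ((A a n : Finset ℤ) : Set ℤ) ⊆ S := by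
    intro n x hx
    rw [Finset.mem_coe, mem_A] at hx
    obtain ⟨i, _, rfl⟩ := hx
    exact hmem i
  -- (5)
  have h5 : ∀ p : ℕ, p.Prime → ∀ (n : ℕ), ∀ z ∈ A a n,
      ∑ y ∈ (A a n).erase z, vd p z y ≤ wv p a n := by
    intro p hp n z hz
    have hz' : z ∈ A a (n + 1) := A_mono (Nat.le_succ n) hz
    have hX := stmt_VDM S a ho p hp ((A a (n + 1)).erase z) (by
      intro x hx
      rw [Finset.mem_coe, Finset.mem_erase] at hx
      exact hAS (n + 1) (Finset.mem_coe.mpr hx.2))
    rw [Finset.card_erase_of_mem hz', card_A hinj, Nat.add_sub_cancel] at hX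
    have h1 : PS (vd p) (A a (n + 1)) = PS (vd p) ((A a (n + 1)).erase z) +
        ∑ y ∈ (A a (n + 1)).erase z, vd p z y := by
      conv_lhs => rw [← Finset.insert_erase hz']
      rw [PS_insert (vd p) (vd_comm p) _ z (Finset.notMem_erase z _)]
    have h3 : PS (vd p) (A a (n + 1)) = PS (vd p) (A a n) + wv p a n := by
      unfold A wv
      rw [PS_seq (vd p) (vd_comm p) a hinj, PS_seq (vd p) (vd_comm p) a hinj,
        Finset.sum_range_succ]
    have h4 : ∑ y ∈ (A a n).erase z, vd p z y ≤ ∑ y ∈ (A a (n + 1)).erase z, vd p z y :=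
      Finset.sum_le_sum_of_subset_of_nonneg
        (Finset.erase_subset_erase z (A_mono (Nat.le_succ n))) fun y _ _ => vd_nonneg p z y
    linarith
  refine ⟨hinj, hmem, ?_, ?_, h5, ?_⟩
  · -- (3)
    intro n s hs hsn
    have hVs : V a n s ≠ 0 := by
      unfold V
      rw [Finset.prod_ne_zero_iff]
      intro i hi h
      apply hsn
      rw [mem_A]
      exact ⟨i, Finset.mem_range.mp hi, by linarith⟩
    have hVa := V_ne_zero ho.inf Nat.prime_two h2 n
    have hdvd : V a n (a n) ∣ V a n s := by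
      rw [← Int.natAbs_dvd_natAbs, Nat.dvd_iff_prime_pow_dvd_dvd]
      intro p k hp hk
      have hk' : (p : ℤ) ^ k ∣ V a n (a n) := by
        have := Int.natCast_dvd.mpr hk
        push_cast at this
        exact this
      have hfin : FiniteMultiplicity (p : ℤ) (V a n (a n)) := by
        rw [Int.finiteMultiplicity_iff]
        exact ⟨by simpa using hp.ne_one, hVa⟩
      have hle : k ≤ wp p a n := hfin.le_multiplicity_of_pow_dvd hk'
      have h1 := pow_wp_dvd ho.inf hp (ho.ord p hp) n s hs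
      have h3 : (p : ℤ) ^ k ∣ V a n s := (pow_dvd_pow _ hle).trans h1
      have h4 : ((p ^ k : ℕ) : ℤ) ∣ V a n s := by push_cast; exact h3
      exact Int.natCast_dvd.mp h4
    rw [lD_eq ho n, sum_A _ hinj]
    have h6 : ∑ i ∈ range n, ld s (a i) = Real.log |((V a n s : ℤ) : ℝ)| := by
      unfold V at hVs ⊢
      have hne' : ∀ i ∈ range n, s - a i ≠ 0 := Finset.prod_ne_zero_iff.mp hVs
      push_cast
      rw [Finset.abs_prod, Real.log_prod]
      · unfold ld
        refine Finset.sum_congr rfl fun i _ => ?_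
        push_cast
        rfl
      · intro i hi
        have := hne' i hi
        rw [abs_ne_zero]
        exact_mod_cast this
    rw [h6]
    have h7 : |V a n (a n)| ≤ |V a n s| := by
      rw [Int.abs_eq_natAbs, Int.abs_eq_natAbs]
      exact_mod_cast Nat.le_of_dvd (Int.natAbs_pos.mpr hVs) (Int.natAbs_dvd_natAbs.mpr hdvd)
    refine Real.log_le_log ?_ ?_
    · rw [abs_pos]
      exact_mod_cast hVa
    · exact_mod_cast h7
  · -- (4)
    intro X hX
    obtain ⟨s, hs, hsub⟩ := exists_primes (A a X.card ∪ X)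
    rw [PS_product (A a X.card) s hs (fun x hx y hy => hsub x (Finset.mem_union_left _ hx) y
      (Finset.mem_union_left _ hy)), PS_product X s hs (fun x hx y hy => hsub x
      (Finset.mem_union_right _ hx) y (Finset.mem_union_right _ hy))]
    refine Finset.sum_le_sum fun p hp => ?_
    exact mul_le_mul_of_nonneg_right (stmt_VDM S a ho p (hs p hp) X hX)
      (Real.log_natCast_nonneg p)
  · -- (6)
    intro P hP n z hz
    obtain ⟨s, hs, hsub⟩ := exists_primes (A a (n + 1))
    have hsP : ∀ p ∈ s ∪ P, p.Prime := by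
      intro p hp
      rw [Finset.mem_union] at hp
      exact hp.elim (hs p) (hP p)
    have hsub' : ∀ x ∈ A a (n + 1), ∀ y ∈ A a (n + 1), x ≠ y → ∀ p : ℕ, p.Prime →
        multiplicity (p : ℤ) (x - y) ≠ 0 → p ∈ s ∪ P := fun x hx y hy hxy p hp h =>
      Finset.mem_union_left _ (hsub x hx y hy hxy p hp h)
    have hld : ∀ x ∈ A a (n + 1), ∀ y ∈ A a (n + 1), x ≠ y →
        ld x y = ∑ p ∈ s ∪ P, vd p x y * Real.log p := by
      intro x hx y hy hxy
      unfold ld vd
      exact log_eq_sum (x - y) (sub_ne_zero.mpr hxy) _ hsP (hsub' x hx y hy hxy)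
    have han : a n ∈ A a (n + 1) := mem_A.mpr ⟨n, Nat.lt_succ_self n, rfl⟩
    have hl : lD a n = ∑ p ∈ s ∪ P, Real.log p * wv p a n := by
      unfold lD wv
      simp_rw [Finset.mul_sum]
      rw [Finset.sum_comm]
      refine Finset.sum_congr rfl fun i hi => ?_
      rw [Finset.mem_range] at hi
      rw [hld (a n) han (a i) (mem_A.mpr ⟨i, by omega, rfl⟩) (fun h => by
        have := hinj h; omega)]
      exact Finset.sum_congr rfl fun p _ => mul_comm _ _
    have hr : ∑ y ∈ (A a n).erase z, ld z y =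
        ∑ p ∈ s ∪ P, Real.log p * ∑ y ∈ (A a n).erase z, vd p z y := by
      simp_rw [Finset.mul_sum]
      rw [Finset.sum_comm]
      refine Finset.sum_congr rfl fun y hy => ?_
      rw [Finset.mem_erase] at hy
      rw [hld z (A_mono (Nat.le_succ n) hz) y (A_mono (Nat.le_succ n) hy.2) hy.1.symm]
      exact Finset.sum_congr rfl fun p _ => mul_comm _ _
    rw [hl, hr, ← Finset.sum_sub_distrib]
    have h7 : ∑ p ∈ P, Real.log p * (wv p a n - ∑ y ∈ (A a n).erase z, vd p z y) ≤
        ∑ p ∈ s ∪ P, Real.log p * (wv p a n - ∑ y ∈ (A a n).erase z, vd p z y) := by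
      refine Finset.sum_le_sum_of_subset_of_nonneg Finset.subset_union_right ?_
      intro p hp _
      refine mul_nonneg (Real.log_natCast_nonneg p) ?_
      have := h5 p (hsP p hp) n z hz
      linarith
    refine h7.trans (le_of_eq ?_)
    refine Finset.sum_congr rfl fun p _ => ?_
    ring

end Pool.Agent.Work.MP_b29d7f_half
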