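import Pool.Agent.Work.MP_b29d7f_half.Tools

/-!
# Block PAIR: higher powers of `p` contribute little
-/

namespace Pool.Agent.Work.MP_b29d7f_half

open Finset
open Pool.Agent.Work.MP_b29d7f_nt (IsPOrdering HasSimultaneousOrdering PosUpperBanachDensity
  PS vd ld tv vd_comm)

/-- the multiplicity of a nonzero integer of absolute value below `2 ^ N` -/
theorem pair_mult {p N : ℕ} (hp : p.Prime) {x : ℤ} (hx : x ≠ 0) (hN : |x| < 2 ^ N) :
    multiplicity (p : ℤ) x ≤ ((Icc 1 N).filter fun j => (p : ℤ) ^ j ∣ x).card := by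
  have h1 : (p : ℤ) ^ multiplicity (p : ℤ) x ∣ x := pow_multiplicity_dvd _ _
  have h2 : multiplicity (p : ℤ) x ≤ N := by
    have h3 : (p : ℤ) ^ multiplicity (p : ℤ) x ≤ |x| := by
      refine Int.le_of_dvd (abs_pos.mpr hx) ?_
      rwa [dvd_abs]
    have h4 : (2 : ℤ) ^ multiplicity (p : ℤ) x ≤ (p : ℤ) ^ multiplicity (p : ℤ) x :=
      pow_le_pow_left₀ (by norm_num) (by exact_mod_cast hp.two_le) _
    by_contra hcon
    push Not at hcon
    have h5 : (2 : ℤ) ^ N ≤ 2 ^ multiplicity (p : ℤ) x :=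
      pow_le_pow_right₀ (by norm_num) hcon.le
    omega
  have h3 : Icc 1 (multiplicity (p : ℤ) x) ⊆ (Icc 1 N).filter fun j => (p : ℤ) ^ j ∣ x := by
    intro j hj
    rw [mem_Icc] at hj
    rw [mem_filter, mem_Icc]
    exact ⟨⟨hj.1, hj.2.trans h2⟩, (pow_dvd_pow _ hj.2).trans h1⟩
  calc multiplicity (p : ℤ) x = (Icc 1 (multiplicity (p : ℤ) x)).card := by simp
    _ ≤ _ := card_le_card h3

/-- the number of other points congruent to `x` modulo `q` -/
theorem pair_count {W : Finset ℤ} {g : ℕ} (hW : InWin W g) {x : ℤ} (hx : x ∈ W) {q : ℕ}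
    (hq : 0 < q) :
    (((W.erase x).filter fun y => (q : ℤ) ∣ x - y).card : ℝ) ≤ 2 * g / q := by
  obtain ⟨u, hu⟩ := hW
  have h1 : ((W.erase x).filter fun y => (q : ℤ) ∣ x - y).card ≤
      ((Icc (-((g / q : ℕ) : ℤ)) ((g / q : ℕ) : ℤ)).erase 0).card := by
    refine card_le_card_of_injOn (fun y => (x - y) / q) ?_ ?_
    · intro y hy
      rw [mem_coe, mem_filter, mem_erase] at hy
      obtain ⟨⟨hne, hyW⟩, k, hk⟩ := hy
      rw [mem_coe, mem_erase, mem_Icc]
      have hq' : (q : ℤ) ≠ 0 := by exact_mod_cast hq.ne'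
      have hq'' : (0 : ℤ) < q := by exact_mod_cast hq
      have hdiv : (x - y) / q = k := by
        rw [hk]; exact Int.mul_ediv_cancel_left _ hq'
      simp only [hdiv]
      have hx1 := hu x hx
      have hy1 := hu y hyW
      have hk0 : k ≠ 0 := by
        rintro rfl
        apply hne
        have : x - y = 0 := by rw [hk]; ring
        omega
      have hb : ((g / q : ℕ) : ℤ) = (g : ℤ) / q := by push_cast; rfl
      refine ⟨hk0, ?_, ?_⟩
      · rw [hb]
        have : -k ≤ (g : ℤ) / q := by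
          rw [Int.le_ediv_iff_mul_le hq'']
          have : -k * (q : ℤ) = -(x - y) := by rw [hk]; ring
          rw [this]
          omega
        omega
      · rw [hb, Int.le_ediv_iff_mul_le hq'']
        have : k * (q : ℤ) = x - y := by rw [hk]; ring
        rw [this]
        omega
    · intro y hy y' hy' hyy
      rw [mem_coe, mem_filter] at hy hy'
      have h3 := Int.ediv_mul_cancel hy.2
      have h4 := Int.ediv_mul_cancel hy'.2
      simp only at hyy
      rw [hyy] at h3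
      omega
  have h2 : ((Icc (-((g / q : ℕ) : ℤ)) ((g / q : ℕ) : ℤ)).erase 0).card = 2 * (g / q) := by
    generalize g / q = m
    rw [card_erase_of_mem (by rw [mem_Icc]; omega), Int.card_Icc]
    omega
  rw [h2] at h1
  have h3 : ((g / q : ℕ) : ℝ) ≤ (g : ℝ) / q := Nat.cast_div_le
  calc (((W.erase x).filter fun y => (q : ℤ) ∣ x - y).card : ℝ) ≤ ((2 * (g / q) : ℕ) : ℝ) := by
        exact_mod_cast h1
    _ = 2 * ((g / q : ℕ) : ℝ) := by push_cast; ring
    _ ≤ 2 * ((g : ℝ) / q) := by linarith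
    _ = _ := by ring

theorem pair_geom {p : ℕ} (hp : 2 ≤ p) (n : ℕ) :
    ∑ i ∈ range n, ((1 : ℝ) / p) ^ i ≤ 2 := by
  have h1 : ∀ n : ℕ, ∑ i ∈ range n, ((1 : ℝ) / 2) ^ i ≤ 2 - 2 * (1 / 2) ^ n := by
    intro n
    induction n with
    | zero => simp
    | succ n ih =>
      rw [sum_range_succ, pow_succ]
      linarith
  have h2 : ∑ i ∈ range n, ((1 : ℝ) / p) ^ i ≤ ∑ i ∈ range n, ((1 : ℝ) / 2) ^ i := by
    refine sum_le_sum fun i _ => ?_
    refine pow_le_pow_left₀ (by positivity) ?_ i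
    have : (2 : ℝ) ≤ p := by exact_mod_cast hp
    exact one_div_le_one_div_of_le (by norm_num) this
  have h3 := h1 n
  have h4 : (0 : ℝ) ≤ 2 * (1 / 2) ^ n := by positivity
  linarith

/-- one point of the window -/
theorem pair_one {W : Finset ℤ} {g p : ℕ} (hp : p.Prime) (hW : InWin W g) {x : ℤ} (hx : x ∈ W) :
    ∑ y ∈ W.erase x, vd p x y ≤
      ((W.filter fun y => (p : ℤ) ∣ x - y).card : ℝ) + 4 * g / (p : ℝ) ^ 2 := by
  classical
  have hp0 : (0 : ℝ) < p := by exact_mod_cast hp.pos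
  have h1 : ∀ y ∈ W.erase x, vd p x y ≤
      ∑ j ∈ Icc 1 g, (if (p : ℤ) ^ j ∣ x - y then (1 : ℝ) else 0) := by
    intro y hy
    rw [mem_erase] at hy
    have hne : x - y ≠ 0 := sub_ne_zero.mpr (Ne.symm hy.1)
    have hlt : |x - y| < 2 ^ g := by
      obtain ⟨u, hu⟩ := hW
      have h2 := hu x hx
      have h3 := hu y hy.2
      have h4 : |x - y| < (g : ℤ) := by
        rw [abs_lt]; constructor <;> omega
      have h5 : (g : ℤ) < 2 ^ g := by exact_mod_cast Nat.lt_two_pow_self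
      omega
    have h2 := pair_mult hp hne hlt
    unfold vd
    rw [← sum_filter, sum_const, nsmul_eq_mul, mul_one]
    exact_mod_cast h2
  have h2 : ∑ y ∈ W.erase x, vd p x y ≤
      ∑ j ∈ Icc 1 g, (((W.erase x).filter fun y => (p : ℤ) ^ j ∣ x - y).card : ℝ) := by
    calc ∑ y ∈ W.erase x, vd p x y ≤ ∑ y ∈ W.erase x, ∑ j ∈ Icc 1 g,
          (if (p : ℤ) ^ j ∣ x - y then (1 : ℝ) else 0) := sum_le_sum h1
      _ = _ := by
          rw [sum_comm]
          refine sum_congr rfl fun j _ => ?_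
          rw [← sum_filter, sum_const, nsmul_eq_mul, mul_one]
  rcases Nat.eq_zero_or_pos g with hg | hg
  · subst hg
    simp only [show Icc 1 0 = (∅ : Finset ℕ) from rfl, sum_empty] at h2
    have : (0 : ℝ) ≤ ((W.filter fun y => (p : ℤ) ∣ x - y).card : ℝ) + 4 * (0 : ℕ) / (p : ℝ) ^ 2 := by
      positivity
    linarith
  have h3 : ∑ j ∈ Icc 1 g, (((W.erase x).filter fun y => (p : ℤ) ^ j ∣ x - y).card : ℝ) =
      ((W.erase x).filter fun y => (p : ℤ) ^ 1 ∣ x - y).card +
      ∑ i ∈ range (g - 1), (((W.erase x).filter fun y => (p : ℤ) ^ (i + 2) ∣ x - y).card : ℝ) := by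
    obtain ⟨g', rfl⟩ : ∃ g', g = g' + 1 := ⟨g - 1, by omega⟩
    have : Icc 1 (g' + 1) = (range (g' + 1)).image (fun i => i + 1) := by
      ext j
      simp only [mem_Icc, mem_image, mem_range]
      constructor
      · rintro ⟨h1, h2⟩
        exact ⟨j - 1, by omega, by omega⟩
      · rintro ⟨i, h1, rfl⟩
        omega
    rw [this, sum_image (by intro a _ b _ h; simpa using h), sum_range_succ', Nat.add_sub_cancel]
    rw [add_comm]
  have h4 : ((W.erase x).filter fun y => (p : ℤ) ^ 1 ∣ x - y).card ≤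
      (W.filter fun y => (p : ℤ) ∣ x - y).card := by
    simp only [pow_one]
    exact card_le_card (filter_subset_filter _ (erase_subset _ _))
  have h5 : ∑ i ∈ range (g - 1), (((W.erase x).filter fun y => (p : ℤ) ^ (i + 2) ∣ x - y).card : ℝ)
      ≤ 4 * g / (p : ℝ) ^ 2 := by
    have h6 : ∀ i ∈ range (g - 1), (((W.erase x).filter fun y => (p : ℤ) ^ (i + 2) ∣ x - y).card : ℝ)
        ≤ 2 * g / (p : ℝ) ^ 2 * ((1 : ℝ) / p) ^ i := by
      intro i _
      have h7 := pair_count hW hx (q := p ^ (i + 2)) (pow_pos hp.pos _)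
      push_cast at h7
      refine h7.trans (le_of_eq ?_)
      rw [div_pow, one_pow, pow_add]
      field_simp
    calc _ ≤ ∑ i ∈ range (g - 1), 2 * g / (p : ℝ) ^ 2 * ((1 : ℝ) / p) ^ i := sum_le_sum h6
      _ = 2 * g / (p : ℝ) ^ 2 * ∑ i ∈ range (g - 1), ((1 : ℝ) / p) ^ i := by rw [mul_sum]
      _ ≤ 2 * g / (p : ℝ) ^ 2 * 2 := by
          refine mul_le_mul_of_nonneg_left (pair_geom hp.two_le _) (by positivity)
      _ = _ := by ring
  have h4' : (((W.erase x).filter fun y => (p : ℤ) ^ 1 ∣ x - y).card : ℝ) ≤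
      ((W.filter fun y => (p : ℤ) ∣ x - y).card : ℝ) := by exact_mod_cast h4
  linarith

theorem stmt_PAIR : Stmt_PAIR := by
  intro W g p hp hW
  rw [two_PS _ (vd_comm p)]
  have h1 : ∑ x ∈ W, ∑ y ∈ W.erase x, vd p x y ≤
      ∑ x ∈ W, (((W.filter fun y => (p : ℤ) ∣ x - y).card : ℝ) + 4 * g / (p : ℝ) ^ 2) :=
    sum_le_sum fun x hx => pair_one hp hW hx
  have h2 : (prs p W : ℝ) = ∑ x ∈ W, ((W.filter fun y => (p : ℤ) ∣ x - y).card : ℝ) := by
    unfold prs
    rw [card_filter, sum_product]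
    push_cast
    refine sum_congr rfl fun x _ => ?_
    rw [card_filter]
    push_cast
    rfl
  rw [sum_add_distrib, sum_const, nsmul_eq_mul, ← h2] at h1
  calc _ ≤ _ := h1
    _ = _ := by ring

end Pool.Agent.Work.MP_b29d7f_half
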