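import Pool.Agent.Work.MP_b29d7f_half.Tools

/-!
# POT: the potential at a record scale
-/

namespace Pool.Agent.Work.MP_b29d7f_half

open Finset
open Pool.Agent.Work.MP_b29d7f_nt (IsPOrdering HasSimultaneousOrdering PosUpperBanachDensity
  PS vd ld tv PS_union vd_nonneg ld_comm)

/-- splitting the potential into the average, the close part and the far part -/
theorem pot_split (g : ℝ) (X : Finset ℤ) (z : ℤ) (hz : z ∈ X) :
    ∑ y ∈ X.erase z, ld z y = ((X.card : ℝ) - 1) * g -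
      ∑ y ∈ X.erase z, max 0 (g - ld z y) + ∑ y ∈ X.erase z, max 0 (ld z y - g) := by
  have hc : ((X.erase z).card : ℝ) = (X.card : ℝ) - 1 := by
    rw [Finset.card_erase_of_mem hz, Nat.cast_sub (Finset.card_pos.mpr ⟨z, hz⟩)]
    simp
  rw [← hc, ← nsmul_eq_mul, ← Finset.sum_const, ← Finset.sum_sub_distrib,
    ← Finset.sum_add_distrib]
  refine Finset.sum_congr rfl fun y _ => ?_
  rcases le_total (ld z y) g with h | h
  · rw [max_eq_right (by linarith), max_eq_left (by linarith)]; ring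
  · rw [max_eq_left (by linarith), max_eq_right (by linarith)]; ring

theorem pot_lower (hL : Stmt_ARCHL) {S : Set ℤ} {N : ℕ} (hS : S.Infinite) (hN : 1 ≤ N)
    (hR : Rec S N) (X : Finset ℤ) (hX : (X : Set ℤ) ⊆ S) (hc : X.card ≤ N) :
    (X.card : ℝ) * ((X.card : ℝ) - 1) * Real.log (G S N) - 4 * X.card * N ≤ 2 * PS ld X := by
  rw [two_PS ld ld_comm]
  have h1 : ∀ z ∈ X, ((X.card : ℝ) - 1) * Real.log (G S N) - 4 * N ≤
      ∑ y ∈ X.erase z, ld z y := by
    intro z hz
    rw [pot_split (Real.log (G S N)) X z hz]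
    have h2 := hL S N hS hN hR X hX hc z hz
    have h3 : 0 ≤ ∑ y ∈ X.erase z, max 0 (ld z y - Real.log (G S N)) :=
      Finset.sum_nonneg fun _ _ => le_max_left _ _
    linarith
  have h2 := Finset.sum_le_sum h1
  rw [Finset.sum_const, nsmul_eq_mul] at h2
  calc _ = (X.card : ℝ) * (((X.card : ℝ) - 1) * Real.log (G S N) - 4 * N) := by ring
    _ ≤ _ := h2

theorem lD_upper (hL : Stmt_ARCHL) (hO : Stmt_ORD) (hT : Stmt_TOP) {S : Set ℤ} {a : ℕ → ℤ}
    (ha : Ord S a) {N n : ℕ} (hn : 1 ≤ n) (hnN : 2 * n ≤ N) (hR : Rec S N) :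
    lD a n ≤ n * Real.log (G S N) + 4 * N := by
  classical
  obtain ⟨hinj, hmem, hlD, -, -, -⟩ := hO S a ha
  have hN : 1 ≤ N := by omega
  have hsub : A a n ⊆ A a N := A_mono (by omega)
  have hAS : ∀ m, (A a m : Set ℤ) ⊆ S := by
    intro m x hx
    rw [Finset.mem_coe, mem_A] at hx
    obtain ⟨i, -, rfl⟩ := hx
    exact hmem i
  set B := A a N \ A a n with hB
  have hBc : B.card = N - n := by
    rw [hB, Finset.card_sdiff_of_subset hsub, card_A hinj, card_A hinj]
  have hBS : (B : Set ℤ) ⊆ S := fun x hx => hAS N (Finset.mem_sdiff.mp hx).1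
  have hU : A a n ∪ B = A a N := Finset.union_sdiff_of_subset hsub
  have hpu := PS_union ld ld_comm (A a n) B Finset.disjoint_sdiff
  rw [hU] at hpu
  have h1 := pot_lower hL ha.inf hN hR (A a n) (hAS n) (by rw [card_A hinj]; omega)
  have h2 := pot_lower hL ha.inf hN hR B hBS (by rw [hBc]; omega)
  have h3 := hT S a ha N hN
  have h4 : ∑ s ∈ B, lD a n ≤ ∑ s ∈ B, ∑ y ∈ A a n, ld s y := by
    refine Finset.sum_le_sum fun s hs => ?_
    exact hlD n s (hBS hs) (Finset.mem_sdiff.mp hs).2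
  rw [Finset.sum_const, nsmul_eq_mul] at h4
  rw [card_A hinj] at h1
  have hbr : (B.card : ℝ) = (N : ℝ) - n := by
    rw [hBc, Nat.cast_sub (by omega)]
  rw [hbr] at h2 h4
  have hn' : (1 : ℝ) ≤ n := by exact_mod_cast hn
  have hnN' : 2 * (n : ℝ) ≤ N := by exact_mod_cast hnN
  set g := Real.log (G S N) with hg
  have h5 : ((N : ℝ) - n) * lD a n ≤ ((N : ℝ) - n) * (n * g + 4 * N) := by
    have h6 : ((N : ℝ) - n) * lD a n ≤ (N : ℝ) * ((N : ℝ) - 1) * g / 2 -
        ((n : ℝ) * ((n : ℝ) - 1) * g - 4 * n * N) / 2 -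
        (((N : ℝ) - n) * ((N : ℝ) - n - 1) * g - 4 * ((N : ℝ) - n) * N) / 2 := by
      linarith
    have h7 : (N : ℝ) * ((N : ℝ) - 1) * g / 2 -
        ((n : ℝ) * ((n : ℝ) - 1) * g - 4 * n * N) / 2 -
        (((N : ℝ) - n) * ((N : ℝ) - n - 1) * g - 4 * ((N : ℝ) - n) * N) / 2 =
        ((N : ℝ) - n) * (n * g) + 2 * N * N := by ring
    rw [h7] at h6
    have h8 : 2 * (N : ℝ) * N ≤ ((N : ℝ) - n) * (4 * N) := by nlinarith
    calc ((N : ℝ) - n) * lD a n ≤ ((N : ℝ) - n) * (n * g) + 2 * N * N := h6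
      _ ≤ ((N : ℝ) - n) * (n * g) + ((N : ℝ) - n) * (4 * N) := by linarith
      _ = _ := by ring
  exact le_of_mul_le_mul_left h5 (by linarith)

/-- **POT** -/
theorem stmt_POT (hL : Stmt_ARCHL) (hO : Stmt_ORD) (hT : Stmt_TOP) : Stmt_POT := by
  intro S a ha N n hn hnN _ hR
  have hN : 1 ≤ N := by omega
  have hup := lD_upper hL hO hT ha hn hnN hR
  obtain ⟨hinj, hmem, -, -, -, hdef⟩ := hO S a ha
  have hAS : (A a n : Set ℤ) ⊆ S := by
    intro x hx
    rw [Finset.mem_coe, mem_A] at hx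
    obtain ⟨i, -, rfl⟩ := hx
    exact hmem i
  have hc : (A a n).card = n := card_A hinj n
  have hkey : ∀ z ∈ A a n, lD a n - ∑ y ∈ (A a n).erase z, ld z y ≤
      Real.log (G S N) + 8 * N - ∑ y ∈ (A a n).erase z, max 0 (ld z y - Real.log (G S N)) := by
    intro z hz
    have h1 := pot_split (Real.log (G S N)) (A a n) z hz
    have h2 := hL S N ha.inf hN hR (A a n) hAS (by rw [hc]; omega) z hz
    rw [hc] at h1
    rw [h1]
    linarith
  refine ⟨?_, ?_, ?_⟩
  · have h1 := pot_lower hL ha.inf hN hR (A a n) hAS (by rw [hc]; omega)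
    rw [hc] at h1
    exact h1
  · intro P hP z hz
    have h1 := hdef P hP n z hz
    have h2 := hkey z hz
    have h3 : 0 ≤ ∑ y ∈ (A a n).erase z, max 0 (ld z y - Real.log (G S N)) :=
      Finset.sum_nonneg fun _ _ => le_max_left _ _
    linarith
  · intro z hz
    have h1 := hdef ∅ (by simp) n z hz
    rw [Finset.sum_empty] at h1
    have h2 := hkey z hz
    linarith

end Pool.Agent.Work.MP_b29d7f_half
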