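import Pool.Agent.Work.MP_b29d7f_half.Interface

/-!
# Block REC: arbitrarily large record scales
-/

namespace Pool.Agent.Work.MP_b29d7f_half

open Finset

theorem stmt_REC (hG : Stmt_GBAS) : Stmt_REC := by
  intro S θ C₀ hS hθ hC hgr N₀
  set φ : ℕ → ℝ := fun m => Real.log (G S m) - 2 * Real.log m with hφ
  set N₁ : ℕ := max N₀ 1 with hN₁
  obtain ⟨m₀, hm₀, hmin⟩ := Finset.exists_min_image (Icc 1 N₁) φ
    ⟨1, Finset.mem_Icc.2 ⟨le_refl 1, le_max_right _ _⟩⟩
  have hex : ∃ n : ℕ, N₁ < n ∧ φ n ≤ φ m₀ := by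
    have ht : Filter.Tendsto (fun n : ℕ => Real.log (n : ℝ)) Filter.atTop Filter.atTop :=
      Real.tendsto_log_atTop.comp tendsto_natCast_atTop_atTop
    have h1 : ∀ᶠ n : ℕ in Filter.atTop, (Real.log C₀ - φ m₀) / (1 - θ) ≤ Real.log (n : ℝ) :=
      ht.eventually_ge_atTop _
    obtain ⟨n, hn1, hn2⟩ := (h1.and (Filter.eventually_gt_atTop N₁)).exists
    refine ⟨n, hn2, ?_⟩
    have hn0 : 1 ≤ n := by omega
    have hn0' : (0 : ℝ) < n := by exact_mod_cast hn0
    have hGn : (0 : ℝ) < (G S n : ℝ) := by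
      have h0 : n ≤ G S n := (hG S hS).2.2.2 n
      have h00 : 0 < G S n := by omega
      exact_mod_cast h00
    have h2 : Real.log (G S n) ≤ Real.log C₀ + (1 + θ) * Real.log n := by
      have h3 := Real.log_le_log hGn (hgr n hn0)
      rw [Real.log_mul (by linarith) (Real.rpow_pos_of_pos hn0' _).ne',
        Real.log_rpow hn0'] at h3
      exact h3
    have h4 : Real.log C₀ - φ m₀ ≤ (1 - θ) * Real.log n := by
      rw [div_le_iff₀ (by linarith)] at hn1
      linarith
    simp only [hφ] at h4 ⊢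
    nlinarith
  classical
  set N := Nat.find hex with hN
  obtain ⟨hN1, hN2⟩ := Nat.find_spec hex
  rw [← hN] at hN1 hN2
  refine ⟨N, by omega, ?_⟩
  intro m hm1 hm2
  have key : φ N ≤ φ m := by
    rcases le_or_gt m N₁ with h | h
    · exact hN2.trans (hmin m (Finset.mem_Icc.2 ⟨hm1, h⟩))
    · rcases eq_or_lt_of_le hm2 with h5 | h5
      · rw [h5]
      · have h6 := Nat.find_min hex h5
        push Not at h6
        exact hN2.trans (h6 h).le
  simp only [hφ] at key
  linarith

end Pool.Agent.Work.MP_b29d7f_half
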