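import Pool.Agent.Work.MP_b29d7f_half.Defs

/-!
# The half exponent theorem: statements of the blocks

Paper proof: note 2503.  Every block is a closed proposition `Stmt_X`; a block is done when a file
`B_X.lean` proves `theorem stmt_X : Stmt_X` (possibly from other `Stmt_Y` as hypotheses, as listed in
the table `half_blocks`).
-/

namespace Pool.Agent.Work.MP_b29d7f_half

open Finset
open Pool.Agent.Work.MP_b29d7f_nt (IsPOrdering HasSimultaneousOrdering PosUpperBanachDensity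
  PS vd ld tv)

/-- GBAS: basic properties of `G` -/
def Stmt_GBAS : Prop := ∀ S : Set ℤ, S.Infinite →
  (∀ m : ℕ, ∃ W : Finset ℤ, (W : Set ℤ) ⊆ S ∧ W.card = m ∧ InWin W (G S m)) ∧
  (∀ (X : Finset ℤ) (L : ℕ), (X : Set ℤ) ⊆ S → InWin X L → G S X.card ≤ L) ∧
  Monotone (G S) ∧ (∀ m : ℕ, m ≤ G S m)

/-- GROW: the hypothesis in terms of `G` -/
def Stmt_GROW : Prop := ∀ S : Set ℤ, HalfDense S → S.Infinite ∧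
  ∃ θ C₀ : ℝ, 0 < θ ∧ θ < 1 ∧ 1 ≤ C₀ ∧ Growth S θ C₀

/-- BAN: the conclusion in terms of `G` -/
def Stmt_BAN : Prop := ∀ S : Set ℤ, S.Infinite →
  (∃ C : ℝ, ∀ N₀ : ℕ, ∃ N : ℕ, N₀ ≤ N ∧ (G S N : ℝ) ≤ C * N) → PosUpperBanachDensity S

/-- REC: there are arbitrarily large record scales -/
def Stmt_REC : Prop := ∀ (S : Set ℤ) (θ C₀ : ℝ), S.Infinite → θ < 1 → 1 ≤ C₀ → Growth S θ C₀ →
  ∀ N₀ : ℕ, ∃ N : ℕ, N₀ ≤ N ∧ Rec S N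

/-- ARCHL: few close neighbours at a record scale -/
def Stmt_ARCHL : Prop := ∀ (S : Set ℤ) (N : ℕ), S.Infinite → 1 ≤ N → Rec S N →
  ∀ X : Finset ℤ, (X : Set ℤ) ⊆ S → X.card ≤ N → ∀ z ∈ X,
    ∑ y ∈ X.erase z, max 0 (Real.log (G S N) - ld z y) ≤ 4 * (N : ℝ)

/-- VDM: the `p`-adic energy of an initial segment of the ordering is minimal -/
def Stmt_VDM : Prop := ∀ (S : Set ℤ) (a : ℕ → ℤ), Ord S a → ∀ p : ℕ, p.Prime →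
  ∀ X : Finset ℤ, (X : Set ℤ) ⊆ S → PS (vd p) (A a X.card) ≤ PS (vd p) X

/-- ORD: consequences of the ordering property and of VDM -/
def Stmt_ORD : Prop := ∀ (S : Set ℤ) (a : ℕ → ℤ), Ord S a →
  Function.Injective a ∧ (∀ k, a k ∈ S) ∧
  (∀ (n : ℕ) (s : ℤ), s ∈ S → s ∉ A a n → lD a n ≤ ∑ y ∈ A a n, ld s y) ∧
  (∀ X : Finset ℤ, (X : Set ℤ) ⊆ S → PS ld (A a X.card) ≤ PS ld X) ∧
  (∀ p : ℕ, p.Prime → ∀ (n : ℕ), ∀ z ∈ A a n, ∑ y ∈ (A a n).erase z, vd p z y ≤ wv p a n) ∧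
  (∀ P : Finset ℕ, (∀ p ∈ P, p.Prime) → ∀ n : ℕ, ∀ z ∈ A a n,
    ∑ p ∈ P, Real.log p * (wv p a n - ∑ y ∈ (A a n).erase z, vd p z y) ≤
      lD a n - ∑ y ∈ (A a n).erase z, ld z y)

/-- TOP: upper bound for the energy of an initial segment -/
def Stmt_TOP : Prop := ∀ (S : Set ℤ) (a : ℕ → ℤ), Ord S a → ∀ m : ℕ, 1 ≤ m →
  2 * PS ld (A a m) ≤ (m : ℝ) * (m - 1) * Real.log (G S m)

/-- POT: the potential at a record scale `N`, with `n = ⌊N/2⌋` -/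
def Stmt_POT : Prop := ∀ (S : Set ℤ) (a : ℕ → ℤ), Ord S a → ∀ N n : ℕ, 1 ≤ n → 2 * n ≤ N →
  N ≤ 2 * n + 1 → Rec S N →
  ((n : ℝ) * (n - 1) * Real.log (G S N) - 4 * n * N ≤ 2 * PS ld (A a n)) ∧
  (∀ P : Finset ℕ, (∀ p ∈ P, p.Prime) → ∀ z ∈ A a n,
    ∑ p ∈ P, Real.log p * (wv p a n - ∑ y ∈ (A a n).erase z, vd p z y) ≤
      Real.log (G S N) + 8 * N) ∧
  (∀ z ∈ A a n, ∑ y ∈ (A a n).erase z, max 0 (ld z y - Real.log (G S N)) ≤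
      Real.log (G S N) + 8 * N)

/-- SIEVE: large sieve for prime moduli -/
def Stmt_SIEVE : Prop := ∀ (W : Finset ℤ) (g T : ℕ), 1 ≤ T → InWin W g →
  ∀ P : Finset ℕ, (∀ p ∈ P, p.Prime ∧ p ≤ T) →
    ∑ p ∈ P, ((p : ℝ) * prs p W - (W.card : ℝ) ^ 2) ≤ 16 * (max g (T ^ 2) : ℕ) * W.card

/-- AVG: comparison with larger subsets -/
def Stmt_AVG : Prop := ∀ (S : Set ℤ) (a : ℕ → ℤ), Ord S a → ∀ p : ℕ, p.Prime →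
  ∀ (n : ℕ) (W : Finset ℤ), 2 ≤ n → n ≤ W.card → (W : Set ℤ) ⊆ S →
    PS (vd p) (A a n) * (W.card : ℝ) ^ 2 ≤ (n : ℝ) ^ 2 * PS (vd p) W

/-- PAIR: higher powers of `p` contribute little -/
def Stmt_PAIR : Prop := ∀ (W : Finset ℤ) (g p : ℕ), p.Prime → InWin W g →
  2 * PS (vd p) W ≤ prs p W + 4 * W.card * g / (p : ℝ) ^ 2

/-- CLS: residue classes and pairs -/
def Stmt_CLS : Prop :=
  (∀ (W : Finset ℤ) (p : ℕ), 1 ≤ p → (W.card : ℝ) ^ 2 ≤ p * prs p W) ∧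
  ∀ (S : Set ℤ) (a : ℕ → ℤ), Ord S a → ∀ p : ℕ, p.Prime → ∀ (n : ℕ) (W : Finset ℤ),
    (W : Set ℤ) ⊆ S → PS (vd p) (A a n) ≠ 0 → (W.card : ℝ) ^ 2 ≤ n * prs p W

/-- BIGP: the contribution of the large primes -/
def Stmt_BIGP : Prop := ∀ (S : Set ℤ) (a : ℕ → ℤ) (θ C₀ δ : ℝ), Ord S a → 0 < θ → θ < 1 →
  1 ≤ C₀ → Growth S θ C₀ → 0 < δ → θ * (1 + δ) < 1 →
  ∃ C : ℝ, ∀ N n Q : ℕ, 2 ≤ n → n ≤ N → N ≤ 3 * n → 1 ≤ Q → Q ≤ n →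
    ((G S N : ℝ) / N) ^ (1 + δ) ≤ Q →
    ∀ P : Finset ℕ, (∀ p ∈ P, p.Prime ∧ Q < p) →
      ∑ p ∈ P, Real.log p * (2 * PS (vd p) (A a n)) ≤
        (n : ℝ) ^ 2 * (Real.log n - Real.log Q + C)

/-- LOWY: lower bound for the generalized factorial at the small primes -/
def Stmt_LOWY : Prop := ∀ (S : Set ℤ) (a : ℕ → ℤ) (θ C₀ δ : ℝ), Ord S a → 0 < θ → θ < 1 →
  1 ≤ C₀ → Growth S θ C₀ → 0 < δ → θ * (1 + δ) < 1 →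
  ∃ C : ℝ, ∀ N n Q : ℕ, 2 ≤ n → 2 * n ≤ N → N ≤ 2 * n + 1 → Rec S N → 1 ≤ Q → Q ≤ n →
    ((G S N : ℝ) / N) ^ (1 + δ) ≤ Q →
    (n : ℝ) * (Real.log (G S N) - Real.log N + Real.log Q - C) ≤
      ∑ p ∈ Q.primesLE, Real.log p * wv p a n

/-- EARLYU: any finite set of integers; the primes in `(Q, |X|]` take their share -/
def Stmt_EARLYU : Prop := ∃ C : ℝ, ∀ (X : Finset ℤ) (Q : ℕ), 1 ≤ Q → Q ≤ X.card →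
  2 * ∑ p ∈ Q.primesLE, Real.log p * PS (vd p) X ≤
    2 * PS ld X - (X.card : ℝ) ^ 2 * (Real.log X.card - Real.log Q - C)

/-- ZSEL: most elements of a set with small energy lie in a ball -/
def Stmt_ZSEL : Prop := ∀ X : Finset ℤ, 1 < X.card →
  2 * PS ld X ≤ 3 * (X.card : ℝ) ^ 2 * Real.log X.card →
  ∃ z₀ ∈ X, ∃ Z : Finset ℤ, Z ⊆ X ∧
    (∀ z ∈ Z, |z - z₀| ≤ (⌊Real.exp (Real.log X.card ^ 2)⌋₊ : ℤ)) ∧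
    (X.card : ℝ) * (1 - 3 / Real.log X.card) ≤ Z.card

/-- KSUM: the kernel and the energy -/
def Stmt_KSUM : Prop := ∀ (Q R : ℕ), 1 ≤ R →
  (∀ X : Finset ℤ, ∑ x ∈ X, ∑ y ∈ X, K Q R x y ≤
    X.card * DK Q R + 2 * ∑ p ∈ Q.primesLE, Real.log p * PS (vd p) X) ∧
  DK Q R ≤ Q * Real.log R

/-- CS: Cauchy-Schwarz for the kernel -/
def Stmt_CS : Prop := ∀ (Q R : ℕ) (X Y : Finset ℤ),
  (∑ x ∈ X, ∑ y ∈ Y, K Q R x y) ^ 2 ≤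
    (∑ x ∈ X, ∑ y ∈ X, K Q R x y) * ∑ x ∈ Y, ∑ y ∈ Y, K Q R x y

/-- HIGH: the high prime powers -/
def Stmt_HIGH : Prop := ∀ (Z B : Finset ℤ) (z₀ : ℤ) (ρ R Q : ℕ) (g T : ℝ), 1 ≤ g →
  R = 2 * ρ + 1 → (∀ z ∈ Z, |z - z₀| ≤ (ρ : ℤ)) → z₀ ∈ B →
  ∑ y ∈ B.erase z₀, max 0 (ld z₀ y - Real.log g) ≤ T →
  ∑ z ∈ Z, ∑ y ∈ B.erase z, ∑ p ∈ Q.primesLE,
      Real.log p * (vd p z y - (tv p (Nat.log p R) (z - y) : ℝ)) ≤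
    12 * Z.card * Q * (g / R + 1) + Q * (3 * B.card + 2 * T)

/-- ABOUND: the early elements -/
def Stmt_ABOUND : Prop := ∀ (S : Set ℤ) (a : ℕ → ℤ) (θ C₀ δ : ℝ), Ord S a → 0 < θ → θ < 1 →
  1 ≤ C₀ → Growth S θ C₀ → 0 < δ →
  ∃ (C : ℝ) (P₀ : ℕ), ∀ P Q : ℕ, P₀ ≤ P → 1 ≤ Q → (Q : ℝ) ^ (1 + δ) ≤ P →
    ∃ (z₀ : ℤ) (Z : Finset ℤ) (ρ : ℕ), z₀ ∈ A a P ∧ Z ⊆ A a P ∧ (∀ z ∈ Z, |z - z₀| ≤ (ρ : ℤ)) ∧
      P ^ 2 ≤ ρ ∧ (P : ℝ) ≤ 2 * Z.card ∧ DK Q (2 * ρ + 1) ≤ C * P ∧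
      ∑ x ∈ Z, ∑ y ∈ Z, K Q (2 * ρ + 1) x y ≤
        (Z.card : ℝ) ^ 2 * (Real.log (G S P) - Real.log P + Real.log Q + C)

/-- YUP: transport from the scale `N` to the scale `P` -/
def Stmt_YUP : Prop := ∀ (S : Set ℤ) (a : ℕ → ℤ) (θ C₀ δ : ℝ), Ord S a → 0 < θ → θ < 1 →
  1 ≤ C₀ → Growth S θ C₀ → 0 < δ →
  ∃ (C : ℝ) (P₀ : ℕ), ∀ N n P Q : ℕ, P₀ ≤ P → 1 ≤ Q → (Q : ℝ) ^ (1 + δ) ≤ P → P ≤ n →
    2 * n ≤ N → N ≤ 2 * n + 1 → Rec S N → (G S N : ℝ) ≤ Q * N →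
    ∑ p ∈ Q.primesLE, Real.log p * wv p a n ≤
      (n : ℝ) * (Real.log (G S P) - Real.log P + Real.log Q + C)

/-- BOUNDED: bounded ratio at record scales -/
def Stmt_BOUNDED : Prop := ∀ (S : Set ℤ) (a : ℕ → ℤ) (θ C₀ : ℝ), Ord S a → 0 < θ → θ < 1 →
  1 ≤ C₀ → Growth S θ C₀ →
  ∃ (C : ℝ) (N₀ : ℕ), ∀ N : ℕ, N₀ ≤ N → Rec S N → (G S N : ℝ) ≤ C * N

/-- MAIN -/
def Stmt_MAIN : Prop := ∀ S : Set ℤ, HalfDense S → HasSimultaneousOrdering S →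
  PosUpperBanachDensity S

end Pool.Agent.Work.MP_b29d7f_half
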