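import Pool.Agent.Work.MP_0b7501_nt.LargeSieve
import Pool.Agent.Work.MP_b29d7f_half.Interface

/-!
Large sieve for prime moduli in the pair counting form: if `W` is a set of `m` integers
in an interval of length `N` and `P` is a finite set of primes `≤ T` then
`∑ p ∈ P, (p * #{(x,y) ∈ W² : p ∣ x - y} - m²) ≤ 16 * max N (T²) * m`.
-/

namespace Pool.Agent.Work.MP_b29d7f_half

open Finset

/-- ordered pairs of `W` congruent mod `p` (naturals) -/
def prsN (W : Finset ℕ) (p : ℕ) : ℕ := ((W ×ˢ W).filter (fun z => z.1 % p = z.2 % p)).card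

/-- class count -/
def cls (W : Finset ℕ) (p c : ℕ) : ℕ := (W.filter (fun x => x % p = c)).card

lemma sum_cls (W : Finset ℕ) (p : ℕ) (hp : 0 < p) : ∑ c ∈ range p, (cls W p c : ℝ) = W.card := by
  have h := Finset.card_eq_sum_card_fiberwise (s := W) (t := range p) (f := fun x => x % p)
    (fun x _ => by simpa using Nat.mod_lt x hp)
  rw [h]
  push_cast
  rfl

lemma prsN_eq (W : Finset ℕ) (p : ℕ) : (prsN W p : ℝ) = ∑ x ∈ W, (cls W p (x % p) : ℝ) := by
  unfold prsN cls
  rw [Finset.card_filter, Finset.sum_product]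
  push_cast
  refine Finset.sum_congr rfl fun x _ => ?_
  rw [Finset.card_filter]
  push_cast
  refine Finset.sum_congr rfl fun y _ => ?_
  simp only [eq_comm]

lemma sum_cls_sq (W : Finset ℕ) (p : ℕ) (hp : 0 < p) :
    ∑ c ∈ range p, (cls W p c : ℝ) ^ 2 = prsN W p := by
  rw [prsN_eq]
  have h : ∀ x ∈ W, (cls W p (x % p) : ℝ) = ∑ c ∈ range p, if x % p = c then (cls W p c : ℝ) else 0 := by
    intro x _
    rw [Finset.sum_ite_eq, if_pos (mem_range.mpr (Nat.mod_lt x hp))]
  rw [Finset.sum_congr rfl h, Finset.sum_comm]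
  refine Finset.sum_congr rfl fun c _ => ?_
  rw [← Finset.sum_filter, Finset.sum_const, nsmul_eq_mul, sq]
  rfl

/-- deviation -/
noncomputable def dv (W : Finset ℕ) (p n : ℕ) : ℝ := p * cls W p (n % p) - W.card

theorem large_sieve_pairs_nat (N T : ℕ) (P : Finset ℕ) (hP : ∀ p ∈ P, p.Prime ∧ p ≤ T)
    (W : Finset ℕ) (hW : ∀ x ∈ W, x ≤ N) :
    ∑ p ∈ P, ((p : ℝ) * prsN W p - (W.card : ℝ) ^ 2) ≤ 16 * (max N (T ^ 2) : ℕ) * W.card := by
  classical
  rcases P.eq_empty_or_nonempty with hPe | ⟨p0, hp0⟩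
  · subst hPe
    simp only [sum_empty]
    positivity
  have hT : 1 ≤ T := le_trans (hP p0 hp0).1.one_lt.le (hP p0 hp0).2
  obtain ⟨D, w, hND, hw0, hw1, hdvd, heq⟩ :=
    MP_0b7501_nt.exists_weight N (T ^ 2) (Nat.one_le_pow _ _ hT)
  set V : ℝ := 16 * (max N (T ^ 2) : ℕ) with hV
  have hV0 : 0 ≤ V := by positivity
  set m : ℝ := (W.card : ℝ) with hm
  have hm0 : 0 ≤ m := by positivity
  -- weighted average over classes
  have havg : ∀ k, 1 ≤ k → k ≤ T ^ 2 → ∀ f : ℕ → ℝ,
      ∑ n ∈ range D, w n * f (n % k) = V / k * ∑ c ∈ range k, f c := by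
    intro k h1 h2 f
    have h3 : ∀ n ∈ range D, w n * f (n % k) =
        ∑ c ∈ range k, if n % k = c then w n * f c else 0 := by
      intro n _
      rw [Finset.sum_ite_eq, if_pos (mem_range.mpr (Nat.mod_lt n h1))]
    rw [Finset.sum_congr rfl h3, Finset.sum_comm, Finset.mul_sum]
    refine Finset.sum_congr rfl fun c hc => ?_
    rw [← heq k c h1 h2 (mem_range.mp hc), ← Finset.sum_filter, Finset.sum_mul]
  let F : ℕ → ℝ := fun n => ∑ p ∈ P, dv W p n
  have hp1 : ∀ p ∈ P, 1 ≤ p := fun p hp => (hP p hp).1.one_lt.le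
  have hp2 : ∀ p ∈ P, p ≤ T ^ 2 := fun p hp => le_trans (hP p hp).2 (Nat.le_self_pow two_ne_zero T)
  set L : ℝ := ∑ p ∈ P, ((p : ℝ) * prsN W p - m ^ 2) with hL
  -- sum of F over W
  have hsumF : ∑ x ∈ W, F x = L := by
    simp only [F]
    rw [Finset.sum_comm, hL]
    refine Finset.sum_congr rfl fun p _ => ?_
    simp only [dv]
    rw [Finset.sum_sub_distrib, ← Finset.mul_sum, ← prsN_eq]
    simp only [Finset.sum_const, nsmul_eq_mul]
    rw [← hm]; ring
  -- zero mean
  have hmean : ∀ p ∈ P, ∑ c ∈ range p, ((p : ℝ) * cls W p c - m) = 0 := by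
    intro p hp
    rw [Finset.sum_sub_distrib, ← Finset.mul_sum, sum_cls W p (hp1 p hp)]
    simp only [Finset.sum_const, card_range, nsmul_eq_mul]
    rw [← hm]; ring
  have hdiag : ∀ p ∈ P, ∑ n ∈ range D, w n * (dv W p n * dv W p n) =
      V * ((p : ℝ) * prsN W p - m ^ 2) := by
    intro p hp
    have hp0 : (p : ℝ) ≠ 0 := by have := hp1 p hp; positivity
    have h := havg p (hp1 p hp) (hp2 p hp)
      (fun c => ((p : ℝ) * cls W p c - m) * ((p : ℝ) * cls W p c - m))
    have h' : ∀ n, dv W p n * dv W p n =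
      (fun c => ((p : ℝ) * cls W p c - m) * ((p : ℝ) * cls W p c - m)) (n % p) := by
      intro n; rfl
    simp_rw [h']
    rw [h]
    have h4 : ∑ c ∈ range p, ((p : ℝ) * cls W p c - m) * ((p : ℝ) * cls W p c - m) =
        (p : ℝ) ^ 2 * prsN W p - p * m ^ 2 := by
      have : ∀ c ∈ range p, ((p : ℝ) * cls W p c - m) * ((p : ℝ) * cls W p c - m) =
          (p : ℝ) ^ 2 * (cls W p c : ℝ) ^ 2 - 2 * p * m * cls W p c + m ^ 2 := by
        intro c _; ring
      rw [Finset.sum_congr rfl this, Finset.sum_add_distrib, Finset.sum_sub_distrib,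
        ← Finset.mul_sum, ← Finset.mul_sum, sum_cls W p (hp1 p hp), sum_cls_sq W p (hp1 p hp)]
      simp only [Finset.sum_const, card_range, nsmul_eq_mul]
      rw [← hm]; ring
    rw [h4]
    field_simp
  have hcross : ∀ p ∈ P, ∀ q ∈ P, p ≠ q → ∑ n ∈ range D, w n * (dv W p n * dv W q n) = 0 := by
    intro p hp q hq hne
    have hcop : Nat.Coprime p q := (Nat.coprime_primes (hP p hp).1 (hP q hq).1).mpr hne
    have hpq : p * q ≤ T ^ 2 := by
      rw [sq]; exact Nat.mul_le_mul (hP p hp).2 (hP q hq).2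
    have hpq1 : 1 ≤ p * q := Nat.mul_pos (hp1 p hp) (hp1 q hq)
    have h := havg (p * q) hpq1 hpq
      (fun c => ((p : ℝ) * cls W p (c % p) - m) * ((q : ℝ) * cls W q (c % q) - m))
    have h' : ∀ n, dv W p n * dv W q n =
      (fun c => ((p : ℝ) * cls W p (c % p) - m) * ((q : ℝ) * cls W q (c % q) - m)) (n % (p * q)) := by
      intro n
      simp only [dv]
      rw [Nat.mod_mul_right_mod, Nat.mod_mul_left_mod]
    simp_rw [h']
    rw [h]
    have h5 : ∑ c ∈ range (p * q), ((p : ℝ) * cls W p (c % p) - m) * ((q : ℝ) * cls W q (c % q) - m)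
        = ∑ a ∈ range p, ∑ b ∈ range q, ((p : ℝ) * cls W p a - m) * ((q : ℝ) * cls W q b - m) := by
      rw [← Finset.sum_product']
      refine Finset.sum_bij (fun c _ => (c % p, c % q)) ?_ ?_ ?_ ?_
      · intro c _
        simp only [mem_product, mem_range]
        exact ⟨Nat.mod_lt _ (hp1 p hp), Nat.mod_lt _ (hp1 q hq)⟩
      · intro c hc c' hc' h6
        simp only [Prod.mk.injEq] at h6
        have h7 : c ≡ c' [MOD p * q] := (Nat.modEq_and_modEq_iff_modEq_mul hcop).mp ⟨h6.1, h6.2⟩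
        have h8 := h7
        rw [Nat.ModEq, Nat.mod_eq_of_lt (mem_range.mp hc), Nat.mod_eq_of_lt (mem_range.mp hc')] at h8
        exact h8
      · intro ab hab
        obtain ⟨a, b⟩ := ab
        simp only [mem_product, mem_range] at hab
        set z := Nat.chineseRemainder hcop a b with hz
        have hzlt : (z : ℕ) < p * q := Nat.chineseRemainder_lt_mul hcop a b
          (hP p hp).1.ne_zero (hP q hq).1.ne_zero
        refine ⟨z, mem_range.mpr hzlt, ?_⟩
        have hzc := z.2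
        have e1 : (z : ℕ) % p = a := by
          have := hzc.1; rw [Nat.ModEq, Nat.mod_eq_of_lt hab.1] at this; exact this
        have e2 : (z : ℕ) % q = b := by
          have := hzc.2; rw [Nat.ModEq, Nat.mod_eq_of_lt hab.2] at this; exact this
        rw [e1, e2]
      · intro c _
        rfl
    rw [h5]
    have h6 : ∑ a ∈ range p, ∑ b ∈ range q, ((p : ℝ) * cls W p a - m) * ((q : ℝ) * cls W q b - m)
        = (∑ a ∈ range p, ((p : ℝ) * cls W p a - m)) * (∑ b ∈ range q, ((q : ℝ) * cls W q b - m)) := by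
      rw [Finset.sum_mul_sum]
    rw [h6, hmean p hp]
    ring
  have hsecond : ∑ n ∈ range D, w n * (F n) ^ 2 = V * L := by
    have h1 : ∀ n, w n * (F n) ^ 2 = ∑ p ∈ P, ∑ q ∈ P, w n * (dv W p n * dv W q n) := by
      intro n
      simp only [F]
      rw [sq, Finset.sum_mul_sum, Finset.mul_sum]
      refine Finset.sum_congr rfl fun p _ => ?_
      rw [Finset.mul_sum]
    simp_rw [h1]
    rw [Finset.sum_comm, hL, Finset.mul_sum]
    refine Finset.sum_congr rfl fun p hp => ?_
    rw [Finset.sum_comm, Finset.sum_eq_single p]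
    · exact hdiag p hp
    · intro q hq hne
      exact hcross p hp q hq hne.symm
    · intro h; exact absurd hp h
  have hcs : L ^ 2 ≤ m * ∑ x ∈ W, (F x) ^ 2 := by
    rw [← hsumF, hm]
    exact sq_sum_le_card_mul_sum_sq
  have hle : ∑ x ∈ W, (F x) ^ 2 ≤ ∑ n ∈ range D, w n * (F n) ^ 2 := by
    calc ∑ x ∈ W, (F x) ^ 2 ≤ ∑ x ∈ W, w x * (F x) ^ 2 := by
          refine Finset.sum_le_sum fun x hx => ?_
          have := hw1 x (hW x hx)
          nlinarith [sq_nonneg (F x)]
      _ ≤ ∑ n ∈ range D, w n * (F n) ^ 2 := by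
          refine Finset.sum_le_sum_of_subset_of_nonneg ?_ ?_
          · intro x hx
            exact mem_range.mpr (lt_of_le_of_lt (hW x hx) hND)
          · intro n _ _
            exact mul_nonneg (hw0 n) (sq_nonneg _)
  have hfin : L ^ 2 ≤ m * (V * L) := by
    rw [← hsecond]
    exact le_trans hcs (mul_le_mul_of_nonneg_left hle hm0)
  rcases le_or_gt L 0 with h | h
  · exact le_trans h (mul_nonneg hV0 hm0)
  · nlinarith

/-- the large sieve for a set of integers in an interval `[a, a+N]` -/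
theorem large_sieve_pairs (N T : ℕ) (P : Finset ℕ) (hP : ∀ p ∈ P, p.Prime ∧ p ≤ T)
    (a : ℤ) (W : Finset ℤ) (hW : ∀ x ∈ W, a ≤ x ∧ x ≤ a + N) :
    ∑ p ∈ P, ((p : ℝ) * prs p W - (W.card : ℝ) ^ 2) ≤ 16 * (max N (T ^ 2) : ℕ) * W.card := by
  classical
  let g : ℤ → ℕ := fun x => (x - a).toNat
  have hg : ∀ x ∈ W, ((g x : ℕ) : ℤ) = x - a := by
    intro x hx
    simp only [g]
    rw [Int.toNat_of_nonneg]
    linarith [(hW x hx).1]
  have hinj : Set.InjOn g (W : Set ℤ) := by
    intro x hx y hy h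
    have h1 := hg x hx
    have h2 := hg y hy
    rw [h] at h1
    linarith
  have hcard : (W.image g).card = W.card := Finset.card_image_of_injOn hinj
  have hprs : ∀ p, prsN (W.image g) p = prs p W := by
    intro p
    unfold prsN prs
    symm
    refine Finset.card_bij (fun z _ => (g z.1, g z.2)) ?_ ?_ ?_
    · intro z hz
      simp only [mem_filter, mem_product] at hz
      simp only [mem_filter, mem_product, mem_image]
      refine ⟨⟨⟨z.1, hz.1.1, rfl⟩, ⟨z.2, hz.1.2, rfl⟩⟩, ?_⟩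
      have h1 := hg z.1 hz.1.1
      have h2 := hg z.2 hz.1.2
      have h3 : (p : ℤ) ∣ ((g z.2 : ℕ) : ℤ) - ((g z.1 : ℕ) : ℤ) := by
        rw [h1, h2]
        have := (dvd_neg).mpr hz.2
        rw [neg_sub] at this
        have e : z.2 - a - (z.1 - a) = z.2 - z.1 := by ring
        rw [e]; exact this
      have h4 : g z.1 ≡ g z.2 [MOD p] := (Nat.modEq_iff_dvd).mpr h3
      exact h4
    · intro z hz z' hz' h
      simp only [mem_filter, mem_product] at hz hz'
      simp only [Prod.mk.injEq] at h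
      exact Prod.ext (hinj hz.1.1 hz'.1.1 h.1) (hinj hz.1.2 hz'.1.2 h.2)
    · intro b hb
      simp only [mem_filter, mem_product, mem_image] at hb
      obtain ⟨⟨⟨x, hx, hxb⟩, ⟨y, hy, hyb⟩⟩, hmod⟩ := hb
      refine ⟨(x, y), ?_, ?_⟩
      · simp only [mem_filter, mem_product]
        refine ⟨⟨hx, hy⟩, ?_⟩
        have h1 := hg x hx
        have h2 := hg y hy
        rw [← hxb, ← hyb] at hmod
        have h4 : (p : ℤ) ∣ ((g y : ℕ) : ℤ) - ((g x : ℕ) : ℤ) := (Nat.modEq_iff_dvd).mp hmod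
        rw [h1, h2] at h4
        have e : y - a - (x - a) = -(x - y) := by ring
        rw [e] at h4
        exact (dvd_neg).mp h4
      · simp only [hxb, hyb]
  have h := large_sieve_pairs_nat N T P hP (W.image g) (by
    intro x hx
    simp only [mem_image] at hx
    obtain ⟨y, hy, rfl⟩ := hx
    have h1 := hg y hy
    have h2 := (hW y hy).2
    have h3 : ((g y : ℕ) : ℤ) ≤ (N : ℤ) := by rw [h1]; linarith
    exact_mod_cast h3)
  rw [hcard] at h
  simp_rw [hprs] at h
  exact h

/-- every summand of the large sieve is nonnegative (Cauchy-Schwarz) -/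
lemma prsN_ge (W : Finset ℕ) (p : ℕ) (hp : 0 < p) :
    (W.card : ℝ) ^ 2 ≤ (p : ℝ) * prsN W p := by
  rw [← sum_cls_sq W p hp, ← sum_cls W p hp]
  have h := sq_sum_le_card_mul_sum_sq (s := range p) (f := fun c => (cls W p c : ℝ))
  rw [card_range] at h
  exact h

theorem stmt_SIEVE : Stmt_SIEVE := by
  intro W g T _ hW P hP
  obtain ⟨u, hu⟩ := hW
  exact large_sieve_pairs g T P hP u W (fun x hx => ⟨(hu x hx).1, (hu x hx).2.le⟩)

end Pool.Agent.Work.MP_b29d7f_half
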