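import Pool.Agent.Work.MP_b29d7f_half.Tools

/-!
# Block TOP
-/

namespace Pool.Agent.Work.MP_b29d7f_half

open Finset
open Pool.Agent.Work.MP_b29d7f_nt (IsPOrdering HasSimultaneousOrdering PosUpperBanachDensity
  PS vd ld tv ld_comm)

/-- the logarithm of a difference inside a window -/
theorem ld_le_of_inWin {W : Finset ℤ} {L : ℕ} (hW : InWin W L) {x y : ℤ} (hx : x ∈ W)
    (hy : y ∈ W) (hxy : x ≠ y) : ld x y ≤ Real.log L := by
  obtain ⟨u, hu⟩ := hW
  obtain ⟨h1, h2⟩ := hu x hx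
  obtain ⟨h3, h4⟩ := hu y hy
  have h5 : |x - y| ≤ (L : ℤ) := by
    rw [abs_le]
    constructor <;> omega
  have h6 : 1 ≤ |x - y| := Int.one_le_abs (sub_ne_zero.mpr hxy)
  unfold ld
  refine Real.log_le_log ?_ ?_
  · have : (0 : ℝ) < ((|x - y| : ℤ) : ℝ) := by exact_mod_cast (by omega : (0 : ℤ) < |x - y|)
    rwa [Int.cast_abs] at this
  · have : ((|x - y| : ℤ) : ℝ) ≤ ((L : ℤ) : ℝ) := by exact_mod_cast h5
    rw [Int.cast_abs, Int.cast_natCast] at this
    exact this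

/-- the energy of a set in a window -/
theorem two_PS_ld_le {W : Finset ℤ} {L : ℕ} (hW : InWin W L) :
    2 * PS ld W ≤ (W.card : ℝ) * (W.card - 1) * Real.log L := by
  classical
  rw [two_PS ld ld_comm]
  have h1 : ∀ x ∈ W, ∑ y ∈ W.erase x, ld x y ≤ ((W.card : ℝ) - 1) * Real.log L := by
    intro x hx
    have h2 : ∑ y ∈ W.erase x, ld x y ≤ ∑ _y ∈ W.erase x, Real.log L := by
      refine Finset.sum_le_sum fun y hy => ?_
      rw [Finset.mem_erase] at hy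
      exact ld_le_of_inWin hW hx hy.2 (Ne.symm hy.1)
    rw [Finset.sum_const, nsmul_eq_mul, Finset.card_erase_of_mem hx] at h2
    have h3 : ((W.card - 1 : ℕ) : ℝ) = (W.card : ℝ) - 1 := by
      rw [Nat.cast_sub (Finset.card_pos.mpr ⟨x, hx⟩), Nat.cast_one]
    rwa [h3] at h2
  calc ∑ x ∈ W, ∑ y ∈ W.erase x, ld x y ≤ ∑ _x ∈ W, ((W.card : ℝ) - 1) * Real.log L :=
        Finset.sum_le_sum h1
    _ = (W.card : ℝ) * (W.card - 1) * Real.log L := by
        rw [Finset.sum_const, nsmul_eq_mul]; ring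

theorem stmt_TOP (h1 : Stmt_GBAS) (h2 : Stmt_ORD) : Stmt_TOP := by
  intro S a ho m _
  obtain ⟨hW, -, -, -⟩ := h1 S ho.inf
  obtain ⟨W, hWS, hWc, hWin⟩ := hW m
  obtain ⟨-, -, -, hle, -, -⟩ := h2 S a ho
  have h3 := hle W hWS
  have h4 := two_PS_ld_le hWin
  rw [hWc] at h3 h4
  linarith

end Pool.Agent.Work.MP_b29d7f_half
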