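import Pool.Agent.Work.MP_b29d7f_half.Tools

/-!
# Block YUP: transport from the scale `N` to the scale `P`
-/

namespace Pool.Agent.Work.MP_b29d7f_half

open Finset
open Pool.Agent.Work.MP_b29d7f_nt (IsPOrdering HasSimultaneousOrdering PosUpperBanachDensity
  PS vd ld tv vd_comm vd_nonneg)

theorem yup_core {z y n s H U c1 c2 c3 : ℝ} (hz : 0 < z) (hn : 0 < n) (hU : 0 ≤ U)
    (hc3 : 0 ≤ c3) (hy : 0 ≤ y) (h1 : z * y - z * (c1 * n) ≤ s + H) (h2 : H ≤ z * (c2 * n))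
    (h3 : s ^ 2 ≤ (z ^ 2 * U) * (n * (y + c3 * n))) (hc : 0 ≤ c1 + c2) :
    y ≤ n * (U + (2 * (c1 + c2) + c3)) := by
  by_cases ht : y ≤ (c1 + c2) * n
  · nlinarith [mul_nonneg hn.le hU, mul_nonneg hn.le hc3, mul_nonneg hn.le hc]
  push Not at ht
  set t := y - (c1 + c2) * n with htdef
  have ht0 : 0 < t := by linarith
  have h4 : z * t ≤ s := by
    have : z * t = z * y - z * (c1 * n) - z * (c2 * n) := by rw [htdef]; ring
    linarith
  have h5 : (z * t) ^ 2 ≤ (z ^ 2 * U) * (n * (y + c3 * n)) :=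
    (pow_le_pow_left₀ (by positivity) h4 2).trans h3
  have h6 : t ^ 2 ≤ U * n * (y + c3 * n) := by
    have h7 : z ^ 2 * t ^ 2 ≤ z ^ 2 * (U * n * (y + c3 * n)) := by
      calc z ^ 2 * t ^ 2 = (z * t) ^ 2 := by ring
        _ ≤ _ := h5
        _ = _ := by ring
    exact le_of_mul_le_mul_left h7 (by positivity)
  have h8 : t ^ 2 ≤ ((U * n + (y + c3 * n)) / 2) ^ 2 := by
    nlinarith [sq_nonneg (U * n - (y + c3 * n))]
  have h9 : 0 ≤ (U * n + (y + c3 * n)) / 2 := by positivity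
  have h10 : t ≤ (U * n + (y + c3 * n)) / 2 := by
    exact le_of_sq_le_sq h8 h9
  rw [htdef] at h10
  linarith

theorem K_nonneg (Q R : ℕ) (x y : ℤ) : 0 ≤ K Q R x y := by
  unfold K
  refine Finset.sum_nonneg fun p _ => mul_nonneg (Real.log_natCast_nonneg p) (Nat.cast_nonneg _)

theorem stmt_YUP (hGB : Stmt_GBAS) (hORD : Stmt_ORD) (hPOT : Stmt_POT) (hKS : Stmt_KSUM)
    (hCS : Stmt_CS) (hHI : Stmt_HIGH) (hAB : Stmt_ABOUND) : Stmt_YUP := by
  intro S a θ C₀ δ hO hθ0 hθ1 hC₀ hG hδ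
  obtain ⟨C, P₀, hA⟩ := hAB S a θ C₀ δ hO hθ0 hθ1 hC₀ hG hδ
  obtain ⟨hinj, hmem, -, -, hwv, hdef⟩ := hORD S a hO
  obtain ⟨-, -, -, hle⟩ := hGB S hO.inf
  have hlC : 0 ≤ Real.log C₀ := Real.log_nonneg hC₀
  set C' : ℝ := max C 0 with hC'
  have hC'0 : 0 ≤ C' := le_max_right _ _
  have hCC' : C ≤ C' := le_max_left _ _
  set cT : ℝ := Real.log C₀ + 30 with hcT
  have hcT0 : 0 ≤ cT := by positivity
  refine ⟨C' + (2 * (cT + (54 + 4 * cT)) + C'), max P₀ 1, ?_⟩
  intro N n P Q hP hQ hQP hPn hN1 hN2 hRec hgQ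
  have hP1 : 1 ≤ P := (le_max_right _ _).trans hP
  have hn1 : 1 ≤ n := hP1.trans hPn
  have hnr : (1 : ℝ) ≤ n := by exact_mod_cast hn1
  have hPr : (1 : ℝ) ≤ P := by exact_mod_cast hP1
  have hQr : (1 : ℝ) ≤ Q := by exact_mod_cast hQ
  have hPnr : (P : ℝ) ≤ n := by exact_mod_cast hPn
  have hNr : (N : ℝ) ≤ 3 * n := by exact_mod_cast (by omega : N ≤ 3 * n)
  have hNr1 : (1 : ℝ) ≤ N := by exact_mod_cast (by omega : 1 ≤ N)
  have hgN : (N : ℝ) ≤ G S N := by exact_mod_cast hle N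
  have hg1 : (1 : ℝ) ≤ G S N := hNr1.trans hgN
  have hQPr : (Q : ℝ) ≤ P := by
    refine le_trans ?_ hQP
    exact Real.self_le_rpow_of_one_le hQr (by linarith)
  -- logarithm of `G N`
  have hlogg : Real.log (G S N) ≤ (Real.log C₀ + 6) * n := by
    have h1 : Real.log (G S N) ≤ Real.log (C₀ * (N : ℝ) ^ (1 + θ)) :=
      Real.log_le_log (by linarith) (hG N (by omega))
    rw [Real.log_mul (by positivity) (by positivity), Real.log_rpow (by linarith)] at h1
    have h2 : Real.log N ≤ N := (Real.log_le_sub_one_of_pos (by linarith)).trans (by linarith)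
    have h3 : 0 ≤ Real.log N := Real.log_nonneg hNr1
    nlinarith
  have hT : Real.log (G S N) + 8 * N ≤ cT * n := by rw [hcT]; nlinarith
  obtain ⟨z₀, Z, ρ, hz₀, hZ, hZρ, hρ, hPZ, hDK, hKZ⟩ :=
    hA P Q ((le_max_left _ _).trans hP) hQ hQP
  obtain ⟨-, hDEF, hTAIL⟩ := hPOT S a hO N n hn1 hN1 hN2 hRec
  have hAPn : A a P ⊆ A a n := A_mono hPn
  set R : ℕ := 2 * ρ + 1 with hR
  have hZpos : (0 : ℝ) < Z.card := by linarith
  have hprime : ∀ p ∈ Q.primesLE, p.Prime := fun p hp => Nat.prime_of_mem_primesLE hp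
  set Y : ℝ := ∑ p ∈ Q.primesLE, Real.log p * wv p a n with hY
  have hY0 : 0 ≤ Y := by
    refine Finset.sum_nonneg fun p _ => mul_nonneg (Real.log_natCast_nonneg p) ?_
    exact Finset.sum_nonneg fun i _ => vd_nonneg _ _ _
  -- the high part
  set H : ℝ := ∑ z ∈ Z, ∑ y ∈ (A a n).erase z, ∑ p ∈ Q.primesLE,
      Real.log p * (vd p z y - (tv p (Nat.log p R) (z - y) : ℝ)) with hH
  have hH1 : H ≤ 12 * Z.card * Q * ((G S N : ℝ) / R + 1) +
      Q * (3 * (A a n).card + 2 * (Real.log (G S N) + 8 * N)) :=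
    hHI Z (A a n) z₀ ρ R Q (G S N) (Real.log (G S N) + 8 * N) hg1 hR hZρ (hAPn hz₀)
      (hTAIL z₀ (hAPn hz₀))
  rw [card_A hinj] at hH1
  have hRpos : (0 : ℝ) < R := by rw [hR]; positivity
  have hPR : (P : ℝ) ^ 2 ≤ R := by
    have h1 : P ^ 2 ≤ R := by rw [hR]; omega
    exact_mod_cast h1
  have hQgR : (Q : ℝ) * ((G S N : ℝ) / R) ≤ 3 * n := by
    rw [mul_div_assoc', div_le_iff₀ hRpos]
    have h1 : (Q : ℝ) * G S N ≤ Q * (Q * N) := mul_le_mul_of_nonneg_left hgQ (by linarith)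
    have h2 : (Q : ℝ) * Q ≤ R := by
      calc (Q : ℝ) * Q ≤ P * P := mul_le_mul hQPr hQPr (by linarith) (by linarith)
        _ = (P : ℝ) ^ 2 := by ring
        _ ≤ R := hPR
    calc (Q : ℝ) * G S N ≤ Q * (Q * N) := h1
      _ = (Q * Q) * N := by ring
      _ ≤ R * (3 * n) := mul_le_mul h2 hNr (by linarith) hRpos.le
      _ = _ := by ring
  have hH2 : H ≤ Z.card * ((54 + 4 * cT) * n) := by
    refine hH1.trans ?_
    have h1 : 12 * (Z.card : ℝ) * Q * ((G S N : ℝ) / R + 1) ≤ Z.card * (48 * n) := by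
      have h2 : (Q : ℝ) * ((G S N : ℝ) / R + 1) ≤ 4 * n := by
        rw [mul_add]
        linarith
      calc 12 * (Z.card : ℝ) * Q * ((G S N : ℝ) / R + 1) =
            (12 * Z.card) * (Q * ((G S N : ℝ) / R + 1)) := by ring
        _ ≤ (12 * Z.card) * (4 * n) := mul_le_mul_of_nonneg_left h2 (by positivity)
        _ = _ := by ring
    have h3 : (Q : ℝ) * (3 * n + 2 * (Real.log (G S N) + 8 * N)) ≤
        Z.card * ((6 + 4 * cT) * n) := by
      calc (Q : ℝ) * (3 * n + 2 * (Real.log (G S N) + 8 * N)) ≤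
            (2 * Z.card) * (3 * n + 2 * (cT * n)) := by
            refine mul_le_mul (hQPr.trans hPZ) (by linarith) ?_ (by positivity)
            have := Real.log_nonneg hg1
            positivity
        _ = _ := by ring
    calc _ ≤ (Z.card : ℝ) * (48 * n) + Z.card * ((6 + 4 * cT) * n) := add_le_add h1 h3
      _ = _ := by ring
  -- the deficits
  set s : ℝ := ∑ z ∈ Z, ∑ y ∈ A a n, K Q R z y with hs
  have hmain : (Z.card : ℝ) * Y - Z.card * (cT * n) ≤ s + H := by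
    have h1 : ∀ z ∈ Z, Y - cT * n ≤
        ∑ y ∈ (A a n).erase z, ∑ p ∈ Q.primesLE, Real.log p * vd p z y := by
      intro z hz
      have h2 := (hDEF Q.primesLE hprime z (hAPn (hZ hz))).trans hT
      have h3 : ∑ p ∈ Q.primesLE, Real.log p * (wv p a n - ∑ y ∈ (A a n).erase z, vd p z y) =
          Y - ∑ y ∈ (A a n).erase z, ∑ p ∈ Q.primesLE, Real.log p * vd p z y := by
        rw [hY, Finset.sum_comm, ← Finset.sum_sub_distrib]
        refine Finset.sum_congr rfl fun p _ => ?_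
        rw [mul_sub, Finset.mul_sum]
      rw [h3] at h2
      linarith
    have h4 : (Z.card : ℝ) * Y - Z.card * (cT * n) ≤
        ∑ z ∈ Z, ∑ y ∈ (A a n).erase z, ∑ p ∈ Q.primesLE, Real.log p * vd p z y := by
      calc (Z.card : ℝ) * Y - Z.card * (cT * n) = ∑ z ∈ Z, (Y - cT * n) := by
            rw [Finset.sum_const, nsmul_eq_mul]; ring
        _ ≤ _ := Finset.sum_le_sum h1
    refine h4.trans ?_
    have h5 : ∑ z ∈ Z, ∑ y ∈ (A a n).erase z, ∑ p ∈ Q.primesLE, Real.log p * vd p z y =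
        (∑ z ∈ Z, ∑ y ∈ (A a n).erase z, K Q R z y) + H := by
      rw [hH, ← Finset.sum_add_distrib]
      refine Finset.sum_congr rfl fun z _ => ?_
      rw [← Finset.sum_add_distrib]
      refine Finset.sum_congr rfl fun y _ => ?_
      unfold K
      rw [← Finset.sum_add_distrib]
      refine Finset.sum_congr rfl fun p _ => ?_
      ring
    rw [h5]
    have h6 : (∑ z ∈ Z, ∑ y ∈ (A a n).erase z, K Q R z y) ≤ s := by
      rw [hs]
      refine Finset.sum_le_sum fun z _ => ?_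
      exact Finset.sum_le_sum_of_subset_of_nonneg (Finset.erase_subset _ _)
        fun y _ _ => K_nonneg _ _ _ _
    linarith
  -- the energy of `A_n`
  have hAA : ∑ x ∈ A a n, ∑ y ∈ A a n, K Q R x y ≤ n * (Y + C' * n) := by
    refine ((hKS Q R (by rw [hR]; omega)).1 (A a n)).trans ?_
    rw [card_A hinj]
    have h1 : (n : ℝ) * DK Q R ≤ n * (C' * n) := by
      refine mul_le_mul_of_nonneg_left ?_ (by linarith)
      calc DK Q R ≤ C * P := hDK
        _ ≤ C' * P := mul_le_mul_of_nonneg_right hCC' (by linarith)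
        _ ≤ C' * n := mul_le_mul_of_nonneg_left hPnr hC'0
    have h2 : 2 * ∑ p ∈ Q.primesLE, Real.log p * PS (vd p) (A a n) ≤ n * Y := by
      rw [hY, Finset.mul_sum, Finset.mul_sum]
      refine Finset.sum_le_sum fun p hp => ?_
      have h3 : 2 * PS (vd p) (A a n) ≤ n * wv p a n := by
        rw [two_PS (vd p) (vd_comm p)]
        calc ∑ x ∈ A a n, ∑ y ∈ (A a n).erase x, vd p x y ≤ ∑ x ∈ A a n, wv p a n :=
              Finset.sum_le_sum fun x hx => hwv p (hprime p hp) n x hx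
          _ = n * wv p a n := by rw [Finset.sum_const, nsmul_eq_mul, card_A hinj]
      have h4 : 0 ≤ Real.log p := Real.log_natCast_nonneg p
      nlinarith
    calc _ ≤ (n : ℝ) * (C' * n) + n * Y := add_le_add h1 h2
      _ = _ := by ring
  have hAA0 : 0 ≤ ∑ x ∈ A a n, ∑ y ∈ A a n, K Q R x y :=
    Finset.sum_nonneg fun x _ => Finset.sum_nonneg fun y _ => K_nonneg _ _ _ _
  set U : ℝ := Real.log (G S P) - Real.log P + Real.log Q + C' with hU
  have hU0 : 0 ≤ U := by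
    have h1 : Real.log P ≤ Real.log (G S P) :=
      Real.log_le_log (by linarith) (by exact_mod_cast hle P)
    have h2 : 0 ≤ Real.log Q := Real.log_nonneg hQr
    rw [hU]
    linarith
  have hZZ : ∑ x ∈ Z, ∑ y ∈ Z, K Q R x y ≤ (Z.card : ℝ) ^ 2 * U := by
    refine hKZ.trans (mul_le_mul_of_nonneg_left ?_ (by positivity))
    rw [hU]
    linarith
  have hCS1 : s ^ 2 ≤ ((Z.card : ℝ) ^ 2 * U) * (n * (Y + C' * n)) :=
    (hCS Q R Z (A a n)).trans (mul_le_mul hZZ hAA hAA0 (by positivity))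
  have hfin := yup_core hZpos (by linarith : (0 : ℝ) < n) hU0 hC'0 hY0 hmain hH2 hCS1
    (by positivity)
  refine hfin.trans (le_of_eq ?_)
  rw [hU]
  ring

end Pool.Agent.Work.MP_b29d7f_half
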