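import Pool.Agent.Work.MP_b29d7f_half.Tools

/-!
# ZSEL: most elements of a set with small energy lie in a ball
-/

namespace Pool.Agent.Work.MP_b29d7f_half

open Finset
open Pool.Agent.Work.MP_b29d7f_nt (IsPOrdering HasSimultaneousOrdering PosUpperBanachDensity
  PS vd ld tv ld_comm)

theorem stmt_ZSEL : Stmt_ZSEL := by
  classical
  intro X hX hE
  set P : ℝ := (X.card : ℝ) with hP
  have hP1 : (1 : ℝ) < P := by rw [hP]; exact_mod_cast hX
  have hlog : 0 < Real.log P := Real.log_pos hP1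
  have hne : X.Nonempty := by
    rw [← Finset.card_pos]; omega
  -- a point with small row sum
  obtain ⟨z₀, hz₀, hrow⟩ : ∃ z₀ ∈ X, ∑ y ∈ X.erase z₀, ld z₀ y ≤ 3 * P * Real.log P := by
    by_contra hcon
    push Not at hcon
    have h1 : ∑ _x ∈ X, 3 * P * Real.log P < ∑ x ∈ X, ∑ y ∈ X.erase x, ld x y :=
      Finset.sum_lt_sum_of_nonempty hne hcon
    rw [← two_PS ld ld_comm X, Finset.sum_const, nsmul_eq_mul, ← hP] at h1
    nlinarith [h1, hE]
  set ρ : ℕ := ⌊Real.exp (Real.log P ^ 2)⌋₊ with hρ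
  refine ⟨z₀, hz₀, X.filter (fun z => |z - z₀| ≤ (ρ : ℤ)), Finset.filter_subset _ _, ?_, ?_⟩
  · intro z hz
    exact (Finset.mem_filter.mp hz).2
  -- the far points
  set F : Finset ℤ := X.filter (fun z => ¬ |z - z₀| ≤ (ρ : ℤ)) with hF
  have hcard : (X.filter (fun z => |z - z₀| ≤ (ρ : ℤ))).card + F.card = X.card :=
    Finset.card_filter_add_card_filter_not _
  have hFsub : F ⊆ X.erase z₀ := by
    intro z hz
    rw [hF, Finset.mem_filter] at hz
    rw [Finset.mem_erase]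
    refine ⟨?_, hz.1⟩
    rintro rfl
    apply hz.2
    simp
  have hfar : ∀ z ∈ F, Real.log P ^ 2 ≤ ld z₀ z := by
    intro z hz
    rw [hF, Finset.mem_filter, not_le] at hz
    have h1 : (ρ : ℤ) + 1 ≤ |z - z₀| := by omega
    have h2 : (ρ : ℝ) + 1 ≤ |((z₀ - z : ℤ) : ℝ)| := by
      have h3 : (((ρ : ℤ) + 1 : ℤ) : ℝ) ≤ ((|z - z₀| : ℤ) : ℝ) := by exact_mod_cast h1
      have h4 : |((z₀ - z : ℤ) : ℝ)| = ((|z - z₀| : ℤ) : ℝ) := by
        push_cast
        exact abs_sub_comm _ _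
      rw [h4]
      push_cast at h3 ⊢
      linarith
    have h5 : Real.exp (Real.log P ^ 2) ≤ |((z₀ - z : ℤ) : ℝ)| :=
      (Nat.lt_floor_add_one (Real.exp (Real.log P ^ 2))).le.trans h2
    unfold ld
    have h6 := Real.log_le_log (Real.exp_pos _) h5
    rwa [Real.log_exp] at h6
  have hsum : (F.card : ℝ) * Real.log P ^ 2 ≤ 3 * P * Real.log P := by
    calc (F.card : ℝ) * Real.log P ^ 2 = ∑ _z ∈ F, Real.log P ^ 2 := by
          rw [Finset.sum_const, nsmul_eq_mul]
      _ ≤ ∑ z ∈ F, ld z₀ z := Finset.sum_le_sum hfar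
      _ ≤ ∑ y ∈ X.erase z₀, ld z₀ y :=
          Finset.sum_le_sum_of_subset_of_nonneg hFsub fun _ _ _ => ld_nonneg _ _
      _ ≤ 3 * P * Real.log P := hrow
  have hF3 : (F.card : ℝ) ≤ 3 * P / Real.log P := by
    rw [le_div_iff₀ hlog]
    have h7 : (F.card : ℝ) * Real.log P * Real.log P ≤ 3 * P * Real.log P := by
      calc (F.card : ℝ) * Real.log P * Real.log P = (F.card : ℝ) * Real.log P ^ 2 := by ring
        _ ≤ _ := hsum
    exact le_of_mul_le_mul_right h7 hlog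
  have hcard' : ((X.filter (fun z => |z - z₀| ≤ (ρ : ℤ))).card : ℝ) + F.card = P := by
    rw [hP]; exact_mod_cast hcard
  have h8 : P * (1 - 3 / Real.log P) = P - 3 * P / Real.log P := by ring
  rw [h8]
  linarith

end Pool.Agent.Work.MP_b29d7f_half
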