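import Pool.Agent.Work.MP_b29d7f_nt.Conclude
import Pool.Agent.Work.MP_b29d7f_nt.Criteria
import Pool.Agent.Work.MP_b29d7f_nt.Fact
import Pool.Agent.Work.MP_b29d7f_nt.PairSum
import Pool.Agent.Work.MP_b29d7f_nt.Primes

/-!
# Sets of exponent larger than one half with a simultaneous ordering: definitions
-/

namespace Pool.Agent.Work.MP_b29d7f_half

open Finset
open Pool.Agent.Work.MP_b29d7f_nt (IsPOrdering HasSimultaneousOrdering PosUpperBanachDensity
  PS vd ld tv)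

/-- For some `ε > 0` and all large `L` some interval of length `L` contains at least
`L ^ (1/2 + ε)` elements of `S`. -/
def HalfDense (S : Set ℤ) : Prop :=
  ∃ ε : ℝ, 0 < ε ∧ ∃ L₀ : ℕ, ∀ L : ℕ, L₀ ≤ L → ∃ x : ℤ,
    (L : ℝ) ^ (1 / 2 + ε) ≤ ((S ∩ Set.Ico x (x + L)).ncard : ℝ)

/-- `X` lies in `L` consecutive integers -/
def InWin (X : Finset ℤ) (L : ℕ) : Prop := ∃ u : ℤ, ∀ x ∈ X, u ≤ x ∧ x < u + L

/-- the least `L` such that some `m` elements of `S` lie in `L` consecutive integers -/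
noncomputable def G (S : Set ℤ) (m : ℕ) : ℕ :=
  sInf {L : ℕ | ∃ W : Finset ℤ, (W : Set ℤ) ⊆ S ∧ W.card = m ∧ InWin W L}

/-- the first `n` terms -/
def A (a : ℕ → ℤ) (n : ℕ) : Finset ℤ := (range n).image a

/-- the data: `S` is infinite and `a` is a `p`-ordering of `S` for every prime `p` -/
structure Ord (S : Set ℤ) (a : ℕ → ℤ) : Prop where
  inf : S.Infinite
  ord : ∀ p : ℕ, p.Prime → IsPOrdering S p a

/-- the valuation of the `n`-th generalized factorial -/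
noncomputable def wv (p : ℕ) (a : ℕ → ℤ) (n : ℕ) : ℝ := ∑ i ∈ range n, vd p (a n) (a i)

/-- the logarithm of the `n`-th generalized factorial -/
noncomputable def lD (a : ℕ → ℤ) (n : ℕ) : ℝ := ∑ i ∈ range n, ld (a n) (a i)

/-- growth hypothesis with exponent `1 + θ` -/
def Growth (S : Set ℤ) (θ C₀ : ℝ) : Prop :=
  ∀ m : ℕ, 1 ≤ m → (G S m : ℝ) ≤ C₀ * (m : ℝ) ^ (1 + θ)

/-- record scales -/
def Rec (S : Set ℤ) (N : ℕ) : Prop :=
  ∀ m : ℕ, 1 ≤ m → m ≤ N →
    Real.log (G S N) ≤ Real.log (G S m) + 2 * (Real.log N - Real.log m)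

/-- the number of ordered pairs (diagonal included) congruent modulo `q` -/
def prs (q : ℕ) (W : Finset ℤ) : ℕ :=
  ((W ×ˢ W).filter fun x : ℤ × ℤ => (q : ℤ) ∣ x.1 - x.2).card

/-- the truncated kernel -/
noncomputable def K (Q R : ℕ) (x y : ℤ) : ℝ :=
  ∑ p ∈ Q.primesLE, Real.log p * (tv p (Nat.log p R) (x - y) : ℝ)

/-- the diagonal value of the kernel -/
noncomputable def DK (Q R : ℕ) : ℝ := ∑ p ∈ Q.primesLE, Real.log p * (Nat.log p R : ℝ)

end Pool.Agent.Work.MP_b29d7f_half
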