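import Pool.Agent.Work.MP_b29d7f_half.B_GBAS
import Pool.Agent.Work.MP_b29d7f_half.B_GROW
import Pool.Agent.Work.MP_b29d7f_half.B_BAN
import Pool.Agent.Work.MP_b29d7f_half.B_REC
import Pool.Agent.Work.MP_b29d7f_half.B_ARCHL
import Pool.Agent.Work.MP_b29d7f_half.B_VDM
import Pool.Agent.Work.MP_b29d7f_half.B_ORD
import Pool.Agent.Work.MP_b29d7f_half.B_TOP
import Pool.Agent.Work.MP_b29d7f_half.B_POT
import Pool.Agent.Work.MP_b29d7f_half.B_SIEVE
import Pool.Agent.Work.MP_b29d7f_half.B_AVG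
import Pool.Agent.Work.MP_b29d7f_half.B_PAIR
import Pool.Agent.Work.MP_b29d7f_half.B_CLS
import Pool.Agent.Work.MP_b29d7f_half.B_BIGP
import Pool.Agent.Work.MP_b29d7f_half.B_LOWY
import Pool.Agent.Work.MP_b29d7f_half.B_EARLYU
import Pool.Agent.Work.MP_b29d7f_half.B_ZSEL
import Pool.Agent.Work.MP_b29d7f_half.B_KSUM
import Pool.Agent.Work.MP_b29d7f_half.B_CS
import Pool.Agent.Work.MP_b29d7f_half.B_HIGH
import Pool.Agent.Work.MP_b29d7f_half.B_ABOUND
import Pool.Agent.Work.MP_b29d7f_half.B_YUP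
import Pool.Agent.Work.MP_b29d7f_half.B_BOUNDED
import Pool.Agent.Work.MP_b29d7f_half.B_MAIN

/-!
# The half exponent theorem: assembly
-/

namespace Pool.Agent.Work.MP_b29d7f_half

open Pool.Agent.Work.MP_b29d7f_nt (HasSimultaneousOrdering PosUpperBanachDensity thick_iff
  thick_of_banach ordering_of_ap)

theorem half_banach {S : Set ℤ} (hS : HalfDense S) (hO : HasSimultaneousOrdering S) :
    PosUpperBanachDensity S := by
  have hG : Stmt_GBAS := stmt_GBAS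
  have hV : Stmt_VDM := stmt_VDM
  have hORD : Stmt_ORD := stmt_ORD hV
  have hTOP : Stmt_TOP := stmt_TOP hG hORD
  have hPOT : Stmt_POT := stmt_POT (stmt_ARCHL hG) hORD hTOP
  have hBIGP : Stmt_BIGP := stmt_BIGP hG stmt_SIEVE (stmt_AVG hV) stmt_PAIR (stmt_CLS hV)
  have hLOWY : Stmt_LOWY := stmt_LOWY hG hORD hPOT hBIGP
  have hAB : Stmt_ABOUND := stmt_ABOUND hTOP stmt_EARLYU stmt_ZSEL stmt_KSUM hG
  have hYUP : Stmt_YUP := stmt_YUP hG hORD hPOT stmt_KSUM stmt_CS stmt_HIGH hAB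
  exact stmt_MAIN stmt_GROW (stmt_BAN hG) (stmt_REC hG) (stmt_BOUNDED hG hLOWY hYUP)
    S hS hO

/-- **Half exponent theorem.** -/
theorem half_iff {S : Set ℤ} (hS : HalfDense S) :
    HasSimultaneousOrdering S ↔
      ∃ a b : ℤ, a ≠ 0 ∧ (∀ n : ℕ, a * n + b ∈ S) ∧ ∀ s ∈ S, a ∣ s - b := by
  constructor
  · intro hO
    exact (thick_iff (thick_of_banach (half_banach hS hO))).mp hO
  · rintro ⟨a, b, _, h1, h2⟩
    exact ordering_of_ap h1 h2

end Pool.Agent.Work.MP_b29d7f_half
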