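import Pool.Agent.Work.MP_0b7501_nt.LargeSieve

/-!
# Elementary large sieve for congruent pairs (helper21)

For a finite set `W` of integers in an interval of `N + 1` consecutive integers,
`∑_{p ≤ T} (p * #{(x, y) ∈ W² : p ∣ x - y} - #W ^ 2) ≤ 16 * max N (T ^ 2) * #W`.
-/

set_option autoImplicit false

namespace Pool.Half21

open Finset

/-- `p * 1[x ≡ w (p)] - 1` -/
noncomputable def e (p x w : ℕ) : ℝ := p * (if x % p = w % p then (1 : ℝ) else 0) - 1

lemma sum_cross {D : ℕ} {om : ℕ → ℝ} {T : ℕ} {M : ℝ}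
    (hind : ∀ k c, 1 ≤ k → k ≤ T ^ 2 → c < k →
      ∑ m ∈ range D, om m * (if m % k = c then (1 : ℝ) else 0) = M / k)
    {p q : ℕ} (hp : p.Prime) (hq : q.Prime) (hpT : p ≤ T) (hqT : q ≤ T) (hne : p ≠ q) (w w' : ℕ) :
    ∑ x ∈ range D, om x * (e p x w * e q x w') = 0 := by
  have hp1 : 1 ≤ p := hp.one_lt.le
  have hq1 : 1 ≤ q := hq.one_lt.le
  have hT1 : 1 ≤ T := hp1.trans hpT
  have hpT2 : p ≤ T ^ 2 := hpT.trans (Nat.le_self_pow two_ne_zero T)
  have hqT2 : q ≤ T ^ 2 := hqT.trans (Nat.le_self_pow two_ne_zero T)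
  have hp0 : (p : ℝ) ≠ 0 := by positivity
  have hq0 : (q : ℝ) ≠ 0 := by positivity
  have hcop : Nat.Coprime p q := (Nat.coprime_primes hp hq).mpr hne
  have hqq : p * q ≤ T ^ 2 := by rw [sq]; exact Nat.mul_le_mul hpT hqT
  have h1 := hind p (w % p) hp1 hpT2 (Nat.mod_lt _ hp.pos)
  have h2 := hind q (w' % q) hq1 hqT2 (Nat.mod_lt _ hq.pos)
  have h0 : ∑ m ∈ range D, om m = M := by
    have := hind 1 0 le_rfl (Nat.one_le_pow _ _ hT1) Nat.zero_lt_one
    simpa [Nat.mod_one] using this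
  set z := Nat.chineseRemainder hcop (w % p) (w' % q) with hz
  have hzlt : (z : ℕ) < p * q := Nat.chineseRemainder_lt_mul hcop _ _ hp.pos.ne' hq.pos.ne'
  have h3 := hind (p * q) z (Nat.mul_pos hp.pos hq.pos) hqq hzlt
  have hiff : ∀ m : ℕ, (if m % (p * q) = z then (1 : ℝ) else 0) =
      (if m % p = w % p then (1 : ℝ) else 0) * (if m % q = w' % q then (1 : ℝ) else 0) := by
    intro m
    have hiff : m % (p * q) = z ↔ (m % p = w % p ∧ m % q = w' % q) := by
      constructor
      · intro h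
        have hzc := z.2
        have h3 : m ≡ z [MOD p * q] := by
          rw [Nat.ModEq, h, Nat.mod_eq_of_lt hzlt]
        constructor
        · have h5 := (Nat.ModEq.of_mul_right q h3).trans hzc.1
          rw [Nat.ModEq, Nat.mod_mod] at h5
          exact h5
        · have h5 := (Nat.ModEq.of_mul_left p h3).trans hzc.2
          rw [Nat.ModEq, Nat.mod_mod] at h5
          exact h5
      · rintro ⟨h3, h4⟩
        have h5 : m ≡ w % p [MOD p] := by rw [Nat.ModEq, Nat.mod_mod]; exact h3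
        have h6 : m ≡ w' % q [MOD q] := by rw [Nat.ModEq, Nat.mod_mod]; exact h4
        have h7 := Nat.chineseRemainder_modEq_unique hcop h5 h6
        rw [Nat.ModEq, Nat.mod_eq_of_lt hzlt] at h7
        exact h7
    by_cases hA : m % p = w % p <;> by_cases hB : m % q = w' % q <;> simp [hA, hB, hiff]
  have hexp : ∀ x : ℕ, om x * (e p x w * e q x w') =
      (p * q : ℝ) * (om x * (if x % (p * q) = z then (1 : ℝ) else 0)) -
      p * (om x * (if x % p = w % p then (1 : ℝ) else 0)) -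
      q * (om x * (if x % q = w' % q then (1 : ℝ) else 0)) + om x := by
    intro x
    rw [hiff]
    unfold e
    ring
  rw [Finset.sum_congr rfl fun x _ => hexp x, Finset.sum_add_distrib, Finset.sum_sub_distrib,
    Finset.sum_sub_distrib, ← Finset.mul_sum, ← Finset.mul_sum, ← Finset.mul_sum, h1, h2, h3, h0]
  push_cast
  field_simp
  ring

lemma sum_diag {D : ℕ} {om : ℕ → ℝ} {T : ℕ} {M : ℝ}
    (hind : ∀ k c, 1 ≤ k → k ≤ T ^ 2 → c < k →
      ∑ m ∈ range D, om m * (if m % k = c then (1 : ℝ) else 0) = M / k)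
    {p : ℕ} (hp : p.Prime) (hpT : p ≤ T) (w w' : ℕ) :
    ∑ x ∈ range D, om x * (e p x w * e p x w') = M * e p w w' := by
  have hp1 : 1 ≤ p := hp.one_lt.le
  have hT1 : 1 ≤ T := hp1.trans hpT
  have hpT2 : p ≤ T ^ 2 := hpT.trans (Nat.le_self_pow two_ne_zero T)
  have hp0 : (p : ℝ) ≠ 0 := by positivity
  have h1 := hind p (w % p) hp1 hpT2 (Nat.mod_lt _ hp.pos)
  have h2 := hind p (w' % p) hp1 hpT2 (Nat.mod_lt _ hp.pos)
  have h0 : ∑ m ∈ range D, om m = M := by
    have := hind 1 0 le_rfl (Nat.one_le_pow _ _ hT1) Nat.zero_lt_one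
    simpa [Nat.mod_one] using this
  have hexp : ∀ x : ℕ, om x * (e p x w * e p x w') =
      (p * p * (if w % p = w' % p then (1 : ℝ) else 0)) *
        (om x * (if x % p = w % p then (1 : ℝ) else 0)) -
      p * (om x * (if x % p = w % p then (1 : ℝ) else 0)) -
      p * (om x * (if x % p = w' % p then (1 : ℝ) else 0)) + om x := by
    intro x
    unfold e
    by_cases hA : x % p = w % p
    · by_cases hB : w % p = w' % p
      · simp only [hA, hB, if_true]; ring
      · simp only [hA, hB, if_true, if_false]; ring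
    · by_cases hB : w % p = w' % p
      · rw [← hB]; simp only [hA, if_false, if_true]; ring
      · simp only [hA, hB, if_false]; ring
  rw [Finset.sum_congr rfl fun x _ => hexp x, Finset.sum_add_distrib, Finset.sum_sub_distrib,
    Finset.sum_sub_distrib, ← Finset.mul_sum, ← Finset.mul_sum, ← Finset.mul_sum, h1, h2, h0]
  unfold e
  split_ifs <;> · field_simp; ring

/-- the large sieve, natural numbers -/
theorem large_sieve_nat (N T : ℕ) (hT : 1 ≤ T) (W : Finset ℕ) (hW : ∀ x ∈ W, x ≤ N)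
    (P : Finset ℕ) (hP : ∀ p ∈ P, p.Prime ∧ p ≤ T) :
    ∑ p ∈ P, ∑ w ∈ W, ∑ w' ∈ W, e p w w' ≤ 16 * (max N (T ^ 2) : ℕ) * (W.card : ℝ) := by
  obtain ⟨D, om, hND, hw0, hw1, hdvd, heq⟩ :=
    Pool.Agent.Work.MP_0b7501_nt.exists_weight N (T ^ 2) (Nat.one_le_pow _ _ hT)
  set M : ℝ := 16 * (max N (T ^ 2) : ℕ) with hM
  have hM0 : 0 ≤ M := by positivity
  have hind : ∀ k c, 1 ≤ k → k ≤ T ^ 2 → c < k →
      ∑ m ∈ range D, om m * (if m % k = c then (1 : ℝ) else 0) = M / k := by
    intro k c h1 h2 h3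
    rw [← heq k c h1 h2 h3, Finset.sum_filter]
    refine Finset.sum_congr rfl fun m _ => ?_
    split_ifs <;> simp
  set Sg : ℝ := ∑ p ∈ P, ∑ w ∈ W, ∑ w' ∈ W, e p w w' with hSg
  let F : ℕ → ℝ := fun x => ∑ p ∈ P, ∑ w ∈ W, e p x w
  have hF1 : ∑ x ∈ W, F x = Sg := by
    simp only [F, hSg]
    rw [Finset.sum_comm]
  have hF2 : ∑ x ∈ range D, om x * F x ^ 2 = M * Sg := by
    have h1 : ∀ x, om x * F x ^ 2 = ∑ p ∈ P, ∑ q ∈ P, ∑ w ∈ W, ∑ w' ∈ W,
        om x * (e p x w * e q x w') := by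
      intro x
      simp only [F]
      rw [sq, Finset.sum_mul_sum, Finset.mul_sum]
      refine Finset.sum_congr rfl fun p _ => ?_
      rw [Finset.mul_sum]
      refine Finset.sum_congr rfl fun q _ => ?_
      rw [Finset.sum_mul_sum, Finset.mul_sum]
      refine Finset.sum_congr rfl fun w _ => ?_
      rw [Finset.mul_sum]
    rw [Finset.sum_congr rfl fun x _ => h1 x, Finset.sum_comm, hSg, Finset.mul_sum]
    refine Finset.sum_congr rfl fun p hp => ?_
    rw [Finset.sum_comm]
    rw [Finset.sum_eq_single p]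
    · rw [Finset.sum_comm, Finset.mul_sum]
      refine Finset.sum_congr rfl fun w _ => ?_
      rw [Finset.sum_comm, Finset.mul_sum]
      refine Finset.sum_congr rfl fun w' _ => ?_
      exact sum_diag hind (hP p hp).1 (hP p hp).2 w w'
    · intro q hq hqp
      rw [Finset.sum_comm]
      refine Finset.sum_eq_zero fun w _ => ?_
      rw [Finset.sum_comm]
      refine Finset.sum_eq_zero fun w' _ => ?_
      exact sum_cross hind (hP p hp).1 (hP q hq).1 (hP p hp).2 (hP q hq).2 (Ne.symm hqp) w w'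
    · intro h; exact absurd hp h
  have hCS : Sg ^ 2 ≤ (W.card : ℝ) * (M * Sg) := by
    rw [← hF1]
    refine (sq_sum_le_card_mul_sum_sq (s := W) (f := F)).trans ?_
    refine mul_le_mul_of_nonneg_left ?_ (Nat.cast_nonneg _)
    rw [hF1, ← hF2]
    calc ∑ x ∈ W, F x ^ 2 ≤ ∑ x ∈ W, om x * F x ^ 2 := by
          refine Finset.sum_le_sum fun x hx => ?_
          have := hw1 x (hW x hx)
          nlinarith [sq_nonneg (F x)]
      _ ≤ ∑ x ∈ range D, om x * F x ^ 2 := by
          refine Finset.sum_le_sum_of_subset_of_nonneg ?_ ?_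
          · intro x hx
            rw [mem_range]
            have := hW x hx
            omega
          · intro x _ _
            exact mul_nonneg (hw0 x) (sq_nonneg _)
  rcases le_or_gt Sg 0 with h | h
  · exact h.trans (by positivity)
  · have : Sg * Sg ≤ (M * (W.card : ℝ)) * Sg := by nlinarith [hCS]
    exact le_of_mul_le_mul_right this h

/-- ordered pairs of `W` congruent mod `p` -/
def prs (W : Finset ℤ) (p : ℕ) : ℕ := ((W ×ˢ W).filter fun z => (p : ℤ) ∣ z.1 - z.2).card

/-- **Large sieve for congruent pairs**: `W` in an interval of `N + 1` consecutive integers. -/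
theorem large_sieve_int (N T : ℕ) (hT : 1 ≤ T) (c : ℤ) (W : Finset ℤ)
    (hW : ∀ x ∈ W, c ≤ x ∧ x ≤ c + N) (P : Finset ℕ) (hP : ∀ p ∈ P, p.Prime ∧ p ≤ T) :
    ∑ p ∈ P, ((p : ℝ) * prs W p - (W.card : ℝ) ^ 2) ≤ 16 * (max N (T ^ 2) : ℕ) * (W.card : ℝ) := by
  classical
  set f : ℤ → ℕ := fun x => (x - c).toNat with hf
  have hinj : Set.InjOn f W := by
    intro x hx y hy hxy
    have h1 := hW x hx
    have h2 := hW y hy
    simp only [hf] at hxy
    omega
  have hcard : (W.image f).card = W.card := Finset.card_image_of_injOn hinj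
  have key := large_sieve_nat N T hT (W.image f) (by
    intro x hx
    obtain ⟨y, hy, rfl⟩ := Finset.mem_image.mp hx
    have := hW y hy
    simp only [hf]
    omega) P hP
  rw [hcard] at key
  refine le_trans (le_of_eq ?_) key
  refine Finset.sum_congr rfl fun p hp => ?_
  have hp0 : 0 < p := (hP p hp).1.pos
  rw [Finset.sum_image hinj]
  have h1 : ∀ x ∈ W, ∑ w' ∈ W.image f, e p (f x) w' =
      ∑ y ∈ W, ((p : ℝ) * (if (p : ℤ) ∣ x - y then (1 : ℝ) else 0) - 1) := by
    intro x hx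
    rw [Finset.sum_image hinj]
    refine Finset.sum_congr rfl fun y hy => ?_
    unfold e
    have h2 := hW x hx
    have h3 := hW y hy
    have hiff : f x % p = f y % p ↔ (p : ℤ) ∣ x - y := by
      have hx' : ((f x : ℕ) : ℤ) = x - c := by simp only [hf]; omega
      have hy' : ((f y : ℕ) : ℤ) = y - c := by simp only [hf]; omega
      have e1 : f x % p = f y % p ↔ f x ≡ f y [MOD p] := Iff.rfl
      rw [e1, ← Int.natCast_modEq_iff, hx', hy', Int.modEq_iff_dvd]
      have : y - c - (x - c) = -(x - y) := by ring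
      rw [this, dvd_neg]
    by_cases h : (p : ℤ) ∣ x - y
    · rw [if_pos (hiff.mpr h), if_pos h]
    · rw [if_neg (fun h' => h (hiff.mp h')), if_neg h]
  rw [Finset.sum_congr rfl h1]
  have h2 : ((prs W p : ℕ) : ℝ) = ∑ x ∈ W, ∑ y ∈ W, (if (p : ℤ) ∣ x - y then (1 : ℝ) else 0) := by
    unfold prs
    rw [Finset.card_filter, Finset.sum_product]
    push_cast
    rfl
  rw [h2]
  simp only [Finset.sum_sub_distrib, Finset.sum_const, nsmul_eq_mul, mul_one, ← Finset.mul_sum]
  ring

end Pool.Half21
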